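import Pool.Agent.MP_d32a63_an.H82.Defs

open Set Filter Topology MeasureTheory Metric

namespace Pool.Agent.MP_d32a63_an.H82

/-- Globally continuous jets of a function holomorphic on `W`. -/
def Jet (n : ℕ) (W : Set ℂ) (F : ℕ → ℂ → ℂ) : Prop :=
  (∀ j ≤ n, Continuous (F j)) ∧ DifferentiableOn ℂ (F 0) W ∧
    ∀ j ≤ n, EqOn (F j) (iteratedDeriv j (F 0)) W

/-- Output of the analytic localisation step. -/
def Core (n : ℕ) (W : Set ℂ) (f : ℂ → ℂ) (p : ℂ) (r : ℝ) : Prop :=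
  ∃ G H : ℂ → ℂ, DifferentiableOn ℂ G (W ∪ (closedBall p (3 * r))ᶜ) ∧
    DifferentiableOn ℂ H (W ∪ ball p r) ∧ (∀ z ∈ W, f z = G z + H z) ∧
    ∀ j ≤ n, ∀ q ∈ closure W, q ∈ closedBall p (3 * r) →
      ∃ y, Tendsto (iteratedDeriv j G) (𝓝[W] q) (𝓝 y)

/-- Splitting off the singularities near `p`. -/
def Loc (n : ℕ) (T : Set ℂ) (f : ℂ → ℂ) (p : ℂ) (r : ℝ) : Prop :=
  ∃ g h : ℂ → ℂ, MemA n (T ∩ closedBall p (4 * r)) g ∧ MemA n (T \ ball p (r / 2)) h ∧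
    ∀ z ∈ Tᶜ, f z = g z + h z

theorem basic_closure_compl {S : Set ℂ} (hS : IsClosed S) : closure Sᶜ = Sᶜ ∪ frontier S := by
  rw [closure_eq_interior_union_frontier, hS.isOpen_compl.interior_eq, frontier_compl]

theorem basic_contAt {U : Set ℂ} (hU : IsOpen U) {f : ℂ → ℂ} (hf : DifferentiableOn ℂ f U)
    (j : ℕ) {q : ℂ} (hq : q ∈ U) : ContinuousAt (iteratedDeriv j f) q := by
  have h1 : AnalyticOnNhd ℂ f U := hf.analyticOnNhd hU
  have h2 : AnalyticOnNhd ℂ (deriv^[j] f) U := h1.iterated_deriv j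
  rw [iteratedDeriv_eq_iterate]
  exact (h2 q hq).continuousAt

theorem basic_eqOn {U : Set ℂ} (hU : IsOpen U) {f g : ℂ → ℂ} (h : ∀ z ∈ U, f z = g z) (j : ℕ) :
    ∀ z ∈ U, iteratedDeriv j f z = iteratedDeriv j g z := by
  intro z hz
  apply Filter.EventuallyEq.iteratedDeriv_eq
  filter_upwards [hU.mem_nhds hz] with w hw using h w hw

theorem basic_add {U : Set ℂ} (hU : IsOpen U) {f g : ℂ → ℂ} (hf : DifferentiableOn ℂ f U)
    (hg : DifferentiableOn ℂ g U) (j : ℕ) :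
    ∀ z ∈ U, iteratedDeriv j (fun w => f w + g w) z =
      iteratedDeriv j f z + iteratedDeriv j g z := by
  intro z hz
  exact iteratedDeriv_fun_add ((hf.analyticOnNhd hU z hz).contDiffAt)
    ((hg.analyticOnNhd hU z hz).contDiffAt)

theorem basic_sub {U : Set ℂ} (hU : IsOpen U) {f g : ℂ → ℂ} (hf : DifferentiableOn ℂ f U)
    (hg : DifferentiableOn ℂ g U) (j : ℕ) :
    ∀ z ∈ U, iteratedDeriv j (fun w => f w - g w) z =
      iteratedDeriv j f z - iteratedDeriv j g z := by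
  intro z hz
  exact iteratedDeriv_fun_sub ((hf.analyticOnNhd hU z hz).contDiffAt)
    ((hg.analyticOnNhd hU z hz).contDiffAt)

theorem memA_iff_lim {n : ℕ} {S : Set ℂ} (hS : IsClosed S) {f : ℂ → ℂ} :
    MemA n S f ↔ DifferentiableOn ℂ f Sᶜ ∧
      ∀ j ≤ n, ∀ q ∈ closure Sᶜ, ∃ y, Tendsto (iteratedDeriv j f) (𝓝[Sᶜ] q) (𝓝 y) := by
  constructor
  · rintro ⟨hd, h⟩
    refine ⟨hd, fun j hj q hq => ?_⟩
    obtain ⟨F, hF, hE⟩ := h j hj
    rw [← basic_closure_compl hS] at hF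
    refine ⟨F q, ?_⟩
    have h1 : Tendsto F (𝓝[Sᶜ] q) (𝓝 (F q)) :=
      ((hF q hq).mono subset_closure).tendsto
    refine h1.congr' ?_
    filter_upwards [self_mem_nhdsWithin] with w hw using hE hw
  · rintro ⟨hd, h⟩
    refine ⟨hd, fun j hj => ⟨extendFrom Sᶜ (iteratedDeriv j f), ?_, ?_⟩⟩
    · rw [← basic_closure_compl hS]
      exact continuousOn_extendFrom subset_rfl (h j hj)
    · intro z hz
      exact extendFrom_extends
        (fun w hw => (basic_contAt hS.isOpen_compl hd j hw).continuousWithinAt) z hz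

theorem MemA.mono {n : ℕ} {S T : Set ℂ} (hS : IsClosed S) (hT : IsClosed T) (hTS : T ⊆ S)
    {f : ℂ → ℂ} (hf : MemA n T f) : MemA n S f := by
  rw [memA_iff_lim hT] at hf
  rw [memA_iff_lim hS]
  have hc : Sᶜ ⊆ Tᶜ := compl_subset_compl.mpr hTS
  refine ⟨hf.1.mono hc, fun j hj q hq => ?_⟩
  obtain ⟨y, hy⟩ := hf.2 j hj q (closure_mono hc hq)
  exact ⟨y, hy.mono_left (nhdsWithin_mono q hc)⟩

theorem MemA.congr {n : ℕ} {S : Set ℂ} (hS : IsClosed S) {f g : ℂ → ℂ} (hf : MemA n S f)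
    (h : ∀ z ∈ Sᶜ, g z = f z) : MemA n S g := by
  refine ⟨hf.1.congr h, fun j hj => ?_⟩
  obtain ⟨F, hF, hE⟩ := hf.2 j hj
  exact ⟨F, hF, fun z hz => (hE hz).trans (basic_eqOn hS.isOpen_compl h j z hz).symm⟩

theorem MemA.add {n : ℕ} {S : Set ℂ} (hS : IsClosed S) {f g : ℂ → ℂ} (hf : MemA n S f)
    (hg : MemA n S g) : MemA n S (fun z => f z + g z) := by
  refine ⟨hf.1.add hg.1, fun j hj => ?_⟩
  obtain ⟨F, hF, hE⟩ := hf.2 j hj
  obtain ⟨G, hG, hE'⟩ := hg.2 j hj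
  refine ⟨fun z => F z + G z, hF.add hG, fun z hz => ?_⟩
  rw [basic_add hS.isOpen_compl hf.1 hg.1 j z hz, ← hE hz, ← hE' hz]

theorem MemA.sub {n : ℕ} {S : Set ℂ} (hS : IsClosed S) {f g : ℂ → ℂ} (hf : MemA n S f)
    (hg : MemA n S g) : MemA n S (fun z => f z - g z) := by
  refine ⟨hf.1.sub hg.1, fun j hj => ?_⟩
  obtain ⟨F, hF, hE⟩ := hf.2 j hj
  obtain ⟨G, hG, hE'⟩ := hg.2 j hj
  refine ⟨fun z => F z - G z, hF.sub hG, fun z hz => ?_⟩
  rw [basic_sub hS.isOpen_compl hf.1 hg.1 j z hz, ← hE hz, ← hE' hz]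

theorem memA_of_entire {n : ℕ} {S : Set ℂ} (hS : IsClosed S) {f : ℂ → ℂ}
    (hf : Differentiable ℂ f) : MemA n S f := by
  rw [memA_iff_lim hS]
  refine ⟨hf.differentiableOn, fun j _ q _ => ⟨iteratedDeriv j f q, ?_⟩⟩
  exact (basic_contAt isOpen_univ hf.differentiableOn j (mem_univ q)).tendsto.mono_left
    nhdsWithin_le_nhds

/-- Membership is local: near every point `f` is a member plus a holomorphic function. -/
theorem memA_of_local {n : ℕ} {S : Set ℂ} (hS : IsClosed S) {f : ℂ → ℂ}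
    (h : ∀ q : ℂ, ∃ ε > 0, ∃ g u : ℂ → ℂ, MemA n S g ∧ DifferentiableOn ℂ u (ball q ε) ∧
      ∀ z ∈ Sᶜ ∩ ball q ε, f z = g z + u z) : MemA n S f := by
  rw [memA_iff_lim hS]
  constructor
  · intro q hq
    obtain ⟨ε, hε, g, u, hg, hu, he⟩ := h q
    have hU : IsOpen (Sᶜ ∩ ball q ε) := hS.isOpen_compl.inter isOpen_ball
    have hq' : q ∈ Sᶜ ∩ ball q ε := ⟨hq, mem_ball_self hε⟩
    have h1 : DifferentiableOn ℂ f (Sᶜ ∩ ball q ε) :=
      ((hg.1.mono inter_subset_left).add (hu.mono inter_subset_right)).congr he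
    exact (h1.differentiableAt (hU.mem_nhds hq')).differentiableWithinAt
  · intro j hj q hq
    obtain ⟨ε, hε, g, u, hg, hu, he⟩ := h q
    have hU : IsOpen (Sᶜ ∩ ball q ε) := hS.isOpen_compl.inter isOpen_ball
    obtain ⟨y, hy⟩ := ((memA_iff_lim hS).mp hg).2 j hj q hq
    have hu' := (basic_contAt isOpen_ball hu j (mem_ball_self hε)).tendsto.mono_left
      (nhdsWithin_le_nhds (s := Sᶜ))
    refine ⟨_, (hy.add hu').congr' ?_⟩
    filter_upwards [self_mem_nhdsWithin, nhdsWithin_le_nhds (ball_mem_nhds q hε)] with w hw hw'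
    rw [basic_eqOn hU he j w ⟨hw, hw'⟩]
    exact (basic_add hU (hg.1.mono inter_subset_left) (hu.mono inter_subset_right) j w
      ⟨hw, hw'⟩).symm

theorem basic_tietze {C : Set ℂ} (hC : IsClosed C) {F : ℂ → ℂ} (hF : ContinuousOn F C) :
    ∃ G : ℂ → ℂ, Continuous G ∧ EqOn G F C := by
  obtain ⟨G, hG⟩ := ContinuousMap.exists_restrict_eq hC
    (⟨C.domRestrict F, hF.domRestrict⟩ : C(C, ℂ))
  refine ⟨G, G.continuous, fun z hz => ?_⟩
  have := congrArg (fun φ : C(C, ℂ) => φ ⟨z, hz⟩) hG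
  exact this

theorem MemA.exists_jet {n : ℕ} {S : Set ℂ} (hS : IsClosed S) {f : ℂ → ℂ} (hf : MemA n S f) :
    ∃ F : ℕ → ℂ → ℂ, Jet n Sᶜ F ∧ ∀ z ∈ Sᶜ, F 0 z = f z := by
  have key : ∀ j : ℕ, ∃ G : ℂ → ℂ, j ≤ n → Continuous G ∧ EqOn G (iteratedDeriv j f) Sᶜ := by
    intro j
    by_cases hj : j ≤ n
    · obtain ⟨F, hF, hE⟩ := hf.2 j hj
      rw [← basic_closure_compl hS] at hF
      obtain ⟨G, hG, hGF⟩ := basic_tietze isClosed_closure hF
      exact ⟨G, fun _ => ⟨hG, fun z hz => (hGF (subset_closure hz)).trans (hE hz)⟩⟩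
    · exact ⟨0, fun h => absurd h hj⟩
  choose F hF using key
  have h0 : ∀ z ∈ Sᶜ, F 0 z = f z := fun z hz => by
    simpa using (hF 0 (Nat.zero_le n)).2 hz
  refine ⟨F, ⟨fun j hj => (hF j hj).1, hf.1.congr h0, fun j hj z hz => ?_⟩, h0⟩
  rw [(hF j hj).2 hz, basic_eqOn hS.isOpen_compl h0 j z hz]

theorem loc_of_core {n : ℕ} {T : Set ℂ} (hT : IsClosed T) {f f₀ : ℂ → ℂ} (hf : MemA n T f)
    (h₀ : ∀ z ∈ Tᶜ, f₀ z = f z) {p : ℂ} {r : ℝ} (hr : 0 < r) (hc : Core n Tᶜ f₀ p r) :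
    Loc n T f p r := by
  obtain ⟨G, H, hG, hH, hs, hl⟩ := hc
  have hW : IsOpen Tᶜ := hT.isOpen_compl
  have hO : IsOpen (Tᶜ ∪ (closedBall p (3 * r))ᶜ) := hW.union isClosed_closedBall.isOpen_compl
  have hI : IsOpen (Tᶜ ∪ ball p r) := hW.union isOpen_ball
  have hGlim : ∀ j ≤ n, ∀ q ∈ closure Tᶜ,
      ∃ y, Tendsto (iteratedDeriv j G) (𝓝[Tᶜ] q) (𝓝 y) := by
    intro j hj q hq
    by_cases hq3 : q ∈ closedBall p (3 * r)
    · exact hl j hj q hq hq3
    · exact ⟨_, (basic_contAt hO hG j (Or.inr hq3)).tendsto.mono_left nhdsWithin_le_nhds⟩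
  have hloc : ∀ (V N : Set ℂ) (q : ℂ), N ∈ 𝓝 q → V ∩ N ⊆ Tᶜ → q ∈ closure V →
      q ∈ closure Tᶜ ∧ 𝓝[V] q ≤ 𝓝[Tᶜ] q := by
    intro V N q hN hV hq
    have h2 : 𝓝[V] q ≤ 𝓝[Tᶜ] q := by
      rw [nhdsWithin_le_iff]
      exact mem_of_superset (inter_mem_nhdsWithin V hN) hV
    refine ⟨?_, h2⟩
    rw [mem_closure_iff_nhdsWithin_neBot] at hq ⊢
    exact hq.mono h2
  refine ⟨G, H, ?_, ?_, fun z hz => by rw [← h₀ z hz, hs z hz]⟩
  · rw [memA_iff_lim (hT.inter isClosed_closedBall)]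
    constructor
    · refine hG.mono ?_
      intro z hz
      by_cases hzT : z ∈ T
      · right
        intro hz3
        exact hz ⟨hzT, closedBall_subset_closedBall (by linarith) hz3⟩
      · exact Or.inl hzT
    · intro j hj q hq
      by_cases hq3 : q ∈ closedBall p (3 * r)
      · have hN : ball p (4 * r) ∈ 𝓝 q :=
          isOpen_ball.mem_nhds (closedBall_subset_ball (by linarith) hq3)
        obtain ⟨h1, h2⟩ := hloc (T ∩ closedBall p (4 * r))ᶜ _ q hN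
          (fun z hz hzT => hz.1 ⟨hzT, ball_subset_closedBall hz.2⟩) hq
        obtain ⟨y, hy⟩ := hGlim j hj q h1
        exact ⟨y, hy.mono_left h2⟩
      · exact ⟨_, (basic_contAt hO hG j (Or.inr hq3)).tendsto.mono_left nhdsWithin_le_nhds⟩
  · rw [memA_iff_lim (hT.sdiff isOpen_ball)]
    constructor
    · refine hH.mono ?_
      intro z hz
      by_cases hzT : z ∈ T
      · right
        by_contra hz3
        exact hz ⟨hzT, fun h => hz3 (ball_subset_ball (by linarith) h)⟩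
      · exact Or.inl hzT
    · intro j hj q hq
      by_cases hq3 : q ∈ ball p r
      · exact ⟨_, (basic_contAt hI hH j (Or.inr hq3)).tendsto.mono_left nhdsWithin_le_nhds⟩
      · have hN : (closedBall p (r / 2))ᶜ ∈ 𝓝 q :=
          isClosed_closedBall.isOpen_compl.mem_nhds
            (fun h => hq3 (closedBall_subset_ball (by linarith) h))
        obtain ⟨h1, h2⟩ := hloc (T \ ball p (r / 2))ᶜ _ q hN
          (fun z hz hzT => hz.1 ⟨hzT, fun h => hz.2 (ball_subset_closedBall h)⟩) hq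
        obtain ⟨y, hy⟩ := hGlim j hj q h1
        obtain ⟨x, hx⟩ := ((memA_iff_lim hT).mp hf).2 j hj q h1
        refine ⟨x - y, Tendsto.mono_left ((hx.sub hy).congr' ?_) h2⟩
        filter_upwards [self_mem_nhdsWithin] with w hw
        have hH' : ∀ z ∈ Tᶜ, H z = f z - G z := fun z hz => by
          rw [← h₀ z hz, hs z hz]; ring
        rw [basic_eqOn hW hH' j w hw]
        exact (basic_sub hW hf.1 (hG.mono subset_union_left) j w hw).symm

end Pool.Agent.MP_d32a63_an.H82
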