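import Pool.Agent.MP_d32a63_an.H82.Basic

open Set Filter Topology MeasureTheory Metric

namespace Pool.Agent.MP_d32a63_an.H82

/-- Approximation by entire functions on a smaller disc. -/
lemma split_entire {g : ℂ → ℂ} {R : ℝ} (hg : DifferentiableOn ℂ g (ball 0 R)) {ε : ℝ}
    (hε : 0 < ε) : ∃ P : ℂ → ℂ, Differentiable ℂ P ∧ ∀ z ∈ ball (0 : ℂ) (R - 1), ‖g z - P z‖ ≤ ε := by
  rcases le_or_gt R 1 with hR | hR
  · exact ⟨0, differentiable_const _, fun z hz => by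
      rw [ball_eq_empty.2 (by linarith)] at hz; exact hz.elim⟩
  have h1 := DifferentiableOn.hasFPowerSeriesOnBall (R := ⟨R - 1 / 2, by linarith⟩) (c := 0)
    (hg.mono (closedBall_subset_ball (show R - 1 / 2 < R by linarith)))
    (show (0 : ℝ) < R - 1 / 2 by linarith)
  have h2 := h1.tendstoUniformlyOn (r' := ⟨R - 1, by linarith⟩)
    (ENNReal.coe_lt_coe.2 (show R - 1 < R - 1 / 2 by linarith))
  obtain ⟨N, hN⟩ := (Metric.tendstoUniformlyOn_iff.1 h2 ε hε).exists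
  refine ⟨fun y => (cauchyPowerSeries g 0 (R - 1 / 2)).partialSum N y, ?_,
    fun z hz => by have := (hN z hz).le; rwa [dist_eq_norm, zero_add] at this⟩
  simp only [FormalMultilinearSeries.partialSum, FormalMultilinearSeries.apply_eq_pow_smul_coeff]
  fun_prop

section

variable {n : ℕ} {S S₁ S₂ : Set ℂ}

lemma split_fin (h₁ : IsClosed S₁) (h₂ : IsClosed S₂)
    (hloc : ∀ T : Set ℂ, IsClosed T → T ⊆ S → ∀ f : ℂ → ℂ, MemA n T f →
      ∀ (p : ℂ) (r : ℝ), 0 < r → Loc n T f p r) (r : ℂ → ℝ) (s : Finset ℂ)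
    (hs : ∀ p ∈ s, 0 < r p ∧ (S ∩ closedBall p (4 * r p) ⊆ S₁ ∨ S ∩ closedBall p (4 * r p) ⊆ S₂))
    {T : Set ℂ} (hT : IsClosed T) (hTS : T ⊆ S) {g : ℂ → ℂ} (hg : MemA n T g) :
    ∃ a b h : ℂ → ℂ, MemA n (S₁ ∩ T) a ∧ MemA n (S₂ ∩ T) b ∧
      MemA n (T \ ⋃ p ∈ s, ball p (r p / 2)) h ∧ ∀ z ∈ Tᶜ, g z = a z + b z + h z := by
  induction s using Finset.induction_on with
  | empty =>
    exact ⟨0, 0, g, memA_of_entire (h₁.inter hT) (differentiable_const _),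
      memA_of_entire (h₂.inter hT) (differentiable_const _), by simpa using hg, by simp⟩
  | insert p s _ ih =>
    obtain ⟨a, b, h, ha, hb, hh, e⟩ := ih fun q hq => hs q (Finset.mem_insert_of_mem hq)
    obtain ⟨hr, hp⟩ := hs p (Finset.mem_insert_self _ _)
    have hc : IsClosed (T \ ⋃ p ∈ s, ball p (r p / 2)) :=
      hT.sdiff (isOpen_biUnion fun _ _ => isOpen_ball)
    obtain ⟨c, d, g1, g2, g3⟩ := hloc _ hc (sdiff_subset.trans hTS) h hh p _ hr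
    rw [sdiff_sdiff, union_comm, ← Finset.set_biUnion_insert p s fun p => ball p (r p / 2)] at g2
    have e' : ∀ z ∈ Tᶜ, g z = a z + b z + (c z + d z) := fun z hz => by
      rw [e z hz, g3 z fun h => hz h.1]
    rcases hp with hp | hp
    · refine ⟨_, b, d, ha.add (h₁.inter hT) (g1.mono (h₁.inter hT) (hc.inter isClosed_closedBall)
        fun z hz => ⟨hp ⟨hTS hz.1.1, hz.2⟩, hz.1.1⟩), hb, g2, fun z hz => ?_⟩
      rw [e' z hz]; ring
    · refine ⟨a, _, d, ha, hb.add (h₂.inter hT) (g1.mono (h₂.inter hT)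
        (hc.inter isClosed_closedBall) fun z hz => ⟨hp ⟨hTS hz.1.1, hz.2⟩, hz.1.1⟩), g2,
        fun z hz => ?_⟩
      rw [e' z hz]; ring

lemma split_step (hS : IsClosed S) (hadm : Admissible S S₁ S₂)
    (hloc : ∀ T : Set ℂ, IsClosed T → T ⊆ S → ∀ f : ℂ → ℂ, MemA n T f →
      ∀ (p : ℂ) (r : ℝ), 0 < r → Loc n T f p r) (m : ℕ) (g : ℂ → ℂ)
    (hg : MemA n (S \ ball 0 m) g) :
    ∃ a b h : ℂ → ℂ, (MemA n (S₁ \ ball 0 m) a ∧ ∀ z ∈ ball (0 : ℂ) (m - 1), ‖a z‖ ≤ (1 / 2) ^ m) ∧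
      (MemA n (S₂ \ ball 0 m) b ∧ ∀ z ∈ ball (0 : ℂ) (m - 1), ‖b z‖ ≤ (1 / 2) ^ m) ∧
      MemA n (S \ ball 0 (m + 1 : ℕ)) h ∧ ∀ z ∈ (S \ ball 0 m)ᶜ, g z = a z + b z + h z := by
  obtain ⟨h₁, h₂, -, h₃⟩ := hadm
  have key : ∀ p : ℂ, ∃ r : ℝ, 0 < r ∧ (p ∈ S → S ∩ closedBall p (4 * r) ⊆ S₁ ∨
      S ∩ closedBall p (4 * r) ⊆ S₂) := by
    intro p
    by_cases hp : p ∈ S
    swap
    · exact ⟨1, one_pos, fun h => absurd h hp⟩
    have : ∀ A ∈ 𝓝[S] p, ∃ r : ℝ, 0 < r ∧ S ∩ closedBall p (4 * r) ⊆ A := fun A hA => by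
      obtain ⟨ε, h1, h2⟩ := Metric.mem_nhdsWithin_iff.1 hA
      exact ⟨ε / 5, by linarith, fun z hz =>
        h2 ⟨closedBall_subset_ball (by linarith) hz.2, hz.1⟩⟩
    rcases h₃ p hp with h | h <;> obtain ⟨r, h1, h2⟩ := this _ h
    · exact ⟨r, h1, fun _ => Or.inl h2⟩
    · exact ⟨r, h1, fun _ => Or.inr h2⟩
  choose r r1 r2 using key
  obtain ⟨s, s1, s2⟩ := ((isCompact_closedBall (0 : ℂ) (m + 1 : ℕ)).inter_left hS).elim_nhds_subcover
    (fun p => ball p (r p / 2)) fun p _ => ball_mem_nhds _ (half_pos (r1 p))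
  have hT : ∀ k : ℕ, IsClosed (S \ ball 0 k) := fun k => hS.sdiff isOpen_ball
  obtain ⟨a, b, h, ha, hb, hh, e⟩ := split_fin h₁ h₂ hloc r s
    (fun p hp => ⟨r1 p, r2 p (s1 p hp).1⟩) (hT m) sdiff_subset hg
  replace ha := ha.mono (h₁.sdiff isOpen_ball) (h₁.inter (hT m))
    (S := S₁ \ ball 0 m) fun z hz => ⟨hz.1, hz.2.2⟩
  replace hb := hb.mono (h₂.sdiff isOpen_ball) (h₂.inter (hT m))
    (S := S₂ \ ball 0 m) fun z hz => ⟨hz.1, hz.2.2⟩
  replace hh := hh.mono (hT (m + 1)) ((hT m).sdiff (isOpen_biUnion fun _ _ => isOpen_ball))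
    fun z hz => ⟨hz.1.1, fun h => hz.2 (s2 ⟨hz.1.1, ball_subset_closedBall h⟩)⟩
  obtain ⟨P, P1, P2⟩ := split_entire (R := m) (ha.1.mono fun z hz h => h.2 hz)
    (pow_pos one_half_pos m)
  obtain ⟨Q, Q1, Q2⟩ := split_entire (R := m) (hb.1.mono fun z hz h => h.2 hz)
    (pow_pos one_half_pos m)
  refine ⟨_, _, _, ⟨ha.sub (h₁.sdiff isOpen_ball) (memA_of_entire (h₁.sdiff isOpen_ball) P1), P2⟩,
    ⟨hb.sub (h₂.sdiff isOpen_ball) (memA_of_entire (h₂.sdiff isOpen_ball) Q1), Q2⟩,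
    hh.add (hT _) (memA_of_entire (hT _) (P1.add Q1)), fun z hz => ?_⟩
  rw [e z hz, Pi.add_apply]; ring

variable {a : ℕ → ℂ → ℂ}

lemma split_summable (ha : ∀ m : ℕ, ∀ z ∈ ball (0 : ℂ) (m - 1), ‖a m z‖ ≤ (1 / 2) ^ m) (z : ℂ) :
    Summable fun m => a m z := by
  refine Summable.of_norm_bounded_eventually_nat summable_geometric_two ?_
  obtain ⟨N, hN⟩ := exists_nat_gt (‖z‖ + 1)
  filter_upwards [eventually_ge_atTop N] with m hm
  refine ha m z (mem_ball_zero_iff.2 ?_)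
  have : (N : ℝ) ≤ m := Nat.cast_le.2 hm
  linarith

lemma split_tail (ha : ∀ m : ℕ, MemA n (S₁ \ ball 0 m) (a m) ∧
    ∀ z ∈ ball (0 : ℂ) (m - 1), ‖a m z‖ ≤ (1 / 2) ^ m) (M : ℕ) :
    DifferentiableOn ℂ (fun z => ∑' k, a (k + (M + 1)) z) (ball 0 M) := by
  have h : ∀ k : ℕ, (M : ℝ) ≤ (k + (M + 1) : ℕ) - 1 := fun k => by
    have : (0 : ℝ) ≤ k := Nat.cast_nonneg k
    push_cast; linarith
  refine Complex.differentiableOn_tsum_of_summable_norm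
    ((summable_nat_add_iff (M + 1)).2 summable_geometric_two) (fun k => ?_) isOpen_ball
    fun k z hz => (ha _).2 z (ball_subset_ball (h k) hz)
  exact (ha _).1.1.mono fun z hz g => g.2 (ball_subset_ball (by linarith [h k]) hz)

lemma split_sum (h₁ : IsClosed S₁) (ha : ∀ m : ℕ, MemA n (S₁ \ ball 0 m) (a m) ∧
    ∀ z ∈ ball (0 : ℂ) (m - 1), ‖a m z‖ ≤ (1 / 2) ^ m) : MemA n S₁ fun z => ∑' k, a k z := by
  have h : ∀ M, MemA n S₁ fun z => ∑ k ∈ Finset.range M, a k z := by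
    intro M
    induction M with
    | zero => exact memA_of_entire h₁ (by simp)
    | succ M ih =>
      simp only [Finset.sum_range_succ]
      exact ih.add h₁ ((ha M).1.mono h₁ (h₁.sdiff isOpen_ball) sdiff_subset)
  refine memA_of_local h₁ fun q => ?_
  obtain ⟨M, hM⟩ := exists_nat_gt (‖q‖ + 1)
  refine ⟨1, one_pos, _, _, h (M + 1), (split_tail ha M).mono
    (ball_subset_ball' (by rw [dist_zero_right]; linarith)), fun z _ => ?_⟩
  exact ((split_summable (fun m => (ha m).2) z).sum_add_tsum_nat_add _).symm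

end

theorem split_of_loc (n : ℕ) (S S₁ S₂ : Set ℂ) (hS : IsClosed S) (hadm : Admissible S S₁ S₂)
    (hloc : ∀ T : Set ℂ, IsClosed T → T ⊆ S → ∀ f : ℂ → ℂ, MemA n T f →
      ∀ (p : ℂ) (r : ℝ), 0 < r → Loc n T f p r)
    (f : ℂ → ℂ) (hf : MemA n S f) :
    ∃ f₁ f₂ : ℂ → ℂ, MemA n S₁ f₁ ∧ MemA n S₂ f₂ ∧ ∀ z ∈ Sᶜ, f z = f₁ z + f₂ z := by
  choose! A B H h1 h2 h3 h4 using split_step hS hadm hloc
  obtain ⟨F, F0, F1⟩ : ∃ F : ℕ → ℂ → ℂ, F 0 = f ∧ ∀ m, F (m + 1) = H m (F m) :=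
    ⟨fun m => Nat.rec f H m, rfl, fun _ => rfl⟩
  have hF : ∀ m : ℕ, MemA n (S \ ball 0 m) (F m) := by
    intro m
    induction m with
    | zero => simpa [F0] using hf
    | succ m ih => rw [F1]; exact h3 m _ ih
  obtain ⟨a, b, ha, hb, he⟩ : ∃ a b : ℕ → ℂ → ℂ,
      (∀ m : ℕ, MemA n (S₁ \ ball 0 m) (a m) ∧ ∀ z ∈ ball (0 : ℂ) (m - 1), ‖a m z‖ ≤ (1 / 2) ^ m) ∧
      (∀ m : ℕ, MemA n (S₂ \ ball 0 m) (b m) ∧ ∀ z ∈ ball (0 : ℂ) (m - 1), ‖b m z‖ ≤ (1 / 2) ^ m) ∧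
      ∀ m : ℕ, ∀ z ∈ (S \ ball 0 m)ᶜ, F m z = a m z + b m z + F (m + 1) z :=
    ⟨_, _, fun m => h1 m _ (hF m), fun m => h2 m _ (hF m), fun m => F1 m ▸ h4 m _ (hF m)⟩
  obtain ⟨E, hE⟩ : ∃ E : ℕ → ℂ → ℂ,
      ∀ M z, E M z = F M z - ∑' k, a (k + M) z - ∑' k, b (k + M) z := ⟨_, fun _ _ => rfl⟩
  have e1 : ∀ (M : ℕ), ∀ z ∈ (S \ ball 0 M)ᶜ, ∀ N, M ≤ N → E N z = E M z := by
    intro M z hz N hN
    induction hN with
    | refl => rfl
    | @step N hN ih =>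
      rw [← ih, hE, hE, he N z fun h => hz ⟨h.1, fun g => h.2
          (ball_subset_ball (Nat.cast_le.2 hN) g)⟩,
        ((summable_nat_add_iff N).2 (split_summable (fun m => (ha m).2) z)).tsum_eq_zero_add,
        ((summable_nat_add_iff N).2 (split_summable (fun m => (hb m).2) z)).tsum_eq_zero_add]
      simp only [zero_add, Nat.succ_eq_add_one, add_assoc, add_comm 1 N]
      ring
  have e2 : Differentiable ℂ fun z => E (⌊‖z‖⌋₊ + 1) z := by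
    intro q
    obtain ⟨M, hM⟩ := exists_nat_gt ‖q‖
    have h5 : DifferentiableOn ℂ (E (M + 1)) (ball 0 M) :=
      ((((hF (M + 1)).1.mono fun z hz g => g.2 (ball_subset_ball (by simp) hz)).sub
        (split_tail ha M)).sub (split_tail hb M)).congr fun z _ => hE _ z
    refine (h5.congr fun z hz => (e1 _ z (fun g => g.2 ?_) _ ?_).symm).differentiableAt
      (isOpen_ball.mem_nhds (mem_ball_zero_iff.2 hM))
    · simpa using Nat.lt_floor_add_one ‖z‖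
    · exact Nat.succ_le_succ (Nat.floor_le_of_le (mem_ball_zero_iff.1 hz).le)
  refine ⟨_, _, (split_sum hadm.1 ha).add hadm.1 (memA_of_entire hadm.1 e2),
    split_sum hadm.2.1 hb, fun z hz => ?_⟩
  rw [e1 0 z (fun g => hz g.1) _ (Nat.zero_le _), hE, F0]
  simp only [add_zero]
  ring

end Pool.Agent.MP_d32a63_an.H82
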