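import Pool.Agent.MP_d32a63_an.H82.CoreThin

open Set Filter Topology MeasureTheory Metric

namespace Pool.Agent.MP_d32a63_an.H82

theorem LogThin.null {T : Set ℂ} (h : LogThin T) : volume T = 0 := by
  have key : ∀ R : ℕ, volume (T ∩ ball (0 : ℂ) R) = 0 := by
    intro R
    have h1 := ENNReal.tendsto_atTop_zero_of_tsum_ne_top (h R)
    refine le_antisymm (ge_of_tendsto' h1 fun k => measure_mono ?_) bot_le
    exact inter_subset_inter_left _ (self_subset_thickening (by positivity) T)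
  have e : T = ⋃ R : ℕ, T ∩ ball (0 : ℂ) R := by
    rw [← inter_iUnion, iUnion_ball_nat, inter_univ]
  rw [e]
  exact measure_iUnion_null key

theorem baire_closure {T : Set ℂ} (h : LogThin T) : LogThin (closure T) := by
  intro R
  simpa only [thickening_closure] using h R

theorem baire_log_le {d C : ℝ} (h0 : 0 ≤ d) (hC : d ≤ C) :
    ‖Real.log d‖ₑ ≤ ENNReal.ofReal C +
      ∑' k : ℕ, (if d < (1 / 2 : ℝ) ^ k then (1 : ENNReal) else 0) := by
  rcases h0.eq_or_lt with rfl | h0
  · simp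
  rcases le_or_gt 1 d with h1 | h1
  · refine le_trans ?_ le_self_add
    rw [Real.enorm_eq_ofReal (Real.log_nonneg h1)]
    exact ENNReal.ofReal_le_ofReal ((Real.log_le_self h0.le).trans hC)
  · refine le_trans ?_ le_add_self
    have hex : ∃ N : ℕ, (1 / 2 : ℝ) ^ N ≤ d := by
      obtain ⟨N, hN⟩ := exists_pow_lt_of_lt_one h0 (by norm_num : (1 / 2 : ℝ) < 1)
      exact ⟨N, hN.le⟩
    classical
    obtain ⟨N, hN, hmin⟩ : ∃ N : ℕ, (1 / 2 : ℝ) ^ N ≤ d ∧ ∀ k < N, d < (1 / 2 : ℝ) ^ k :=
      ⟨Nat.find hex, Nat.find_spec hex, fun k hk => not_le.1 (Nat.find_min hex hk)⟩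
    have h2 : -Real.log d ≤ N := by
      have h3 := Real.log_le_log (by positivity) hN
      rw [Real.log_pow, one_div, Real.log_inv] at h3
      have h4 : Real.log 2 ≤ 1 := by
        have := Real.log_le_sub_one_of_pos (by norm_num : (0 : ℝ) < 2)
        linarith
      have h5 : (N : ℝ) * Real.log 2 ≤ N * 1 := by gcongr
      linarith
    have h6 : ‖Real.log d‖ₑ ≤ (N : ENNReal) := by
      rw [← enorm_neg, Real.enorm_eq_ofReal (by linarith [Real.log_neg h0 h1])]
      exact (ENNReal.ofReal_le_ofReal h2).trans (by simp)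
    refine h6.trans (le_trans ?_ (ENNReal.sum_le_tsum (Finset.range N)))
    rw [Finset.sum_congr rfl fun k hk => if_pos (hmin k (Finset.mem_range.1 hk))]
    simp

theorem LogThin.integrableOn {T : Set ℂ} (h : LogThin T) (hne : T.Nonempty) (p : ℂ) (R : ℝ) :
    IntegrableOn (fun z => Real.log (infDist z T)) (closedBall p R) := by
  obtain ⟨t, ht⟩ := id hne
  refine ⟨(Real.measurable_log.comp (continuous_infDist_pt T).measurable).aestronglyMeasurable, ?_⟩
  have hb : ∀ z ∈ closedBall p R, ‖Real.log (infDist z T)‖ₑ ≤ ENNReal.ofReal (R + dist p t) +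
      ∑' k : ℕ, (thickening ((1 / 2 : ℝ) ^ k) T).indicator (fun _ => (1 : ENNReal)) z := by
    intro z hz
    have h1 : infDist z T ≤ R + dist p t :=
      (infDist_le_dist_of_mem ht).trans ((dist_triangle z p t).trans (by
        have := mem_closedBall.1 hz
        linarith))
    refine (baire_log_le infDist_nonneg h1).trans (le_of_eq ?_)
    congr 1
    refine tsum_congr fun k => ?_
    by_cases hk : infDist z T < (1 / 2 : ℝ) ^ k
    · rw [if_pos hk, indicator_of_mem ((mem_thickening_iff_infDist_lt hne).2 hk)]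
    · rw [if_neg hk, indicator_of_notMem (mt (mem_thickening_iff_infDist_lt hne).1 hk)]
  refine lt_of_le_of_lt (setLIntegral_mono' measurableSet_closedBall hb) ?_
  rw [lintegral_add_left measurable_const, lintegral_const, Measure.restrict_apply_univ,
    lintegral_tsum fun k =>
      (measurable_const.indicator isOpen_thickening.measurableSet).aemeasurable]
  refine ENNReal.add_lt_top.2 ⟨ENNReal.mul_lt_top ENNReal.ofReal_lt_top measure_closedBall_lt_top,
    lt_of_le_of_lt (ENNReal.tsum_le_tsum fun k => ?_) (h (‖p‖ + R + 1)).lt_top⟩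
  rw [lintegral_indicator_const isOpen_thickening.measurableSet, one_mul,
    Measure.restrict_apply isOpen_thickening.measurableSet]
  refine measure_mono (inter_subset_inter_right _ fun z hz => ?_)
  have h1 := mem_closedBall.1 hz
  have h2 := norm_add_le (z - p) p
  rw [sub_add_cancel] at h2
  rw [dist_eq_norm] at h1
  rw [mem_ball_zero_iff]
  linarith

theorem local_sigma (n : ℕ) (S S₁ S₂ : Set ℂ) (hS : IsClosed S) (hadm : Admissible S S₁ S₂)
    (T : ℕ → Set ℂ) (hT : ∀ k, LogThin (T k)) (hcov : S ⊆ ⋃ k, T k)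
    (h₁ : TrivialA n S₁) (h₂ : TrivialA n S₂) : TrivialA n S := by
  intro f hf
  have hdense : Dense Sᶜ := by
    rw [← interior_eq_empty_iff_dense_compl]
    exact Measure.interior_eq_empty_of_null (μ := volume)
      (measure_mono_null hcov (measure_iUnion_null fun k => (hT k).null))
  obtain ⟨F, hF, hFf⟩ := hf.exists_jet hS
  obtain ⟨K, hK⟩ : ∃ K : Set ℂ, K = {q | AnalyticAt ℂ (F 0) q}ᶜ := ⟨_, rfl⟩
  have hKa : ∀ q, q ∈ Kᶜ ↔ AnalyticAt ℂ (F 0) q := by
    intro q; rw [hK, compl_compl]; rfl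
  have hKc : IsClosed K := by
    rw [hK]; exact (isOpen_analyticAt ℂ (F 0)).isClosed_compl
  have hSK : Sᶜ ⊆ Kᶜ := fun q hq =>
    (hKa q).2 (hF.2.1.analyticAt (hS.isOpen_compl.mem_nhds hq))
  have hKS : K ⊆ S := compl_subset_compl.1 hSK
  have han : AnalyticOnNhd ℂ (F 0) Kᶜ := fun q hq => (hKa q).1 hq
  have hJ : Jet n Kᶜ F := by
    refine ⟨hF.1, han.differentiableOn, fun j hj => ?_⟩
    refine (hF.2.2 j hj).of_subset_closure (hF.1 j hj).continuousOn ?_ hSK ?_
    · rw [iteratedDeriv_eq_iterate]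
      exact (han.iterated_deriv j).continuousOn
    · rw [hdense.closure_eq]; exact subset_univ _
  have hM : MemA n K (F 0) :=
    ⟨hJ.2.1, fun j hj => ⟨F j, (hJ.1 j hj).continuousOn, hJ.2.2 j hj⟩⟩
  rcases K.eq_empty_or_nonempty with hK0 | hK0
  · refine ⟨F 0, fun q => ((hKa q).1 (by simp [hK0])).differentiableAt, fun z hz => (hFf z hz).symm⟩
  exfalso
  haveI := hKc.completeSpace_coe
  haveI := hK0.to_subtype
  obtain ⟨k, ⟨p, hpK⟩, hp⟩ := nonempty_interior_of_iUnion_of_closed
    (f := fun k => (Subtype.val : K → ℂ) ⁻¹' closure (T k))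
    (fun k => isClosed_closure.preimage continuous_subtype_val) (by
      refine eq_univ_of_forall fun x => ?_
      obtain ⟨k, hk⟩ := mem_iUnion.1 (hcov (hKS x.2))
      exact mem_iUnion.2 ⟨k, subset_closure hk⟩)
  obtain ⟨ρ, hρ, hball⟩ := Metric.mem_nhds_iff.1 (mem_interior_iff_mem_nhds.1 hp)
  have hKT : ∀ z ∈ K, z ∈ ball p ρ → z ∈ closure (T k) := fun z hz h =>
    hball (show (⟨z, hz⟩ : K) ∈ ball (⟨p, hpK⟩ : K) ρ from h)
  have main : ∀ S' : Set ℂ, IsClosed S' → S' ⊆ S → TrivialA n S' → S' ∈ 𝓝[S] p → False := by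
    intro S' hS' hsub htriv hnb
    obtain ⟨ρ', hρ', hb'⟩ := Metric.mem_nhdsWithin_iff.1 hnb
    obtain ⟨r, hr, hr1, hr2⟩ : ∃ r : ℝ, 0 < r ∧ 5 * r ≤ ρ ∧ 5 * r ≤ ρ' :=
      ⟨min ρ ρ' / 5, by positivity, by linarith [min_le_left ρ ρ'],
        by linarith [min_le_right ρ ρ']⟩
    have hne : (closure (T k)).Nonempty := ⟨p, hKT p hpK (mem_ball_self hρ)⟩
    have hc : Core n Kᶜ (F 0) p r :=
      core_thin n Kᶜ hKc.isOpen_compl F hJ p r hr (closure (T k)) isClosed_closure hne
        (baire_closure (hT k)).null ((baire_closure (hT k)).integrableOn hne p _)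
        fun z hz hzK => hz.2 (hKT z hzK (ball_subset_ball hr1 hz.1))
    obtain ⟨g, u, hg, hu, hgu⟩ := loc_of_core hKc hM (fun _ _ => rfl) hr hc
    have hg' : MemA n S' g := by
      refine MemA.mono hS' (hKc.inter isClosed_closedBall) (fun z hz => hb' ⟨?_, hKS hz.1⟩) hg
      exact closedBall_subset_ball (by linarith) hz.2
    obtain ⟨E, hE, hgE⟩ := htriv g hg'
    have hud : DifferentiableOn ℂ u (ball p (r / 2)) :=
      hu.1.mono fun z hz hz' => hz'.2 hz
    have hd : DifferentiableOn ℂ (fun z => E z + u z) (ball p (r / 2)) :=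
      hE.differentiableOn.add hud
    have heq : EqOn (F 0) (fun z => E z + u z) (ball p (r / 2)) := by
      refine EqOn.of_subset_closure (s := ball p (r / 2) ∩ Sᶜ) (fun z hz => ?_)
        (hF.1 0 (Nat.zero_le n)).continuousOn hd.continuousOn inter_subset_left
        (hdense.open_subset_closure_inter isOpen_ball)
      rw [hgu z (hSK hz.2), hgE fun h => hz.2 (hsub h)]
    have hnb : ball p (r / 2) ∈ 𝓝 p := ball_mem_nhds p (by positivity)
    exact (hKa p).2 ((hd.analyticAt hnb).congr (heq.eventuallyEq_of_mem hnb).symm) hpK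
  obtain ⟨c₁, c₂, e, hnb⟩ := hadm
  rcases hnb p (hKS hpK) with h | h
  · exact main S₁ c₁ (e ▸ subset_union_left) h₁ h
  · exact main S₂ c₂ (e ▸ subset_union_right) h₂ h

end Pool.Agent.MP_d32a63_an.H82
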