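import Mathlib

open Set Filter Topology MeasureTheory Metric Complex

namespace Pool.Agent.MP_d32a63_an.H82

lemma jen_polar (w : ℂ → ℝ) (z₀ : ℂ) (ρ : ℝ)
    (h : ∀ s, 0 < s → s < ρ → 0 ≤ Real.circleAverage w z₀ s) : 0 ≤ ∫ z in ball z₀ ρ, w z := by
  rw [← integral_indicator measurableSet_ball, ← integral_add_left_eq_self _ z₀,
    ← Complex.integral_comp_polarCoord_symm]
  by_cases hi : IntegrableOn (fun p : ℝ × ℝ => p.1 • (ball z₀ ρ).indicator w
      (z₀ + Complex.polarCoord.symm p)) polarCoord.target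
  swap
  · rw [integral_undef hi]
  rw [polarCoord_target, Measure.volume_eq_prod] at hi ⊢
  rw [setIntegral_prod _ hi]
  refine setIntegral_nonneg measurableSet_Ioi fun s hs => ?_
  have hs : 0 < s := hs
  have e : ∀ θ : ℝ, z₀ + Complex.polarCoord.symm (s, θ) = circleMap z₀ s θ := fun θ => by
    simp [circleMap, Complex.exp_mul_I]
  simp only [e]
  rw [integral_smul]
  refine smul_nonneg hs.le ?_
  by_cases hρ : s < ρ
  · have h1 : ∀ θ : ℝ, (ball z₀ ρ).indicator w (circleMap z₀ s θ) = w (circleMap z₀ s θ) :=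
      fun θ => indicator_of_mem (by simpa [mem_ball, dist_eq_norm, abs_of_pos hs] using hρ) _
    have h2 := h s hs hρ
    rw [Real.circleAverage_eq_integral_add (-Real.pi),
      intervalIntegral.integral_comp_add_right (fun θ => w (circleMap z₀ s θ)),
      intervalIntegral.integral_of_le (by linarith [Real.pi_pos]), integral_Ioc_eq_integral_Ioo,
      zero_add, show 2 * Real.pi + -Real.pi = Real.pi by ring, smul_eq_mul] at h2
    simp only [h1]
    exact nonneg_of_mul_nonneg_right h2 (by positivity)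
  · have h1 : ∀ θ : ℝ, (ball z₀ ρ).indicator w (circleMap z₀ s θ) = 0 :=
      fun θ => indicator_of_notMem (by simpa [mem_ball, dist_eq_norm, abs_of_pos hs] using hρ) _
    simp [h1]

lemma jen_vol (z₀ : ℂ) {ρ : ℝ} (hρ : 0 < ρ) : volume.real (ball z₀ ρ) = Real.pi * ρ ^ 2 := by
  simp [Measure.real, Complex.volume_ball, hρ.le, mul_comm]

lemma jen_cont {g : ℂ → ℂ} {z₀ : ℂ} {ρ : ℝ} (hρ : 0 < ρ) (hg : DiffContOnCl ℂ g (ball z₀ ρ)) :
    ContinuousOn g (closedBall z₀ ρ) := closure_ball z₀ hρ.ne' ▸ hg.continuousOn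

lemma jen_int {g : ℂ → ℂ} {z₀ : ℂ} {ρ : ℝ} (hρ : 0 < ρ) (hg : DiffContOnCl ℂ g (ball z₀ ρ)) :
    IntegrableOn (fun z => Real.posLog ‖g z‖) (ball z₀ ρ) :=
  ((Real.continuous_posLog.comp_continuousOn (jen_cont hρ hg).norm).integrableOn_compact
    (isCompact_closedBall _ _)).mono_set ball_subset_closedBall

theorem log_le_avg (g : ℂ → ℂ) (z₀ : ℂ) (ρ : ℝ) (hρ : 0 < ρ)
    (hg : DiffContOnCl ℂ g (ball z₀ ρ)) :
    Real.log ‖g z₀‖ ≤ (∫ z in ball z₀ ρ, Real.posLog ‖g z‖) / (Real.pi * ρ ^ 2) := by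
  by_cases h0 : g z₀ = 0
  · rw [h0, norm_zero, Real.log_zero]
    exact div_nonneg (integral_nonneg fun _ => Real.posLog_nonneg) (by positivity)
  have := jen_polar (fun z => Real.posLog ‖g z‖ - Real.log ‖g z₀‖) z₀ ρ fun s hs hsρ => by
    have ha : AnalyticOnNhd ℂ g (closedBall z₀ |s|) :=
      (hg.differentiableOn.analyticOnNhd isOpen_ball).mono
        (closedBall_subset_ball (by rwa [abs_of_pos hs]))
    have hm : MeromorphicOn g (sphere z₀ |s|) := (ha.mono sphere_subset_closedBall).meromorphicOn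
    have h1 := ha.circleAverage_log_norm hs.ne' h0
    have h2 : 0 ≤ ∑ᶠ u, MeromorphicOn.divisor g (closedBall z₀ |s|) u *
        Real.log (s * ‖z₀ - u‖⁻¹) := by
      refine finsum_nonneg fun u => ?_
      by_cases hu : u ∈ closedBall z₀ |s|
      · refine mul_nonneg (by exact_mod_cast MeromorphicOn.AnalyticOnNhd.divisor_nonneg ha u) ?_
        by_cases h3 : z₀ - u = 0
        · simp [h3]
        · refine Real.log_nonneg ?_
          rw [← div_eq_mul_inv, one_le_div (norm_pos_iff.2 h3)]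
          rwa [mem_closedBall', dist_eq_norm, abs_of_pos hs] at hu
      · simp [Function.locallyFinsuppWithin.apply_eq_zero_of_notMem _ hu]
    have h3 := Real.circleAverage_mono hm.circleIntegrable_log_norm hm.circleIntegrable_posLog_norm
      fun x _ => le_max_right _ _
    have h4 := Real.circleAverage_fun_sub hm.circleIntegrable_posLog_norm
      (circleIntegrable_const (Real.log ‖g z₀‖) z₀ s)
    rw [h4, Real.circleAverage_const]
    linarith
  rw [integral_sub (jen_int hρ hg) (integrableOn_const measure_ball_lt_top.ne), setIntegral_const,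
    jen_vol z₀ hρ, smul_eq_mul] at this
  rw [le_div_iff₀ (by positivity)]
  linarith

theorem weak_point (g : ℂ → ℂ) (z₀ : ℂ) (ρ t : ℝ) (hρ : 0 < ρ) (ht : 0 ≤ t)
    (hg : DiffContOnCl ℂ g (ball z₀ ρ))
    (h : ∀ lam : ℝ, 0 < lam →
      volume {z : ℂ | z ∈ ball z₀ ρ ∧ lam < ‖g z‖} ≤ ENNReal.ofReal (t / lam)) :
    ‖g z₀‖ ≤ 3 * t / ρ ^ 2 := by
  refine le_of_forall_pos_le_add fun ε hε => ?_
  set τ := t / ρ ^ 2 + ε / 3 with hτ
  have hτ0 : 0 < τ := by positivity
  have hg' : DiffContOnCl ℂ (fun z => ((τ⁻¹ : ℝ) : ℂ) • g z) (ball z₀ ρ) :=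
    hg.const_smul ((τ⁻¹ : ℝ) : ℂ)
  have hn : ∀ z, ‖((τ⁻¹ : ℝ) : ℂ) • g z‖ = τ⁻¹ * ‖g z‖ := fun z => by
    rw [norm_smul, Complex.norm_real, Real.norm_eq_abs, abs_of_pos (inv_pos.2 hτ0)]
  have h1 := log_le_avg _ z₀ ρ hρ hg'
  have h2 := jen_int hρ hg'
  have h3 : ∫ z in ball z₀ ρ, Real.posLog ‖((τ⁻¹ : ℝ) : ℂ) • g z‖ ≤ ρ ^ 2 := by
    rw [← ENNReal.ofReal_le_ofReal_iff (by positivity),
      ofReal_integral_eq_lintegral_ofReal h2 (Eventually.of_forall fun _ => Real.posLog_nonneg),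
      lintegral_eq_lintegral_meas_lt _ (Eventually.of_forall fun _ => Real.posLog_nonneg)
        h2.aemeasurable]
    have h4 : ENNReal.ofReal (ρ ^ 2) =
        ∫⁻ s in Ioi (0 : ℝ), ENNReal.ofReal (ρ ^ 2 * Real.exp (-s)) := by
      rw [← ofReal_integral_eq_lintegral_ofReal ((integrableOn_exp_neg_Ioi 0).const_mul _)
        (Eventually.of_forall fun _ => by positivity), integral_const_mul,
        integral_exp_neg_Ioi_zero, mul_one]
    rw [h4]
    refine setLIntegral_mono' measurableSet_Ioi fun s hs => ?_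
    rw [Measure.restrict_apply' measurableSet_ball]
    refine (measure_mono ?_).trans ((h (τ * Real.exp s) (by positivity)).trans
      (ENNReal.ofReal_le_ofReal ?_))
    · rintro z ⟨h5, h6⟩
      refine ⟨h6, ?_⟩
      have h7 : s < Real.log (τ⁻¹ * ‖g z‖) := by
        have h5 : s < max 0 (Real.log ‖((τ⁻¹ : ℝ) : ℂ) • g z‖) := h5
        rw [hn] at h5
        exact (lt_max_iff.1 h5).resolve_left (not_lt.2 (le_of_lt hs))
      have h8 : 0 < τ⁻¹ * ‖g z‖ := by
        refine lt_of_le_of_ne (by positivity) fun h9 => ?_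
        rw [← h9, Real.log_zero] at h7
        exact absurd hs (not_lt.2 h7.le)
      rw [Real.lt_log_iff_exp_lt h8, lt_inv_mul_iff₀ hτ0] at h7
      exact h7
    · rw [Real.exp_neg, ← div_div, div_eq_mul_inv]
      gcongr
      rw [div_le_iff₀ hτ0, hτ, mul_add, mul_div_cancel₀ _ (by positivity)]
      have : 0 < ρ ^ 2 * (ε / 3) := by positivity
      linarith
  have h5 : Real.log (τ⁻¹ * ‖g z₀‖) ≤ 1 := by
    rw [← hn]
    refine h1.trans ((div_le_one (by positivity)).2 (h3.trans ?_))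
    nlinarith [Real.pi_gt_three, sq_nonneg ρ]
  have h6 := (Real.le_exp_log _).trans (Real.exp_le_exp.2 h5)
  rw [inv_mul_le_iff₀ hτ0] at h6
  have h7 : 3 * t / ρ ^ 2 + ε = τ * 3 := by rw [hτ]; ring
  rw [h7]
  exact h6.trans (by gcongr; linarith [Real.exp_one_lt_d9])

theorem weighted_point (g : ℂ → ℂ) (z₀ : ℂ) (ρ : ℝ) (w : ℂ → ℝ) (hρ : 0 < ρ)
    (hg : DiffContOnCl ℂ g (ball z₀ ρ)) (hw : IntegrableOn w (ball z₀ ρ))
    (hpos : ∀ᵐ z ∂(volume.restrict (ball z₀ ρ)), 0 < w z)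
    (hlog : IntegrableOn (fun z => Real.log (w z)) (ball z₀ ρ)) :
    ‖g z₀‖ ≤ Real.exp ((∫ z in ball z₀ ρ, |Real.log (w z)|) / (Real.pi * ρ ^ 2)) *
      ((∫ z in ball z₀ ρ, ‖g z‖ * w z) / (Real.pi * ρ ^ 2)) := by
  set V := Real.pi * ρ ^ 2 with hV
  have hV0 : 0 < V := by positivity
  set E := (∫ z in ball z₀ ρ, |Real.log (w z)|) / V with hE
  set a := (∫ z in ball z₀ ρ, ‖g z‖ * w z) / V with ha
  set b := (∫ z in ball z₀ ρ, w z) / V with hb
  have ha0 : 0 ≤ a := div_nonneg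
    (integral_nonneg_of_ae (hpos.mono fun z hz => mul_nonneg (norm_nonneg _) hz.le)) hV0.le
  have hb0 : 0 ≤ b := div_nonneg (integral_nonneg_of_ae (hpos.mono fun z hz => hz.le)) hV0.le
  have hgw : IntegrableOn (fun z => ‖g z‖ * w z) (ball z₀ ρ) :=
    hw.continuousOn_mul_of_subset (jen_cont hρ hg).norm (isCompact_closedBall _ _)
      measurableSet_ball ball_subset_closedBall
  refine le_of_forall_pos_le_add fun ε hε => ?_
  set Λ := Real.exp E * (b + 1) / ε with hΛ
  have hΛ0 : 0 < Λ := by positivity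
  set A := Λ * a + b + 1 with hA
  have hA0 : 0 < A := by positivity
  have hg' : DiffContOnCl ℂ (fun z => (Λ : ℂ) • g z) (ball z₀ ρ) := hg.const_smul (Λ : ℂ)
  have hn : ∀ z, ‖(Λ : ℂ) • g z‖ = Λ * ‖g z‖ := fun z => by
    rw [norm_smul, Complex.norm_real, Real.norm_eq_abs, abs_of_pos hΛ0]
  have h1 := log_le_avg _ z₀ ρ hρ hg'
  have i1 : IntegrableOn (fun z => (Λ * (‖g z‖ * w z) + w z) / A) (ball z₀ ρ) :=
    ((hgw.const_mul Λ).add hw).div_const A
  have i2 : IntegrableOn (fun _ : ℂ => Real.log A - 1) (ball z₀ ρ) :=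
    integrableOn_const measure_ball_lt_top.ne
  have h2 : ∫ z in ball z₀ ρ, Real.posLog ‖(Λ : ℂ) • g z‖ ≤ ∫ z in ball z₀ ρ,
      ((Λ * (‖g z‖ * w z) + w z) / A + (Real.log A - 1) + |Real.log (w z)|) := by
    refine integral_mono_ae (jen_int hρ hg') ((i1.add i2).add hlog.abs) (hpos.mono fun z hz => ?_)
    have h3 : 0 ≤ Λ * ‖g z‖ := by positivity
    have h4 : 0 < max 1 (Λ * ‖g z‖) := lt_max_of_lt_left one_pos
    have h5 := Real.log_le_sub_one_of_pos (div_pos (mul_pos h4 hz) hA0)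
    rw [Real.log_div (mul_pos h4 hz).ne' hA0.ne', Real.log_mul h4.ne' hz.ne'] at h5
    have h6 : max 1 (Λ * ‖g z‖) * w z / A ≤ (Λ * (‖g z‖ * w z) + w z) / A := by
      gcongr
      have : max 1 (Λ * ‖g z‖) ≤ Λ * ‖g z‖ + 1 := max_le (by linarith) (by linarith)
      nlinarith
    simp only
    rw [hn, Real.posLog_eq_log_max_one h3]
    linarith [neg_le_abs (Real.log (w z))]
  have i3 : IntegrableOn (fun z => (Λ * (‖g z‖ * w z) + w z) / A + (Real.log A - 1))
      (ball z₀ ρ) := i1.add i2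
  rw [integral_add i3 hlog.abs, integral_add i1 i2, integral_div,
    integral_add (hgw.const_mul Λ) hw, integral_const_mul, setIntegral_const, jen_vol z₀ hρ,
    smul_eq_mul, ← hV] at h2
  have h3 : Real.log (Λ * ‖g z₀‖) ≤ Real.log A + E := by
    rw [← hn]
    refine h1.trans ((div_le_div_of_nonneg_right h2 hV0.le).trans ?_)
    have e : ((Λ * ∫ z in ball z₀ ρ, ‖g z‖ * w z) + ∫ z in ball z₀ ρ, w z) / A / V =
        (Λ * a + b) / A := by rw [ha, hb]; field_simp
    rw [add_div, add_div, e, mul_div_cancel_left₀ _ hV0.ne']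
    have : (Λ * a + b) / A ≤ 1 := (div_le_one hA0).2 (by linarith)
    linarith
  have h4 := (Real.le_exp_log _).trans (Real.exp_le_exp.2 h3)
  rw [Real.exp_add, Real.exp_log hA0] at h4
  refine le_of_mul_le_mul_left (h4.trans (le_of_eq ?_)) hΛ0
  have e : Λ * ε = Real.exp E * (b + 1) := by rw [hΛ]; field_simp
  rw [hA]
  linear_combination -e

end Pool.Agent.MP_d32a63_an.H82
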