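import Pool.Agent.MP_d32a63_an.H82.HB

open Set Filter Topology MeasureTheory Metric Complex

namespace Pool.Agent.MP_d32a63_an.H82

theorem kernel_inv_integrableOn (η : ℝ) :
    IntegrableOn (fun w : ℂ => ‖w‖⁻¹) (ball 0 η) := by
  refine integrableOn_ball_of_norm_le_rpow (C := 1) (α := 1) ?_ ?_ ?_ ?_
  · simp
  · simp
  · refine Eventually.of_forall fun w => ?_
    simp [Real.rpow_neg_one]
  · exact (measurable_norm.inv).aestronglyMeasurable

/-- The truncated kernel. -/
noncomputable def kernelPhi (η : ℝ) : ℂ → ℝ := indicator (ball 0 η) (fun w : ℂ => ‖w‖⁻¹)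

theorem kernelPhi_nonneg (η : ℝ) (w : ℂ) : 0 ≤ kernelPhi η w :=
  indicator_nonneg (fun _ _ => inv_nonneg.2 (norm_nonneg _)) w

theorem kernelPhi_integrable (η : ℝ) : Integrable (kernelPhi η) :=
  (integrable_indicator_iff measurableSet_ball).2 (kernel_inv_integrableOn η)

theorem kernelPhi_of_lt {η : ℝ} {w : ℂ} (h : ‖w‖ < η) : kernelPhi η w = ‖w‖⁻¹ := by
  unfold kernelPhi
  rw [indicator_of_mem]
  simpa using h

theorem kernelPhi_small (ε : ℝ) (hε : 0 < ε) : ∃ η > 0, ∫ w, kernelPhi η w ≤ ε := by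
  have h1 : Tendsto (fun η : ℝ => ∫ w in ball (0 : ℂ) η, kernelPhi 1 w) (𝓝[>] 0) (𝓝 0) := by
    refine (kernelPhi_integrable 1).tendsto_setIntegral_nhds_zero ?_
    have h2 : Tendsto (fun η : ℝ => ENNReal.ofReal η ^ 2 * (NNReal.pi : ENNReal)) (𝓝 0)
        (𝓝 (ENNReal.ofReal 0 ^ 2 * (NNReal.pi : ENNReal))) := by
      refine ENNReal.Tendsto.mul_const ?_ (Or.inr ENNReal.coe_ne_top)
      exact ENNReal.Tendsto.pow (ENNReal.continuous_ofReal.tendsto 0)
    have h3 : (volume ∘ fun η : ℝ => ball (0 : ℂ) η)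
        = fun η : ℝ => ENNReal.ofReal η ^ 2 * (NNReal.pi : ENNReal) := by
      funext η
      simp [Complex.volume_ball]
    rw [h3]
    simpa using h2.mono_left nhdsWithin_le_nhds
  have h4 := (h1.eventually (gt_mem_nhds hε)).and
    (Ioo_mem_nhdsGT (show (0 : ℝ) < 1 by norm_num))
  obtain ⟨η, hη, hη0, hη1⟩ := h4.exists
  refine ⟨η, hη0, ?_⟩
  have h5 : ∫ w, kernelPhi η w = ∫ w in ball (0 : ℂ) η, kernelPhi 1 w := by
    unfold kernelPhi
    rw [integral_indicator measurableSet_ball]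
    refine setIntegral_congr_fun measurableSet_ball fun w hw => ?_
    rw [indicator_of_mem]
    exact ball_subset_ball hη1.le hw
  rw [h5]
  exact hη.le

theorem kernel_ae_ne (A : Set ℂ) (ζ : ℂ) : ∀ᵐ z ∂(volume.restrict A), z ≠ ζ := by
  refine ae_restrict_of_ae ?_
  rw [ae_iff]
  simp

/-- Kernels with a singularity of order one depend uniformly continuously on the pole in `L¹`. -/
theorem l1_unif (A Q : Set ℂ) (hA : MeasurableSet A) (hAb : Bornology.IsBounded A)
    (hQ : IsCompact Q) (k : ℂ → ℂ → ℂ) (C : ℝ)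
    (hk : ∀ ζ ∈ Q, ∀ z ∈ A, z ≠ ζ → ‖k ζ z‖ ≤ C * ‖ζ - z‖⁻¹)
    (hc : ContinuousOn (fun x : ℂ × ℂ => k x.1 x.2) {x | x.1 ≠ x.2}) :
    (∀ ζ ∈ Q, IntegrableOn (k ζ) A) ∧ ∀ ε > 0, ∃ δ > 0, ∀ ζ ∈ Q, ∀ ζ' ∈ Q, dist ζ ζ' ≤ δ →
      ∫ z in A, ‖k ζ z - k ζ' z‖ ≤ ε := by
  have hk' : ∀ ζ ∈ Q, ∀ z ∈ A, z ≠ ζ → ‖k ζ z‖ ≤ |C| * ‖ζ - z‖⁻¹ := fun ζ hζ z hz hne =>
    (hk ζ hζ z hz hne).trans (by gcongr; exact le_abs_self C)
  have hmeas : ∀ ζ, AEStronglyMeasurable (k ζ) (volume.restrict A) := by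
    intro ζ
    have h1 : ContinuousOn (k ζ) {ζ}ᶜ := by
      have h2 : ContinuousOn (fun z : ℂ => ((ζ, z) : ℂ × ℂ)) {ζ}ᶜ := by fun_prop
      exact hc.comp h2 fun z hz => fun h => hz (by simpa using h.symm)
    have h3 : AEStronglyMeasurable (k ζ) (volume.restrict {ζ}ᶜ) :=
      h1.aestronglyMeasurable (measurableSet_singleton ζ).compl
    have h4 : (volume : Measure ℂ).restrict {ζ}ᶜ = volume := by
      rw [Measure.restrict_eq_self_of_ae_mem]
      rw [ae_iff]
      simp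
    rw [h4] at h3
    exact h3.restrict
  have hint : ∀ ζ ∈ Q, IntegrableOn (k ζ) A := by
    intro ζ hζ
    obtain ⟨R, hR⟩ := (hAb.subset_ball ζ)
    have h1 : Integrable (fun z => |C| * kernelPhi R (ζ - z)) :=
      ((kernelPhi_integrable R).comp_sub_left ζ).const_mul _
    refine Integrable.mono' h1.restrict (hmeas ζ) ?_
    filter_upwards [kernel_ae_ne A ζ, ae_restrict_mem hA] with z hne hz
    rw [kernelPhi_of_lt]
    · exact hk' ζ hζ z hz hne
    · have := hR hz
      rw [mem_ball, dist_eq_norm, norm_sub_rev] at this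
      exact this
  refine ⟨hint, fun ε hε => ?_⟩
  obtain ⟨η3, hη3, hsmall⟩ := kernelPhi_small (ε / (4 * (|C| + 1))) (by positivity)
  set η := η3 / 3 with hηdef
  have hη : 0 < η := by positivity
  have hvol : volume A ≠ ⊤ := hAb.measure_lt_top.ne
  set V := (volume A).toReal with hV
  have hV0 : 0 ≤ V := ENNReal.toReal_nonneg
  set K : Set (ℂ × ℂ) := (Q ×ˢ closure A) ∩ {x | η ≤ dist x.1 x.2} with hK
  have hKc : IsCompact K := by
    refine (hQ.prod hAb.isCompact_closure).inter_right ?_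
    exact isClosed_le continuous_const (continuous_fst.dist continuous_snd)
  have hKs : K ⊆ {x | x.1 ≠ x.2} := by
    intro x hx h
    have h2 : η ≤ dist x.1 x.2 := hx.2
    rw [h, dist_self] at h2
    exact absurd h2 (not_le.2 hη)
  have hu := hKc.uniformContinuousOn_of_continuous (hc.mono hKs)
  rw [Metric.uniformContinuousOn_iff_le] at hu
  obtain ⟨δ', hδ', hδ⟩ := hu (ε / (2 * (V + 1))) (by positivity)
  refine ⟨min δ' η, lt_min hδ' hη, fun ζ hζ ζ' hζ' hd => ?_⟩
  have hd1 : dist ζ ζ' ≤ δ' := hd.trans (min_le_left _ _)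
  have hd2 : dist ζ ζ' ≤ η := hd.trans (min_le_right _ _)
  have hi1 : Integrable (fun z => kernelPhi η3 (ζ - z)) :=
    (kernelPhi_integrable η3).comp_sub_left ζ
  have hi2 : Integrable (fun z => kernelPhi η3 (ζ' - z)) :=
    (kernelPhi_integrable η3).comp_sub_left ζ'
  have hfin : IsFiniteMeasure (volume.restrict A) := isFiniteMeasure_restrict.2 hvol
  have hb : ∀ᵐ z ∂(volume.restrict A), ‖k ζ z - k ζ' z‖ ≤
      ε / (2 * (V + 1)) + |C| * (kernelPhi η3 (ζ - z) + kernelPhi η3 (ζ' - z)) := by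
    filter_upwards [kernel_ae_ne A ζ, kernel_ae_ne A ζ', ae_restrict_mem hA] with z hne hne' hz
    have p1 := kernelPhi_nonneg η3 (ζ - z)
    have p2 := kernelPhi_nonneg η3 (ζ' - z)
    by_cases hz2 : dist ζ z < 2 * η
    · have e1 : ‖ζ - z‖ < η3 := by
        rw [← dist_eq_norm]
        linarith
      have e2 : ‖ζ' - z‖ < η3 := by
        rw [← dist_eq_norm]
        have := dist_triangle ζ' ζ z
        rw [dist_comm ζ' ζ] at this
        linarith
      rw [kernelPhi_of_lt e1, kernelPhi_of_lt e2]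
      have a1 := hk' ζ hζ z hz hne
      have a2 := hk' ζ' hζ' z hz hne'
      have a3 := norm_sub_le (k ζ z) (k ζ' z)
      have a4 : 0 ≤ ε / (2 * (V + 1)) := by positivity
      nlinarith
    · have hz3 : 2 * η ≤ dist ζ z := not_lt.1 hz2
      have m1 : (ζ, z) ∈ K := ⟨⟨hζ, subset_closure hz⟩, by
        show η ≤ dist ζ z
        linarith⟩
      have m2 : (ζ', z) ∈ K := ⟨⟨hζ', subset_closure hz⟩, by
        show η ≤ dist ζ' z
        have := dist_triangle ζ ζ' z
        linarith⟩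
      have a1 := hδ _ m1 _ m2 (by
        rw [Prod.dist_eq]
        simp [hd1, hδ'.le])
      rw [dist_eq_norm] at a1
      have a2 : 0 ≤ |C| * (kernelPhi η3 (ζ - z) + kernelPhi η3 (ζ' - z)) := by positivity
      simp only at a1
      linarith
  have hi4 : Integrable (fun z =>
      |C| * (kernelPhi η3 (ζ - z) + kernelPhi η3 (ζ' - z))) (volume.restrict A) :=
    (hi1.restrict.add hi2.restrict).const_mul _
  have hi3 : Integrable (fun z => ε / (2 * (V + 1)) +
      |C| * (kernelPhi η3 (ζ - z) + kernelPhi η3 (ζ' - z))) (volume.restrict A) :=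
    (integrable_const _).add hi4
  have h1 := integral_mono_of_nonneg (Eventually.of_forall fun z => norm_nonneg _) hi3 hb
  refine h1.trans ?_
  rw [integral_add (integrable_const _) hi4,
    integral_const_mul, integral_add hi1.restrict hi2.restrict, integral_const]
  have b1 : ∫ z in A, kernelPhi η3 (ζ - z) ≤ ε / (4 * (|C| + 1)) := by
    refine (setIntegral_le_integral hi1
      (Eventually.of_forall fun z => kernelPhi_nonneg _ _)).trans ?_
    rw [integral_sub_left_eq_self]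
    exact hsmall
  have b2 : ∫ z in A, kernelPhi η3 (ζ' - z) ≤ ε / (4 * (|C| + 1)) := by
    refine (setIntegral_le_integral hi2
      (Eventually.of_forall fun z => kernelPhi_nonneg _ _)).trans ?_
    rw [integral_sub_left_eq_self]
    exact hsmall
  have b3 : (volume.restrict A).real univ = V := by
    simp [Measure.real, hV]
  rw [b3, smul_eq_mul]
  have c1 : V * (ε / (2 * (V + 1))) ≤ ε / 2 := by
    rw [mul_div_assoc', div_le_div_iff₀ (by positivity) (by positivity)]
    nlinarith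
  have c2 : |C| * (ε / (4 * (|C| + 1)) + ε / (4 * (|C| + 1))) ≤ ε / 2 := by
    have hC := abs_nonneg C
    rw [← add_div, mul_div_assoc', div_le_div_iff₀ (by positivity) (by positivity)]
    nlinarith
  have c3 : |C| * ((∫ z in A, kernelPhi η3 (ζ - z)) + ∫ z in A, kernelPhi η3 (ζ' - z))
      ≤ |C| * (ε / (4 * (|C| + 1)) + ε / (4 * (|C| + 1))) := by
    gcongr
  linarith

open Classical in
/-- The sum of the inner residues is bounded by the size on the middle circle. -/
theorem period {ι : Type} (p : ℂ) (r : ℝ) (hr : 0 < r) (s : Finset ι) (c ζ : ι → ℂ)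
    (h : ∀ i ∈ s, ζ i ∈ ball p r ∨ ζ i ∉ closedBall p (3 * r)) (B : ℝ)
    (hB : ∀ z ∈ sphere p (2 * r), ‖∑ i ∈ s, c i * (ζ i - z)⁻¹‖ ≤ B) :
    ‖∑ i ∈ s, c i * (if ζ i ∈ ball p r then 1 else 0)‖ ≤ 2 * r * B := by
  have hr2 : (0 : ℝ) ≤ 2 * r := by positivity
  have h1 := circleIntegral.norm_integral_le_of_norm_le_const hr2 hB
  have hne : ∀ i ∈ s, ∀ z ∈ sphere p (2 * r), ζ i - z ≠ 0 := by
    intro i hi z hz h0
    have e : ζ i = z := sub_eq_zero.1 h0
    rw [mem_sphere] at hz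
    rcases h i hi with h2 | h2
    · rw [mem_ball, e, hz] at h2
      linarith
    · rw [mem_closedBall, e, hz] at h2
      exact h2 (by linarith)
  have hci : ∀ i ∈ s, CircleIntegrable (fun z => c i * (ζ i - z)⁻¹) p (2 * r) := by
    intro i hi
    refine ContinuousOn.circleIntegrable hr2 ?_
    exact continuousOn_const.mul ((continuousOn_const.sub continuousOn_id).inv₀ (hne i hi))
  rw [circleIntegral.integral_fun_sum hci] at h1
  have h2 : ∀ i ∈ s, (∮ z in C(p, 2 * r), c i * (ζ i - z)⁻¹) =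
      -(2 * Real.pi * I) * (c i * (if ζ i ∈ ball p r then 1 else 0)) := by
    intro i hi
    rw [circleIntegral.integral_const_mul]
    split_ifs with hin
    · have e : (fun z => (ζ i - z)⁻¹) = fun z => (-1) * (z - ζ i)⁻¹ := by
        funext z
        rw [← neg_sub z (ζ i), inv_neg]
        ring
      rw [e, circleIntegral.integral_const_mul,
        circleIntegral.integral_sub_inv_of_mem_ball (ball_subset_ball (by linarith) hin)]
      ring
    · have hout : ζ i ∉ closedBall p (3 * r) := (h i hi).resolve_left hin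
      have hd : DiffContOnCl ℂ (fun z => (ζ i - z)⁻¹) (ball p (2 * r)) := by
        refine DifferentiableOn.diffContOnCl ?_
        refine ((differentiableOn_const _).sub differentiableOn_id).inv ?_
        intro z hz h0
        have e : ζ i = z := sub_eq_zero.1 h0
        have hz' : z ∈ closedBall p (2 * r) := closure_ball_subset_closedBall hz
        exact hout (e ▸ closedBall_subset_closedBall (by linarith) hz')
      rw [hd.circleIntegral_eq_zero hr2]
      simp
  rw [Finset.sum_congr rfl h2, ← Finset.mul_sum, norm_mul] at h1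
  have h3 : ‖-(2 * (Real.pi : ℂ) * I)‖ = 2 * Real.pi := by
    simp [abs_of_pos Real.pi_pos]
  rw [h3] at h1
  have hpi := Real.pi_pos
  have h4 : 2 * Real.pi * ‖∑ i ∈ s, c i * (if ζ i ∈ ball p r then (1 : ℂ) else 0)‖
      ≤ 2 * Real.pi * (2 * r * B) := by linarith
  exact le_of_mul_le_mul_left h4 (by positivity)

/-- Such a sum of poles is holomorphic on the discs centred on the middle circle. -/
theorem poles_diffContOnCl {ι : Type} (p : ℂ) (r : ℝ) (hr : 0 < r) (s : Finset ι) (c ζ : ι → ℂ)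
    (h : ∀ i ∈ s, ζ i ∈ ball p r ∨ ζ i ∉ closedBall p (3 * r)) (z₀ : ℂ)
    (hz₀ : z₀ ∈ sphere p (2 * r)) :
    ball z₀ r ⊆ closedBall p (3 * r) \ ball p r ∧
      DiffContOnCl ℂ (fun z => ∑ i ∈ s, c i * (ζ i - z)⁻¹) (ball z₀ r) := by
  have hsub : closedBall z₀ r ⊆ closedBall p (3 * r) \ ball p r := by
    intro z hz
    rw [mem_sphere] at hz₀
    rw [mem_closedBall] at hz
    constructor
    · rw [mem_closedBall]
      have := dist_triangle z z₀ p
      linarith
    · rw [mem_ball, not_lt]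
      have := dist_triangle z₀ z p
      rw [dist_comm z₀ z] at this
      linarith
  refine ⟨ball_subset_closedBall.trans hsub, DifferentiableOn.diffContOnCl ?_⟩
  refine DifferentiableOn.fun_sum fun i hi => ?_
  refine (differentiableOn_const _).mul
    (((differentiableOn_const _).sub differentiableOn_id).inv ?_)
  intro z hz h0
  have e : ζ i = z := sub_eq_zero.1 h0
  have hz' := hsub (closure_ball_subset_closedBall hz)
  rcases h i hi with h2 | h2
  · exact hz'.2 (e ▸ h2)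
  · exact h2 (e ▸ hz'.1)

theorem kernel_gap (p : ℂ) (r : ℝ) (ζ : ℂ)
    (h : ζ ∈ ball p r ∨ ζ ∉ closedBall p (3 * r)) :
    ∃ η > 0, ∀ z ∈ closedBall p (3 * r) \ ball p r, 2 * η ≤ ‖ζ - z‖ := by
  rcases h with h | h
  · rw [mem_ball] at h
    refine ⟨(r - dist ζ p) / 2, by linarith, fun z hz => ?_⟩
    have h2 := hz.2
    rw [mem_ball, not_lt] at h2
    have := dist_triangle z ζ p
    rw [dist_comm z ζ, dist_eq_norm ζ z] at this
    linarith
  · rw [mem_closedBall, not_le] at h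
    refine ⟨(dist ζ p - 3 * r) / 2, by linarith, fun z hz => ?_⟩
    have h2 := hz.1
    rw [mem_closedBall] at h2
    have := dist_triangle ζ z p
    rw [dist_eq_norm ζ z] at this
    linarith

theorem kernel_mul_integrable (p : ℂ) (r : ℝ) (μ : Measure ℂ) [IsFiniteMeasure μ]
    (hμ : ∀ᵐ z ∂μ, z ∈ closedBall p (3 * r) \ ball p r) (ζ : ℂ)
    (h : ζ ∈ ball p r ∨ ζ ∉ closedBall p (3 * r)) (F : ℂ → ℂ) (hF : Continuous F) :
    Integrable (fun z => F z * (ζ - z)⁻¹) μ := by
  obtain ⟨η, hη, hgap⟩ := kernel_gap p r ζ h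
  obtain ⟨B, hB⟩ := (isCompact_closedBall p (3 * r)).exists_bound_of_continuousOn
    hF.continuousOn
  refine Integrable.mono' (integrable_const (|B| * (2 * η)⁻¹)) ?_ ?_
  · exact (hF.measurable.mul (measurable_const.sub measurable_id).inv).aestronglyMeasurable
  · filter_upwards [hμ] with z hz
    rw [norm_mul, norm_inv]
    have h1 := (hB z hz.1).trans (le_abs_self B)
    have h2 := hgap z hz
    gcongr

theorem pole_integrable (p : ℂ) (r : ℝ) (hr : 0 < r) (μ : Measure ℂ) [IsFiniteMeasure μ]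
    (hμ : ∀ᵐ z ∂μ, z ∈ closedBall p (3 * r) \ ball p r) (ζ : ℂ)
    (h : ζ ∈ ball p r ∨ ζ ∉ closedBall p (3 * r)) :
    Integrable (fun z => (ζ - z)⁻¹) μ := by
  simpa using kernel_mul_integrable p r μ hμ ζ h (fun _ => 1) continuous_const

theorem kernel_diffAt (p : ℂ) (r : ℝ) (μ : Measure ℂ) [IsFiniteMeasure μ]
    (hμ : ∀ᵐ z ∂μ, z ∈ closedBall p (3 * r) \ ball p r) (L : (ℂ → ℂ) →ₗ[ℂ] ℂ) (M : ℝ)
    (hL : ∀ g, Integrable g μ → ‖L g‖ ≤ M * ∫ z, ‖g z‖ ∂μ) (F : ℂ → ℂ) (hF : Continuous F)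
    (ζ₀ : ℂ) (h : ζ₀ ∈ ball p r ∨ ζ₀ ∉ closedBall p (3 * r)) :
    DifferentiableAt ℂ (fun ζ => L (fun z => F z * (ζ - z)⁻¹)) ζ₀ := by
  obtain ⟨η, hη, hgap⟩ := kernel_gap p r ζ₀ h
  obtain ⟨B, hB⟩ := (isCompact_closedBall p (3 * r)).exists_bound_of_continuousOn
    hF.continuousOn
  have key := holo_family μ L M hL (fun ζ z => F z * (ζ - z)⁻¹)
    (fun z => F z * (-((ζ₀ - z) ^ 2)⁻¹)) ζ₀ η hη (fun _ => |B| * η⁻¹) (integrable_const _)
    (fun ζ _ =>
      (hF.measurable.mul (measurable_const.sub measurable_id).inv).aestronglyMeasurable)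
    ((hF.measurable.mul
      ((measurable_const.sub measurable_id).pow_const 2).inv.neg).aestronglyMeasurable) ?_
  · exact key.2.differentiableAt
  filter_upwards [hμ] with z hz
  have h2 := hgap z hz
  have hfar : ∀ ζ ∈ ball ζ₀ η, η ≤ ‖ζ - z‖ := by
    intro ζ hζ
    rw [mem_ball, dist_eq_norm] at hζ
    have h3 : ‖ζ₀ - z‖ ≤ ‖ζ - z‖ + ‖ζ - ζ₀‖ := by
      have := norm_sub_le (ζ - z) (ζ - ζ₀)
      rwa [show ζ - z - (ζ - ζ₀) = ζ₀ - z by ring] at this
    linarith
  have hne : ∀ ζ ∈ ball ζ₀ η, ζ - z ≠ 0 := by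
    intro ζ hζ h0
    have := hfar ζ hζ
    rw [h0, norm_zero] at this
    linarith
  refine ⟨?_, ?_, ?_⟩
  · exact (differentiableOn_const _).mul
      ((differentiableOn_id.sub (differentiableOn_const _)).inv hne)
  · intro ζ hζ
    rw [norm_mul, norm_inv]
    have h1 := (hB z hz.1).trans (le_abs_self B)
    have h3 := hfar ζ hζ
    gcongr
  · have h4 : HasDerivAt (fun ζ : ℂ => ζ - z) 1 ζ₀ := (hasDerivAt_id ζ₀).sub_const z
    have h5 := (h4.inv (hne ζ₀ (mem_ball_self hη))).const_mul (F z)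
    have h6 : (fun ζ => F z * (ζ - z)⁻¹) = fun y => F z * (fun ζ : ℂ => ζ - z)⁻¹ y := by
      funext y
      simp
    rw [h6, h5.deriv]
    ring

/-- The localised function is holomorphic outside, its complement is holomorphic inside. -/
theorem outer_inner (p : ℂ) (r : ℝ) (hr : 0 < r) (μ : Measure ℂ) [IsFiniteMeasure μ]
    (hμ : ∀ᵐ z ∂μ, z ∈ closedBall p (3 * r) \ ball p r) (L : (ℂ → ℂ) →ₗ[ℂ] ℂ) (M : ℝ)
    (hL : ∀ g, Integrable g μ → ‖L g‖ ≤ M * ∫ z, ‖g z‖ ∂μ)
    (hin : ∀ ζ ∈ ball p r, L (fun z => (ζ - z)⁻¹) = 1)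
    (hout : ∀ ζ ∉ closedBall p (3 * r), L (fun z => (ζ - z)⁻¹) = 0)
    (F : ℂ → ℂ) (hF : Continuous F) :
    DifferentiableOn ℂ (fun ζ => L (fun z => (F ζ - F z) / (ζ - z))) (closedBall p (3 * r))ᶜ ∧
      DifferentiableOn ℂ (fun ζ => F ζ - L (fun z => (F ζ - F z) / (ζ - z))) (ball p r) := by
  have hlin : ∀ ζ, L (fun z => (F ζ - F z) / (ζ - z)) =
      F ζ * L (fun z => (ζ - z)⁻¹) - L (fun z => F z * (ζ - z)⁻¹) := by
    intro ζ
    have e : (fun z => (F ζ - F z) / (ζ - z)) =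
        F ζ • (fun z => (ζ - z)⁻¹) - (fun z => F z * (ζ - z)⁻¹) := by
      funext z
      simp only [Pi.sub_apply, Pi.smul_apply, smul_eq_mul]
      ring
    rw [e, map_sub, map_smul, smul_eq_mul]
  constructor
  · have h1 : DifferentiableOn ℂ (fun ζ => -L (fun z => F z * (ζ - z)⁻¹))
        (closedBall p (3 * r))ᶜ := fun ζ hζ =>
      (kernel_diffAt p r μ hμ L M hL F hF ζ (Or.inr hζ)).neg.differentiableWithinAt
    refine h1.congr fun ζ hζ => ?_
    rw [hlin, hout ζ hζ]
    ring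
  · have h1 : DifferentiableOn ℂ (fun ζ => L (fun z => F z * (ζ - z)⁻¹)) (ball p r) :=
      fun ζ hζ => (kernel_diffAt p r μ hμ L M hL F hF ζ (Or.inl hζ)).differentiableWithinAt
    refine h1.congr fun ζ hζ => ?_
    rw [hlin, hin ζ hζ]
    ring

end Pool.Agent.MP_d32a63_an.H82
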