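import Pool.Agent.MP_d32a63_an.H82.Good

open Set Filter Topology MeasureTheory Metric Complex

namespace Pool.Agent.MP_d32a63_an.H82

theorem weak_radius (M : ℝ → ℝ) (A lam ρ0 : ℝ) (hlam : 0 < lam) (h0 : 0 < ρ0)
    (hA : ∀ r, M r ≤ A) (hs : lam * ρ0 ^ 2 ≤ M ρ0) :
    ∃ ρ, 0 < ρ ∧ lam * ρ ^ 2 ≤ M ρ ∧ M (5 * ρ) ≤ 25 * lam * ρ ^ 2 := by
  by_contra hcon
  push Not at hcon
  have key : ∀ k : ℕ, lam * (5 ^ k * ρ0) ^ 2 ≤ M (5 ^ k * ρ0) := by
    intro k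
    induction k with
    | zero => simpa using hs
    | succ k ih =>
      have := hcon (5 ^ k * ρ0) (by positivity) ih
      have e : (5 : ℝ) ^ (k + 1) * ρ0 = 5 * (5 ^ k * ρ0) := by ring
      rw [e]
      nlinarith
  obtain ⟨k, hk⟩ := pow_unbounded_of_one_lt (A / (lam * ρ0 ^ 2)) (by norm_num : (1 : ℝ) < 5)
  have h1 := (key k).trans (hA _)
  rw [div_lt_iff₀ (by positivity)] at hk
  have h5 : (1 : ℝ) ≤ 5 ^ k := one_le_pow₀ (by norm_num)
  have h2 : 0 < lam * ρ0 ^ 2 := by positivity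
  have h3 : lam * (5 ^ k * ρ0) ^ 2 = 5 ^ k * (5 ^ k * (lam * ρ0 ^ 2)) := by ring
  have h4 : 5 ^ k * (lam * ρ0 ^ 2) ≤ 5 ^ k * (5 ^ k * (lam * ρ0 ^ 2)) :=
    le_mul_of_one_le_left (by positivity) h5
  linarith

/-- The majorant of the bad part. -/
noncomputable def weakPsi (p : ℂ) (ρ : ℝ) (z : ℂ) : ℝ :=
  (ρ ^ 2)⁻¹ * (1 + ‖ρ⁻¹ • (z - p)‖) ^ (-3 : ℝ)

theorem weak_phi_int : Integrable (fun w : ℂ => (1 + ‖w‖) ^ (-3 : ℝ)) volume :=
  integrable_one_add_norm (by rw [Complex.finrank_real_complex]; norm_num)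

theorem weak_psi_int (p : ℂ) {ρ : ℝ} (hρ : 0 < ρ) : Integrable (weakPsi p ρ) volume :=
  ((weak_phi_int.comp_smul (inv_ne_zero hρ.ne')).comp_sub_right p).const_mul _

theorem weak_psi_integral (p : ℂ) {ρ : ℝ} (hρ : 0 < ρ) :
    ∫ z, weakPsi p ρ z = ∫ w : ℂ, (1 + ‖w‖) ^ (-3 : ℝ) := by
  unfold weakPsi
  rw [integral_const_mul,
    integral_sub_right_eq_self (fun z : ℂ => (1 + ‖ρ⁻¹ • z‖) ^ (-3 : ℝ)) p,
    Measure.integral_comp_inv_smul_of_nonneg volume (fun w : ℂ => (1 + ‖w‖) ^ (-3 : ℝ)) hρ.le,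
    Complex.finrank_real_complex, smul_eq_mul, ← mul_assoc, inv_mul_cancel₀ (by positivity),
    one_mul]

theorem weak_psi_nonneg (p : ℂ) (ρ : ℝ) (z : ℂ) : 0 ≤ weakPsi p ρ z := by
  unfold weakPsi
  positivity

theorem weak_diff (p q z : ℂ) {ρ : ℝ} (hρ : 0 < ρ) (hq : ‖q - p‖ ≤ 5 * ρ)
    (hz : 10 * ρ < ‖z - p‖) :
    ‖1 / (q - z) ^ 2 - 1 / (p - z) ^ 2‖ ≤ 400 * weakPsi p ρ z := by
  set D := ‖z - p‖ with hD
  have hDpos : 0 < D := by linarith
  have hv : ‖p - z‖ = D := norm_sub_rev _ _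
  have hu : D / 2 ≤ ‖q - z‖ := by
    have : ‖p - z‖ ≤ ‖q - z‖ + ‖q - p‖ := by
      calc ‖p - z‖ = ‖(q - z) - (q - p)‖ := by congr 1; ring
        _ ≤ _ := norm_sub_le _ _
    linarith
  have hsum : ‖(p - z) + (q - z)‖ ≤ 5 / 2 * D := by
    calc ‖(p - z) + (q - z)‖ = ‖(p - z) + (p - z) + (q - p)‖ := by congr 1; ring
      _ ≤ ‖p - z‖ + ‖p - z‖ + ‖q - p‖ := norm_add₃_le
      _ ≤ _ := by linarith
  have hu0 : q - z ≠ 0 := norm_pos_iff.1 (by linarith)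
  have hv0 : p - z ≠ 0 := norm_pos_iff.1 (by linarith)
  have e : 1 / (q - z) ^ 2 - 1 / (p - z) ^ 2 =
      -(q - p) * ((p - z) + (q - z)) / ((q - z) ^ 2 * (p - z) ^ 2) := by
    field_simp
    ring
  have h1 : ‖1 / (q - z) ^ 2 - 1 / (p - z) ^ 2‖ ≤ 50 * ρ / D ^ 3 := by
    rw [e, norm_div, norm_mul, norm_mul, norm_neg, norm_pow, norm_pow, hv]
    calc ‖q - p‖ * ‖(p - z) + (q - z)‖ / (‖q - z‖ ^ 2 * D ^ 2)
        ≤ (5 * ρ) * (5 / 2 * D) / ((D / 2) ^ 2 * D ^ 2) := by gcongr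
      _ = 50 * ρ / D ^ 3 := by field_simp; ring
  refine h1.trans ?_
  unfold weakPsi
  have hn : ‖ρ⁻¹ • (z - p)‖ = D / ρ := by
    rw [norm_smul, norm_inv, Real.norm_eq_abs, abs_of_pos hρ, ← hD]
    field_simp
  have h10 : 1 ≤ D / ρ := by rw [le_div_iff₀ hρ]; linarith
  have h2 : ((2 * (D / ρ)) ^ 3)⁻¹ ≤ (1 + D / ρ) ^ (-3 : ℝ) := by
    rw [Real.rpow_neg (by positivity)]
    have : (1 + D / ρ) ^ (3 : ℝ) = (1 + D / ρ) ^ 3 := by
      rw [← Real.rpow_natCast]; norm_num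
    rw [this]
    gcongr
    linarith
  rw [hn]
  calc 50 * ρ / D ^ 3 = 400 * ((ρ ^ 2)⁻¹ * ((2 * (D / ρ)) ^ 3)⁻¹) := by field_simp; ring
    _ ≤ _ := by gcongr

theorem weak_markov (B : ℂ → ℝ) (hB : Integrable B volume) (h0 : ∀ z, 0 ≤ B z) {lam : ℝ}
    (hlam : 0 < lam) : volume {z | lam ≤ B z} ≤ ENNReal.ofReal ((∫ z, B z) / lam) := by
  calc volume {z | lam ≤ B z} ≤ volume {z | ENNReal.ofReal lam ≤ ENNReal.ofReal (B z)} :=
        measure_mono fun z hz => ENNReal.ofReal_le_ofReal hz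
    _ ≤ (∫⁻ z, ENNReal.ofReal (B z)) / ENNReal.ofReal lam :=
        meas_ge_le_lintegral_div hB.aemeasurable.ennreal_ofReal
          (ENNReal.ofReal_pos.2 hlam).ne' ENNReal.ofReal_ne_top
    _ = _ := by
        rw [← ofReal_integral_eq_lintegral_ofReal hB (Eventually.of_forall h0),
          ENNReal.ofReal_div_of_pos hlam]

theorem weak_three : ∃ C : ℝ, 0 < C ∧ ∀ {ι : Type} (s : Finset ι) (c ζ : ι → ℂ) (lam : ℝ),
    0 < lam → (∀ i ∈ s, c i ≠ 0) → volume {z : ℂ | 3 * lam < ‖∑ i ∈ s, c i / (ζ i - z) ^ 2‖}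
      ≤ ENNReal.ofReal (C * (∑ i ∈ s, ‖c i‖) / lam) := by
  classical
  obtain ⟨Cg, hCg, hgood⟩ := good_part
  set K := ∫ w : ℂ, (1 + ‖w‖) ^ (-3 : ℝ) with hK
  have hK0 : 0 ≤ K := integral_nonneg fun w => by positivity
  refine ⟨100 * Real.pi + Cg + 400 * K, by positivity, fun {ι} s c ζ lam hlam hc => ?_⟩
  set A := ∑ i ∈ s, ‖c i‖ with hA
  have hA0 : 0 ≤ A := Finset.sum_nonneg fun i _ => norm_nonneg _
  let m : ι → ℝ → ℝ := fun i r => ∑ k ∈ s.filter (fun k => ζ k ∈ closedBall (ζ i) r), ‖c k‖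
  have hrad : ∀ i, ∃ ρ, i ∈ s → 0 < ρ ∧ lam * ρ ^ 2 ≤ m i ρ ∧ m i (5 * ρ) ≤ 25 * lam * ρ ^ 2 := by
    intro i
    by_cases hi : i ∈ s
    · have hci : 0 < ‖c i‖ := norm_pos_iff.2 (hc i hi)
      obtain ⟨ρ, hρ⟩ := weak_radius (m i) A lam (Real.sqrt (‖c i‖ / lam)) hlam (by positivity)
        (fun r => Finset.sum_le_sum_of_subset_of_nonneg (Finset.filter_subset _ _)
          fun k _ _ => norm_nonneg _)
        (by
          rw [Real.sq_sqrt (by positivity), mul_div_cancel₀ _ hlam.ne']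
          exact Finset.single_le_sum (f := fun k => ‖c k‖) (fun k _ => norm_nonneg _)
            (Finset.mem_filter.2 ⟨hi, mem_closedBall_self (by positivity)⟩))
      exact ⟨ρ, fun _ => hρ⟩
    · exact ⟨0, fun h => absurd h hi⟩
  choose ρ hρ using hrad
  obtain ⟨u, hus, hdisj, hcov⟩ := Vitali.exists_disjoint_subfamily_covering_enlargement_closedBall
    (s : Set ι) ζ ρ (∑ i ∈ s, ρ i)
    (fun a ha => Finset.single_le_sum (fun k hk => (hρ k hk).1.le) ha) 5 (by norm_num)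
  have hσ : ∀ i, ∃ j, i ∈ s → j ∈ u ∧ ζ i ∈ closedBall (ζ j) (5 * ρ j) := by
    intro i
    by_cases hi : i ∈ s
    · obtain ⟨j, hj, h⟩ := hcov i hi
      exact ⟨j, fun _ => ⟨hj, h (mem_closedBall_self (hρ i hi).1.le)⟩⟩
    · exact ⟨i, fun h => absurd h hi⟩
  choose σ hσ using hσ
  let J := s.filter (· ∈ u)
  have hJs : ∀ j ∈ J, j ∈ s := fun j hj => (Finset.mem_filter.1 hj).1
  have hσJ : ∀ i ∈ s, σ i ∈ J := fun i hi => Finset.mem_filter.2 ⟨hus (hσ i hi).1, (hσ i hi).1⟩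
  have hJd : (J : Set ι).PairwiseDisjoint (fun j => closedBall (ζ j) (ρ j)) :=
    hdisj.subset fun j hj => (Finset.mem_filter.1 hj).2
  have hsumρ : ∑ j ∈ J, lam * ρ j ^ 2 ≤ A := by
    calc ∑ j ∈ J, lam * ρ j ^ 2 ≤ ∑ j ∈ J, m j (ρ j) :=
          Finset.sum_le_sum fun j hj => (hρ j (hJs j hj)).2.1
      _ = ∑ k ∈ J.biUnion (fun j => s.filter (fun k => ζ k ∈ closedBall (ζ j) (ρ j))), ‖c k‖ := by
          rw [Finset.sum_biUnion]
          intro i hi j hj hij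
          refine Finset.disjoint_left.2 fun k h1 h2 => ?_
          exact Set.disjoint_left.1 (hJd hi hj hij) (Finset.mem_filter.1 h1).2
            (Finset.mem_filter.1 h2).2
      _ ≤ A := Finset.sum_le_sum_of_subset_of_nonneg
          (Finset.biUnion_subset.2 fun j _ => Finset.filter_subset _ _) fun k _ _ => norm_nonneg _
  let a : ι → ℂ := fun j => ∑ i ∈ s.filter (fun i => σ i = j), c i
  have ha1 : ∀ j ∈ J, ‖a j‖ ≤ 25 * lam * ρ j ^ 2 := by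
    intro j hj
    refine (norm_sum_le _ _).trans (le_trans ?_ (hρ j (hJs j hj)).2.2)
    refine Finset.sum_le_sum_of_subset_of_nonneg (fun i hi => ?_) fun k _ _ => norm_nonneg _
    obtain ⟨hi', rfl⟩ := Finset.mem_filter.1 hi
    exact Finset.mem_filter.2 ⟨hi', (hσ i hi').2⟩
  have ha2 : ∑ j ∈ J, ‖a j‖ ≤ A := by
    rw [hA, ← Finset.sum_fiberwise_of_maps_to hσJ]
    exact Finset.sum_le_sum fun j _ => norm_sum_le _ _
  have hdec : ∀ z : ℂ, ∑ i ∈ s, c i / (ζ i - z) ^ 2 = ∑ j ∈ J, a j / (ζ j - z) ^ 2 +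
      ∑ i ∈ s, c i * (1 / (ζ i - z) ^ 2 - 1 / (ζ (σ i) - z) ^ 2) := by
    intro z
    have : ∑ j ∈ J, a j / (ζ j - z) ^ 2 = ∑ i ∈ s, c i / (ζ (σ i) - z) ^ 2 := by
      rw [← Finset.sum_fiberwise_of_maps_to hσJ]
      refine Finset.sum_congr rfl fun j _ => ?_
      rw [Finset.sum_div]
      refine Finset.sum_congr rfl fun i hi => ?_
      rw [(Finset.mem_filter.1 hi).2]
    rw [this, ← Finset.sum_add_distrib]
    refine Finset.sum_congr rfl fun i _ => ?_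
    ring
  let B : ℂ → ℝ := fun z => ∑ i ∈ s, ‖c i‖ * (400 * weakPsi (ζ (σ i)) (ρ (σ i)) z)
  have hint : ∀ i ∈ s, Integrable (fun z => ‖c i‖ * (400 * weakPsi (ζ (σ i)) (ρ (σ i)) z)) volume :=
    fun i hi => ((weak_psi_int _ (hρ _ (hJs _ (hσJ i hi))).1).const_mul _).const_mul _
  have hBint : Integrable B volume := integrable_finsetSum _ hint
  have hB0 : ∀ z, 0 ≤ B z := fun z => Finset.sum_nonneg fun i _ =>
    mul_nonneg (norm_nonneg _) (mul_nonneg (by norm_num) (weak_psi_nonneg _ _ _))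
  have hBval : ∫ z, B z = 400 * K * A := by
    rw [integral_finsetSum _ hint, hA, Finset.mul_sum]
    refine Finset.sum_congr rfl fun i hi => ?_
    rw [integral_const_mul, integral_const_mul, weak_psi_integral _ (hρ _ (hJs _ (hσJ i hi))).1]
    ring
  have hsub : {z : ℂ | 3 * lam < ‖∑ i ∈ s, c i / (ζ i - z) ^ 2‖} ⊆
      ((⋃ j ∈ J, closedBall (ζ j) (10 * ρ j)) ∪
        {z : ℂ | (∀ j ∈ J, ρ j < ‖z - ζ j‖) ∧ 2 * lam < ‖∑ j ∈ J, a j / (ζ j - z) ^ 2‖}) ∪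
        {z | lam ≤ B z} := by
    intro z hz
    by_contra hcon
    simp only [mem_union, not_or, mem_iUnion, not_exists, mem_ofPred_eq, not_and, not_lt,
      not_le] at hcon hz
    obtain ⟨⟨h1, h2⟩, h3⟩ := hcon
    have hfar : ∀ j ∈ J, 10 * ρ j < ‖z - ζ j‖ := fun j hj => by
      have := h1 j hj
      rwa [mem_closedBall, dist_eq_norm, not_le] at this
    have h4 := h2 fun j hj => by
      have := hfar j hj
      have := (hρ j (hJs j hj)).1
      linarith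
    have h5 : ‖∑ i ∈ s, c i * (1 / (ζ i - z) ^ 2 - 1 / (ζ (σ i) - z) ^ 2)‖ ≤ B z := by
      refine (norm_sum_le _ _).trans (Finset.sum_le_sum fun i hi => ?_)
      rw [norm_mul]
      refine mul_le_mul_of_nonneg_left ?_ (norm_nonneg _)
      refine weak_diff _ _ _ (hρ _ (hJs _ (hσJ i hi))).1 ?_ (hfar _ (hσJ i hi))
      have := (hσ i hi).2
      rwa [mem_closedBall, dist_eq_norm] at this
    rw [hdec z] at hz
    have := norm_add_le (∑ j ∈ J, a j / (ζ j - z) ^ 2)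
      (∑ i ∈ s, c i * (1 / (ζ i - z) ^ 2 - 1 / (ζ (σ i) - z) ^ 2))
    linarith
  have hE : volume (⋃ j ∈ J, closedBall (ζ j) (10 * ρ j)) ≤
      ENNReal.ofReal (100 * Real.pi * A / lam) := by
    refine (measure_biUnion_finset_le _ _).trans ?_
    have : ∀ j ∈ J, volume (closedBall (ζ j) (10 * ρ j)) =
        ENNReal.ofReal (100 * Real.pi * ρ j ^ 2) := by
      intro j hj
      have hp := (hρ j (hJs j hj)).1
      rw [Complex.volume_closedBall, ← ENNReal.ofReal_pow (by positivity),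
        ← ENNReal.ofReal_coe_nnreal, NNReal.coe_real_pi, ← ENNReal.ofReal_mul (by positivity)]
      congr 1
      ring
    rw [Finset.sum_congr rfl this, ← ENNReal.ofReal_sum_of_nonneg (fun j _ => by positivity)]
    refine ENNReal.ofReal_le_ofReal ?_
    rw [le_div_iff₀ hlam, ← Finset.mul_sum, mul_assoc, mul_comm _ lam, Finset.mul_sum]
    gcongr
  have hG := (hgood J a ζ ρ lam hlam (fun j hj => (hρ j (hJs j hj)).1) hJd ha1).trans
    (ENNReal.ofReal_le_ofReal (show Cg * (∑ j ∈ J, ‖a j‖) / lam ≤ Cg * A / lam by gcongr))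
  have hM := weak_markov B hBint hB0 hlam
  rw [hBval] at hM
  refine (measure_mono hsub).trans ((measure_union_le _ _).trans ?_)
  refine (add_le_add ((measure_union_le _ _).trans (add_le_add hE hG)) hM).trans (le_of_eq ?_)
  rw [← ENNReal.ofReal_add (by positivity) (by positivity),
    ← ENNReal.ofReal_add (by positivity) (by positivity)]
  congr 1
  ring

/-- Weak type `(1,1)` of the Beurling kernel on finite sums of point masses. -/
theorem weak_type : ∃ C : ℝ, 0 < C ∧ ∀ {ι : Type} (s : Finset ι) (c ζ : ι → ℂ) (lam : ℝ),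
    0 < lam → volume {z : ℂ | lam < ‖∑ i ∈ s, c i / (ζ i - z) ^ 2‖}
      ≤ ENNReal.ofReal (C * (∑ i ∈ s, ‖c i‖) / lam) := by
  classical
  obtain ⟨C, hC, h⟩ := weak_three
  refine ⟨3 * C, by positivity, fun {ι} s c ζ lam hlam => ?_⟩
  have key := h (s.filter (fun i => c i ≠ 0)) c ζ (lam / 3) (by positivity)
    (fun i hi => (Finset.mem_filter.1 hi).2)
  have e1 : ∀ z : ℂ, ∑ i ∈ s.filter (fun i => c i ≠ 0), c i / (ζ i - z) ^ 2 =
      ∑ i ∈ s, c i / (ζ i - z) ^ 2 := fun z =>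
    Finset.sum_filter_of_ne fun i _ hi h0 => hi (by rw [h0, zero_div])
  have e2 : ∑ i ∈ s.filter (fun i => c i ≠ 0), ‖c i‖ = ∑ i ∈ s, ‖c i‖ :=
    Finset.sum_filter_of_ne fun i _ hi h0 => hi (by rw [h0, norm_zero])
  have e3 : 3 * (lam / 3) = lam := by ring
  have e4 : C * (∑ i ∈ s, ‖c i‖) / (lam / 3) = 3 * C * (∑ i ∈ s, ‖c i‖) / lam := by
    field_simp
  simp only [e1, e2, e3, e4] at key
  exact key

end Pool.Agent.MP_d32a63_an.H82
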