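import Mathlib

open Set Filter Topology MeasureTheory Metric

namespace Pool.Agent.MP_d32a63_an.H82

/-- Weak `L¹` bound with constant `t`. -/
def Wk (ν : Measure ℂ) (f : ℂ → ℂ) (t : ℝ) : Prop :=
  0 ≤ t ∧ ∀ lam : ℝ, 0 < lam → ν {z | lam < ‖f z‖} ≤ ENNReal.ofReal (t / lam)

theorem Wk.mono {ν : Measure ℂ} {f : ℂ → ℂ} {t u : ℝ} (h : Wk ν f t) (htu : t ≤ u) :
    Wk ν f u :=
  ⟨h.1.trans htu, fun lam hl => (h.2 lam hl).trans
    (ENNReal.ofReal_le_ofReal (div_le_div_of_nonneg_right htu hl.le))⟩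

theorem Wk.of_le {ν : Measure ℂ} {f g : ℂ → ℂ} {t : ℝ} (h : Wk ν f t)
    (hg : ∀ z, ‖g z‖ ≤ ‖f z‖) : Wk ν g t :=
  ⟨h.1, fun lam hl => (measure_mono fun z hz => lt_of_lt_of_le hz (hg z)).trans (h.2 lam hl)⟩

theorem Wk.neg {ν : Measure ℂ} {f : ℂ → ℂ} {t : ℝ} (h : Wk ν f t) : Wk ν (fun z => -f z) t :=
  h.of_le fun z => by simp

theorem Wk.add {ν : Measure ℂ} {f g : ℂ → ℂ} {t u : ℝ} (hf : Wk ν f t) (hg : Wk ν g u) :
    Wk ν (fun z => f z + g z) (2 * (t + u)) := by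
  refine ⟨by linarith [hf.1, hg.1], fun lam hl => ?_⟩
  have hsub : {z | lam < ‖f z + g z‖} ⊆ {z | lam / 2 < ‖f z‖} ∪ {z | lam / 2 < ‖g z‖} := by
    intro z hz
    by_contra hc
    simp only [mem_union, mem_ofPred_eq, not_or, not_lt] at hc hz
    linarith [norm_add_le (f z) (g z), hc.1, hc.2]
  calc ν {z | lam < ‖f z + g z‖} ≤ ν {z | lam / 2 < ‖f z‖} + ν {z | lam / 2 < ‖g z‖} :=
        (measure_mono hsub).trans (measure_union_le _ _)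
    _ ≤ ENNReal.ofReal (t / (lam / 2)) + ENNReal.ofReal (u / (lam / 2)) :=
        add_le_add (hf.2 _ (by linarith)) (hg.2 _ (by linarith))
    _ = ENNReal.ofReal (2 * (t + u) / lam) := by
        rw [← ENNReal.ofReal_add (div_nonneg hf.1 (by linarith)) (div_nonneg hg.1 (by linarith))]
        congr 1
        field_simp

theorem Wk.sub {ν : Measure ℂ} {f g : ℂ → ℂ} {t u : ℝ} (hf : Wk ν f t) (hg : Wk ν g u) :
    Wk ν (fun z => f z - g z) (2 * (t + u)) :=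
  (hf.add hg.neg).of_le fun z => by rw [sub_eq_add_neg]

theorem Wk.of_integrable {ν : Measure ℂ} [IsFiniteMeasure ν] {f : ℂ → ℂ} (hf : Integrable f ν) :
    Wk ν f (∫ z, ‖f z‖ ∂ν) := by
  refine ⟨integral_nonneg fun z => norm_nonneg _, fun lam hl => ?_⟩
  have h1 := mul_meas_ge_le_integral_of_nonneg
    (ae_of_all ν fun z => norm_nonneg (f z)) hf.norm lam
  have h2 : ν {z | lam < ‖f z‖} ≤ ν {z | lam ≤ ‖f z‖} := measure_mono fun z (hz : lam < ‖f z‖) => (hz.le : lam ≤ ‖f z‖)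
  refine h2.trans ?_
  rw [← ofReal_measureReal (measure_ne_top ν _)]
  apply ENNReal.ofReal_le_ofReal
  rw [le_div_iff₀ hl]
  linarith

theorem Wk.mul_bdd {ν : Measure ℂ} {f R : ℂ → ℂ} {t γ : ℝ} (hf : Wk ν f t) (hγ : 0 < γ)
    (hR : ∀ z, ‖R z‖ ≤ γ) : Wk ν (fun z => R z * f z) (γ * t) := by
  refine ⟨mul_nonneg hγ.le hf.1, fun lam hl => ?_⟩
  have hsub : {z | lam < ‖R z * f z‖} ⊆ {z | lam / γ < ‖f z‖} := by
    intro z hz
    simp only [mem_ofPred_eq, norm_mul] at hz ⊢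
    rw [div_lt_iff₀ hγ]
    nlinarith [hR z, norm_nonneg (f z)]
  refine (measure_mono hsub).trans ((hf.2 _ (div_pos hl hγ)).trans (le_of_eq ?_))
  congr 1
  field_simp

theorem wk_geom (J : Finset ℕ) : ∑ j ∈ J, (1 / 2 : ℝ) ^ (j + 1) ≤ 1 := by
  have h1 : HasSum (fun j : ℕ => (1 / 2 : ℝ) ^ (j + 1)) 1 := by
    have := hasSum_geometric_two.mul_left (1 / 2 : ℝ)
    simpa [pow_succ, mul_comm] using this
  exact sum_le_hasSum J (fun j _ => by positivity) h1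

theorem Wk.levels {ν : Measure ℂ} (J : Finset ℕ) (f : ℕ → ℂ → ℂ) (t : ℕ → ℝ)
    (h : ∀ j ∈ J, Wk ν (f j) (t j)) :
    Wk ν (fun z => ∑ j ∈ J, f j z) (∑ j ∈ J, 2 ^ (j + 1) * t j) := by
  refine ⟨Finset.sum_nonneg fun j hj => mul_nonneg (by positivity) (h j hj).1, fun lam hl => ?_⟩
  have hsub : {z | lam < ‖∑ j ∈ J, f j z‖} ⊆
      ⋃ j ∈ J, {z | lam * (1 / 2) ^ (j + 1) < ‖f j z‖} := by
    intro z hz
    by_contra hc
    simp only [mem_iUnion, mem_ofPred_eq, not_exists, not_lt] at hc hz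
    have h1 : ‖∑ j ∈ J, f j z‖ ≤ ∑ j ∈ J, lam * (1 / 2) ^ (j + 1) :=
      (norm_sum_le _ _).trans (Finset.sum_le_sum fun j hj => hc j hj)
    rw [← Finset.mul_sum] at h1
    nlinarith [wk_geom J]
  calc ν {z | lam < ‖∑ j ∈ J, f j z‖}
      ≤ ∑ j ∈ J, ν {z | lam * (1 / 2) ^ (j + 1) < ‖f j z‖} :=
        (measure_mono hsub).trans (measure_biUnion_finset_le _ _)
    _ ≤ ∑ j ∈ J, ENNReal.ofReal (t j / (lam * (1 / 2) ^ (j + 1))) :=
        Finset.sum_le_sum fun j hj => (h j hj).2 _ (by positivity)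
    _ = ENNReal.ofReal ((∑ j ∈ J, 2 ^ (j + 1) * t j) / lam) := by
        rw [← ENNReal.ofReal_sum_of_nonneg
          (fun j hj => div_nonneg (h j hj).1 (by positivity)), Finset.sum_div]
        congr 1
        refine Finset.sum_congr rfl fun j _ => ?_
        rw [one_div, inv_pow]
        field_simp

theorem wk_lim {W : Set ℂ} {u : ℂ → ℂ} {q : ℂ} (hq : q ∈ closure W)
    (h : ∀ ε > 0, ∃ δ > 0, ∀ ζ ∈ W ∩ ball q δ, ∀ ζ' ∈ W ∩ ball q δ, ‖u ζ - u ζ'‖ ≤ ε) :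
    ∃ y, Tendsto u (𝓝[W] q) (𝓝 y) := by
  have : (𝓝[W] q).NeBot := mem_closure_iff_nhdsWithin_neBot.mp hq
  rw [← cauchy_map_iff_exists_tendsto, Metric.cauchy_iff]
  refine ⟨inferInstance, fun ε hε => ?_⟩
  obtain ⟨δ, hδ, hh⟩ := h (ε / 2) (by linarith)
  refine ⟨u '' (W ∩ ball q δ), image_mem_map (inter_mem_nhdsWithin W (ball_mem_nhds q hδ)), ?_⟩
  rintro _ ⟨a, ha, rfl⟩ _ ⟨b, hb, rfl⟩
  rw [dist_eq_norm]
  linarith [hh a ha b hb]

end Pool.Agent.MP_d32a63_an.H82
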