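import Pool.Agent.MP_d32a63_an.H82.Basic
import Pool.Agent.MP_d32a63_an.H82.Wk
import Pool.Agent.MP_d32a63_an.H82.Weak
import Pool.Agent.MP_d32a63_an.H82.Jensen
import Pool.Agent.MP_d32a63_an.H82.Kernel

open Set Filter Topology MeasureTheory Metric Complex

namespace Pool.Agent.MP_d32a63_an.H82

/-- The derivative in the pole of the difference quotient, with `P` in place of the function. -/
noncomputable def kap (P F₁ : ℂ → ℂ) (ζ z : ℂ) : ℂ :=
  F₁ ζ / (ζ - z) - (P ζ - P z) / (ζ - z) ^ 2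

theorem one_dslope {W : Set ℂ} (hW : IsOpen W) {F₀ F₁ : ℂ → ℂ} (h₀ : Continuous F₀)
    (h₁ : Continuous F₁) (hd : ∀ ζ ∈ W, HasDerivAt F₀ (F₁ ζ) ζ) {K : Set ℂ} (hK : IsCompact K)
    {ζ₀ : ℂ} (hζ : ζ₀ ∈ W) :
    ∃ η > 0, ∃ B : ℝ, ∀ z ∈ K, DifferentiableOn ℂ (fun ζ => dslope F₀ z ζ) (ball ζ₀ η) ∧
      ∀ ζ ∈ ball ζ₀ η, ‖dslope F₀ z ζ‖ ≤ B := by
  obtain ⟨ε, hε, hb⟩ := Metric.isOpen_iff.mp hW ζ₀ hζ
  set η := ε / 3 with hη
  have hηp : 0 < η := by positivity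
  have hcl : closedBall ζ₀ (2 * η) ⊆ W :=
    (closedBall_subset_ball (by rw [hη]; linarith)).trans hb
  have hbl : ball ζ₀ η ⊆ closedBall ζ₀ (2 * η) :=
    ball_subset_closedBall.trans (closedBall_subset_closedBall (by linarith))
  obtain ⟨B₁, hB₁⟩ := (isCompact_closedBall ζ₀ (2 * η)).exists_bound_of_continuousOn
    h₁.continuousOn
  obtain ⟨B₀, hB₀⟩ := (hK.union (isCompact_closedBall ζ₀ (2 * η))).exists_bound_of_continuousOn
    h₀.continuousOn
  have hdW : DifferentiableOn ℂ F₀ W :=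
    fun ζ hζ => (hd ζ hζ).differentiableAt.differentiableWithinAt
  refine ⟨η, hηp, max B₁ (2 * B₀ / η), fun z hz => ?_⟩
  by_cases hzc : z ∈ closedBall ζ₀ (2 * η)
  · refine ⟨((Complex.differentiableOn_dslope (hW.mem_nhds (hcl hzc))).mpr hdW).mono
      (hbl.trans hcl), fun ζ hζ => le_max_of_le_left ?_⟩
    by_cases hζz : ζ = z
    · rw [hζz, dslope_same, (hd z (hcl hzc)).deriv]
      exact hB₁ z hzc
    · have hlip := (convex_closedBall ζ₀ (2 * η)).norm_image_sub_le_of_norm_hasDerivWithin_le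
        (fun x hx => (hd x (hcl hx)).hasDerivWithinAt) hB₁ hzc (hbl hζ)
      rw [dslope_of_ne _ hζz, slope_def_field, norm_div, div_le_iff₀ (by
        simpa [sub_eq_zero] using hζz)]
      exact hlip
  · have hnot : z ∉ ball ζ₀ η := fun h => hzc (hbl h)
    refine ⟨(differentiableOn_dslope_of_notMem hnot).mpr (hdW.mono (hbl.trans hcl)),
      fun ζ hζ => le_max_of_le_right ?_⟩
    have hζz : ζ ≠ z := fun h => hnot (h ▸ hζ)
    have hdist : η ≤ ‖ζ - z‖ := by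
      have e1 : dist ζ ζ₀ < η := hζ
      have e2 : 2 * η < dist z ζ₀ := by simpa using hzc
      have e3 := dist_triangle z ζ ζ₀
      rw [← dist_eq_norm, dist_comm]
      linarith
    have hB0 : 0 ≤ B₀ := (norm_nonneg _).trans (hB₀ z (Or.inl hz))
    rw [dslope_of_ne _ hζz, slope_def_field, norm_div]
    have e4 : ‖F₀ ζ - F₀ z‖ ≤ 2 * B₀ := by
      linarith [norm_sub_le (F₀ ζ) (F₀ z), hB₀ z (Or.inl hz), hB₀ ζ (Or.inr (hbl hζ))]
    exact div_le_div₀ (by linarith) e4 hηp hdist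

theorem one_deriv {F₀ F₁ : ℂ → ℂ} {ζ₀ z : ℂ} (hd : HasDerivAt F₀ (F₁ ζ₀) ζ₀) (hz : z ≠ ζ₀) :
    deriv (fun ζ => dslope F₀ z ζ) ζ₀ = kap F₀ F₁ ζ₀ z := by
  have hne : ζ₀ - z ≠ 0 := sub_ne_zero.mpr hz.symm
  have h1 : (fun ζ => dslope F₀ z ζ) =ᶠ[𝓝 ζ₀] fun ζ => (F₀ ζ - F₀ z) / (ζ - z) := by
    filter_upwards [isOpen_ne.mem_nhds hz.symm] with ζ hζ
    rw [dslope_of_ne _ hζ, slope_def_field]
  have h2 : HasDerivAt (fun ζ => (F₀ ζ - F₀ z) / (ζ - z))
      ((F₁ ζ₀ * (ζ₀ - z) - (F₀ ζ₀ - F₀ z) * 1) / (ζ₀ - z) ^ 2) ζ₀ :=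
    (hd.sub_const (F₀ z)).div ((hasDerivAt_id ζ₀).sub_const z) hne
  rw [h1.deriv_eq, h2.deriv, kap]
  field_simp

theorem one_kap_meas {P F₁ : ℂ → ℂ} (hP : Continuous P) (ζ : ℂ) : Measurable (kap P F₁ ζ) := by
  unfold kap
  have := hP.measurable
  fun_prop

theorem one_holo {W : Set ℂ} (hW : IsOpen W) {F₀ F₁ : ℂ → ℂ} (h₀ : Continuous F₀)
    (h₁ : Continuous F₁) (hd : ∀ ζ ∈ W, HasDerivAt F₀ (F₁ ζ) ζ) {A K : Set ℂ}
    (hA : MeasurableSet A) (hK : IsCompact K) (hAK : A ⊆ K) (L : (ℂ → ℂ) →ₗ[ℂ] ℂ) (M : ℝ)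
    (hL : ∀ g, Integrable g (volume.restrict A) → ‖L g‖ ≤ M * ∫ z in A, ‖g z‖)
    {ζ₀ : ℂ} (hζ : ζ₀ ∈ W) :
    IntegrableOn (kap F₀ F₁ ζ₀) A ∧
      HasDerivAt (fun ζ => L (fun z => (F₀ ζ - F₀ z) / (ζ - z))) (L (kap F₀ F₁ ζ₀)) ζ₀ := by
  obtain ⟨η, hη, B, hB⟩ := one_dslope hW h₀ h₁ hd hK hζ
  have hfin : IsFiniteMeasure (volume.restrict A) :=
    isFiniteMeasure_restrict.mpr ((measure_mono hAK).trans_lt hK.measure_lt_top).ne
  have hne : ∀ ζ : ℂ, ∀ᵐ z ∂(volume.restrict A), z ≠ ζ := fun ζ =>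
    ae_restrict_of_ae (by simp [ae_iff])
  have hae : ∀ ζ : ℂ, (fun z => dslope F₀ z ζ) =ᵐ[volume.restrict A]
      fun z => (F₀ ζ - F₀ z) / (ζ - z) := by
    intro ζ
    filter_upwards [hne ζ] with z hz
    rw [dslope_of_ne _ hz.symm, slope_def_field]
  have key := holo_family (volume.restrict A) L M hL (fun ζ z => dslope F₀ z ζ) (kap F₀ F₁ ζ₀)
    ζ₀ η hη (fun _ => B) (integrable_const B)
    (fun ζ _ => AEStronglyMeasurable.congr (by
      have := h₀.measurable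
      exact (by fun_prop : Measurable fun z => (F₀ ζ - F₀ z) / (ζ - z)).aestronglyMeasurable)
      (hae ζ).symm)
    (one_kap_meas h₀ ζ₀).aestronglyMeasurable
    (by
      filter_upwards [hne ζ₀, ae_restrict_mem hA] with z hz hzA
      exact ⟨(hB z (hAK hzA)).1, (hB z (hAK hzA)).2, one_deriv (hd ζ₀ hζ) hz⟩)
  refine ⟨key.1, ?_⟩
  have e : (fun ζ => L (fun z => (F₀ ζ - F₀ z) / (ζ - z))) =
      fun ζ => L (fun z => dslope F₀ z ζ) := by
    funext ζ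
    exact (L_congr _ L M hL (hae ζ)).symm
  rw [e]
  exact key.2

theorem one_levels {F₀ F₁ : ℂ → ℂ} (h₀ : Continuous F₀) (h₁ : Continuous F₁) {A Q : Set ℂ}
    (hA : MeasurableSet A) (hQ : IsCompact Q) (hQc : Convex ℝ Q) (hAQ : A ⊆ Q) (γ : ℝ)
    (hγ : 0 < γ) :
    ∃ (P : ℂ → ℂ) (δ : ℝ), 0 < δ ∧ (∀ z, ‖F₀ z - P z‖ ≤ γ) ∧
      (∀ ζ ∈ Q, IntegrableOn (kap P F₁ ζ) A) ∧
      ∀ ζ ∈ Q, ∀ ζ' ∈ Q, dist ζ ζ' ≤ δ → ∫ z in A, ‖kap P F₁ ζ z - kap P F₁ ζ' z‖ ≤ γ := by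
  obtain ⟨P, hP, hPa, -⟩ := h₀.exists_contDiff_approx 1 (ε := fun _ => γ) continuous_const
    (fun _ => hγ)
  obtain ⟨B₁, hB₁⟩ := hQ.exists_bound_of_continuousOn h₁.continuousOn
  obtain ⟨K, hK⟩ := hQ.exists_bound_of_continuousOn
    (hP.continuous_fderiv (by simp)).continuousOn
  have hPc : Continuous P := hP.continuous
  have hPd : Differentiable ℝ P := hP.differentiable (by simp)
  have key := l1_unif A Q hA (hQ.isBounded.subset hAQ) hQ (kap P F₁) (B₁ + K) ?_ ?_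
  · obtain ⟨δ, hδ, hh⟩ := key.2 γ hγ
    refine ⟨P, δ, hδ, fun z => ?_, key.1, hh⟩
    rw [← dist_eq_norm, dist_comm]
    exact (hPa z).le
  · intro ζ hζ z hz hne
    have hpos : 0 < ‖ζ - z‖ := norm_pos_iff.mpr (sub_ne_zero.mpr hne.symm)
    have hlip := hQc.norm_image_sub_le_of_norm_fderiv_le (fun x _ => hPd x) hK (hAQ hz) hζ
    have e1 : ‖F₁ ζ / (ζ - z)‖ ≤ B₁ * ‖ζ - z‖⁻¹ := by
      rw [norm_div, div_eq_mul_inv]
      exact mul_le_mul_of_nonneg_right (hB₁ ζ hζ) (by positivity)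
    have e2 : ‖(P ζ - P z) / (ζ - z) ^ 2‖ ≤ K * ‖ζ - z‖⁻¹ := by
      rw [norm_div, norm_pow, div_le_iff₀ (by positivity)]
      calc ‖P ζ - P z‖ ≤ K * ‖ζ - z‖ := hlip
        _ = K * ‖ζ - z‖⁻¹ * ‖ζ - z‖ ^ 2 := by field_simp
    unfold kap
    linarith [norm_sub_le (F₁ ζ / (ζ - z)) ((P ζ - P z) / (ζ - z) ^ 2)]
  · unfold kap
    refine ContinuousOn.sub (ContinuousOn.div (by fun_prop) (by fun_prop) ?_)
      (ContinuousOn.div (by fun_prop) (by fun_prop) ?_)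
    · intro x hx
      exact sub_ne_zero.mpr hx
    · intro x hx
      exact pow_ne_zero 2 (sub_ne_zero.mpr hx)

theorem one_wk_poles {A : Set ℂ} {C : ℝ} (hC : 0 < C)
    (hw : ∀ {ι : Type} (s : Finset ι) (c ζ : ι → ℂ) (lam : ℝ),
      0 < lam → volume {z : ℂ | lam < ‖∑ i ∈ s, c i / (ζ i - z) ^ 2‖}
        ≤ ENNReal.ofReal (C * (∑ i ∈ s, ‖c i‖) / lam))
    {ι : Type} (s : Finset ι) (c ζ : ι → ℂ) :
    Wk (volume.restrict A) (fun z => ∑ i ∈ s, c i / (ζ i - z) ^ 2) (C * ∑ i ∈ s, ‖c i‖) :=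
  ⟨mul_nonneg hC.le (Finset.sum_nonneg fun _ _ => norm_nonneg _),
    fun lam hl => (Measure.restrict_le_self _).trans (hw s c ζ lam hl)⟩

/-- The weak-type estimate for sums of differences of kernels. -/
theorem one_rough : ∃ C : ℝ, 0 < C ∧ ∀ {A : Set ℂ} [IsFiniteMeasure (volume.restrict A)]
    {F₀ F₁ : ℂ → ℂ} (P : ℕ → ℂ → ℂ) (_ : ∀ j z, ‖F₀ z - P j z‖ ≤ (1 / 4) ^ j)
    {ι : Type} (s : Finset ι) (c a b : ι → ℂ) (l : ι → ℕ)
    (_ : ∀ i ∈ s, IntegrableOn (kap (P (l i)) F₁ (a i)) A)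
    (_ : ∀ i ∈ s, IntegrableOn (kap (P (l i)) F₁ (b i)) A)
    (_ : ∀ i ∈ s, ∫ z in A, ‖kap (P (l i)) F₁ (a i) z - kap (P (l i)) F₁ (b i) z‖
      ≤ (1 / 4) ^ l i),
    Wk (volume.restrict A) (fun z => ∑ i ∈ s, c i * (kap F₀ F₁ (a i) z - kap F₀ F₁ (b i) z))
      (C * ∑ i ∈ s, ‖c i‖ * (1 / 2) ^ l i) := by
  classical
  obtain ⟨C, hC, hw⟩ := weak_type
  refine ⟨8 + 32 * C, by positivity, ?_⟩
  intro A _ F₀ F₁ P hP ι s c a b l hia hib hint
  set m := ∑ i ∈ s, ‖c i‖ * (1 / 2 : ℝ) ^ l i with hm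
  have hm0 : 0 ≤ m := Finset.sum_nonneg fun i _ => by positivity
  have hq : ∀ j : ℕ, (1 / 4 : ℝ) ^ j ≤ (1 / 2) ^ j := fun j =>
    pow_le_pow_left₀ (by norm_num) (by norm_num) j
  have hint' : ∀ i ∈ s, Integrable
      (fun z => c i * (kap (P (l i)) F₁ (a i) z - kap (P (l i)) F₁ (b i) z))
      (volume.restrict A) := fun i hi => ((hia i hi).sub (hib i hi)).const_mul (c i)
  have w1 : Wk (volume.restrict A)
      (fun z => ∑ i ∈ s, c i * (kap (P (l i)) F₁ (a i) z - kap (P (l i)) F₁ (b i) z)) m := by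
    refine (Wk.of_integrable (integrable_finsetSum s hint')).mono ?_
    calc ∫ z in A, ‖∑ i ∈ s, c i * (kap (P (l i)) F₁ (a i) z - kap (P (l i)) F₁ (b i) z)‖
        ≤ ∫ z in A, ∑ i ∈ s, ‖c i * (kap (P (l i)) F₁ (a i) z - kap (P (l i)) F₁ (b i) z)‖ :=
          integral_mono (integrable_finsetSum s hint').norm
            (integrable_finsetSum s fun i hi => (hint' i hi).norm) fun z => norm_sum_le _ _
      _ = ∑ i ∈ s, ∫ z in A, ‖c i * (kap (P (l i)) F₁ (a i) z - kap (P (l i)) F₁ (b i) z)‖ :=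
          integral_finsetSum s fun i hi => (hint' i hi).norm
      _ ≤ m := by
          refine Finset.sum_le_sum fun i hi => ?_
          simp only [norm_mul]
          rw [integral_const_mul]
          exact mul_le_mul_of_nonneg_left ((hint i hi).trans (hq _)) (norm_nonneg _)
  have w2 : ∀ e : ι → ℂ, Wk (volume.restrict A)
      (fun z => ∑ i ∈ s, (c i * (F₀ (e i) - P (l i) (e i))) / (e i - z) ^ 2) (C * m) := by
    intro e
    refine (one_wk_poles hC hw s _ e).mono (mul_le_mul_of_nonneg_left ?_ hC.le)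
    refine Finset.sum_le_sum fun i _ => ?_
    rw [norm_mul]
    exact mul_le_mul_of_nonneg_left ((hP _ _).trans (hq _)) (norm_nonneg _)
  have w3 : ∀ e : ι → ℂ, Wk (volume.restrict A)
      (fun z => ∑ i ∈ s, (F₀ z - P (l i) z) * (c i / (e i - z) ^ 2)) (2 * C * m) := by
    intro e
    have hl := Wk.levels (ν := volume.restrict A) (s.image l)
      (fun j z => (F₀ z - P j z) * ∑ i ∈ s.filter (fun i => l i = j), c i / (e i - z) ^ 2)
      (fun j => (1 / 4) ^ j * (C * ∑ i ∈ s.filter (fun i => l i = j), ‖c i‖))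
      (fun j _ => (one_wk_poles hC hw _ c e).mul_bdd (by positivity) (hP j))
    have e1 : ∀ z, ∑ j ∈ s.image l,
        (F₀ z - P j z) * ∑ i ∈ s.filter (fun i => l i = j), c i / (e i - z) ^ 2 =
        ∑ i ∈ s, (F₀ z - P (l i) z) * (c i / (e i - z) ^ 2) := by
      intro z
      rw [← Finset.sum_fiberwise_of_maps_to (g := l) (t := s.image l)
        (fun i hi => Finset.mem_image_of_mem l hi)]
      refine Finset.sum_congr rfl fun j _ => ?_
      rw [Finset.mul_sum]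
      refine Finset.sum_congr rfl fun i hi => ?_
      rw [(Finset.mem_filter.mp hi).2]
    have e2 : ∑ j ∈ s.image l, 2 ^ (j + 1) *
        ((1 / 4 : ℝ) ^ j * (C * ∑ i ∈ s.filter (fun i => l i = j), ‖c i‖)) = 2 * C * m := by
      rw [hm, ← Finset.sum_fiberwise_of_maps_to (g := l) (t := s.image l)
        (fun i hi => Finset.mem_image_of_mem l hi), Finset.mul_sum]
      refine Finset.sum_congr rfl fun j _ => ?_
      rw [Finset.mul_sum, Finset.mul_sum, Finset.mul_sum, Finset.mul_sum]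
      refine Finset.sum_congr rfl fun i hi => ?_
      rw [(Finset.mem_filter.mp hi).2]
      have : (2 : ℝ) ^ j * (1 / 4) ^ j = (1 / 2) ^ j := by
        rw [← mul_pow]; norm_num
      rw [← this, pow_succ]
      ring
    rw [← e2]
    exact hl.of_le fun z => by rw [e1 z]
  have w := ((((w2 b).sub (w2 a)).add w1).add ((w3 a).sub (w3 b))).of_le
    (g := fun z => ∑ i ∈ s, c i * (kap F₀ F₁ (a i) z - kap F₀ F₁ (b i) z)) fun z => by
      apply le_of_eq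
      congr 1
      simp only [← Finset.sum_sub_distrib, ← Finset.sum_add_distrib]
      refine Finset.sum_congr rfl fun i _ => ?_
      unfold kap
      ring
  refine w.mono ?_
  nlinarith [mul_nonneg hC.le hm0]

open Classical in
theorem one_functional {W : Set ℂ} (hW : IsOpen W) {F₀ F₁ : ℂ → ℂ} (h₀ : Continuous F₀)
    (h₁ : Continuous F₁) (hd : ∀ ζ ∈ W, HasDerivAt F₀ (F₁ ζ) ζ) (p : ℂ) (r : ℝ) (hr : 0 < r) :
    ∃ (L : (ℂ → ℂ) →ₗ[ℂ] ℂ) (M : ℝ), 0 ≤ M ∧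
      (∀ g, Integrable g (volume.restrict (closedBall p (3 * r) \ ball p r)) →
        ‖L g‖ ≤ M * ∫ z in closedBall p (3 * r) \ ball p r, ‖g z‖) ∧
      (∀ ζ ∈ ball p r, L (fun z => (ζ - z)⁻¹) = 1) ∧
      (∀ ζ ∉ closedBall p (3 * r), L (fun z => (ζ - z)⁻¹) = 0) ∧
      ∀ j : ℕ, ∃ δ > 0, ∀ ζ ∈ W ∩ closedBall p (4 * r), ∀ ζ' ∈ W ∩ closedBall p (4 * r),
        dist ζ ζ' ≤ δ → ‖L (kap F₀ F₁ ζ) - L (kap F₀ F₁ ζ')‖ ≤ M * (1 / 2) ^ j := by
  set A := closedBall p (3 * r) \ ball p r with hAdef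
  set Q := closedBall p (4 * r) with hQdef
  have hA : MeasurableSet A := measurableSet_closedBall.diff measurableSet_ball
  have hQ : IsCompact Q := isCompact_closedBall _ _
  have hAQ : A ⊆ Q := sdiff_subset.trans (closedBall_subset_closedBall (by linarith))
  have hfin : IsFiniteMeasure (volume.restrict A) :=
    isFiniteMeasure_restrict.mpr ((measure_mono hAQ).trans_lt hQ.measure_lt_top).ne
  have hμ : ∀ᵐ z ∂(volume.restrict A), z ∈ closedBall p (3 * r) \ ball p r := ae_restrict_mem hA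
  choose P δ hδ hP hPi hPu using fun j : ℕ =>
    one_levels h₀ h₁ hA hQ (convex_closedBall _ _) hAQ ((1 / 4) ^ j) (by positivity)
  obtain ⟨C, hC, hrough⟩ := one_rough
  have hκ : ∀ ζ ∈ W, IntegrableOn (kap F₀ F₁ ζ) A := fun ζ hζ =>
    (one_holo hW h₀ h₁ hd hA hQ hAQ 0 0 (fun g _ => by simp) hζ).1
  let T₁ := {ζ : ℂ // ζ ∈ ball p r ∨ ζ ∉ closedBall p (3 * r)}
  let T₂ := {x : ℕ × ℂ × ℂ // x.2.1 ∈ W ∩ Q ∧ x.2.2 ∈ W ∩ Q ∧ dist x.2.1 x.2.2 ≤ δ x.1}
  let κ : T₁ ⊕ T₂ → ℂ → ℂ := Sum.elim (fun ζ z => (ζ.1 - z)⁻¹)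
    (fun x z => kap F₀ F₁ x.1.2.1 z - kap F₀ F₁ x.1.2.2 z)
  let y : T₁ ⊕ T₂ → ℂ := Sum.elim (fun ζ => if ζ.1 ∈ ball p r then 1 else 0) (fun _ => 0)
  let w : T₁ ⊕ T₂ → ℝ := Sum.elim (fun _ => 0) (fun x => (1 / 2) ^ x.1.1)
  have hκi : ∀ t, Integrable (κ t) (volume.restrict A) := by
    rintro (ζ | x)
    · exact pole_integrable p r hr _ hμ ζ.1 ζ.2
    · exact (hκ _ x.2.1.1).sub (hκ _ x.2.2.1.1)
  have hw : ∀ t, 0 ≤ w t := by
    rintro (ζ | x)
    · exact le_rfl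
    · show (0 : ℝ) ≤ (1 / 2) ^ x.1.1
      positivity
  set M := 12 * (1 + C) / r with hM
  have hM0 : 0 ≤ M := by positivity
  obtain ⟨L, hL, hLt⟩ := hb (volume.restrict A) κ hκi y w hw M hM0 (by
    intro s c
    set h := ∫ z in A, ‖∑ t ∈ s, c t * κ t z‖ with hh
    set m := ∑ x ∈ s.toRight, ‖c (Sum.inr x)‖ * (1 / 2 : ℝ) ^ x.1.1 with hm
    have hh0 : 0 ≤ h := integral_nonneg fun z => norm_nonneg _
    have hm0 : 0 ≤ m := Finset.sum_nonneg fun i _ => by positivity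
    have e1 : ∑ t ∈ s, ‖c t‖ * w t = m := by
      rw [Finset.sum_sum_eq_sum_toLeft_add_sum_toRight]
      simp [w, hm]
    have e2 : ∑ t ∈ s, c t * y t =
        ∑ ζ ∈ s.toLeft, c (Sum.inl ζ) * (if ζ.1 ∈ ball p r then 1 else 0) := by
      rw [Finset.sum_sum_eq_sum_toLeft_add_sum_toRight]
      simp [y]
    have w1 : Wk (volume.restrict A) (fun z => ∑ t ∈ s, c t * κ t z) h :=
      Wk.of_integrable (integrable_finsetSum s fun t _ => (hκi t).const_mul (c t))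
    have w2 := hrough P hP s.toRight (fun x => c (Sum.inr x)) (fun x => x.1.2.1)
      (fun x => x.1.2.2) (fun x => x.1.1) (fun x _ => hPi _ _ x.2.1.2)
      (fun x _ => hPi _ _ x.2.2.1.2) (fun x _ => hPu _ _ x.2.1.2 _ x.2.2.1.2 x.2.2.2)
    have w3 : Wk (volume.restrict A) (fun z => ∑ ζ ∈ s.toLeft, c (Sum.inl ζ) * (ζ.1 - z)⁻¹)
        (2 * (h + C * m)) := by
      refine (w1.sub w2).of_le fun z => le_of_eq ?_
      congr 1
      rw [Finset.sum_sum_eq_sum_toLeft_add_sum_toRight]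
      simp [κ]
    have hper := period p r hr s.toLeft (fun ζ => c (Sum.inl ζ)) (fun ζ => ζ.1)
      (fun ζ _ => ζ.2) (3 * (2 * (h + C * m)) / r ^ 2) (by
        intro z₀ hz₀
        obtain ⟨hsub, hdc⟩ := poles_diffContOnCl p r hr s.toLeft (fun ζ => c (Sum.inl ζ))
          (fun ζ => ζ.1) (fun ζ _ => ζ.2) z₀ hz₀
        refine weak_point _ z₀ r _ hr w3.1 hdc fun lam hl => le_trans ?_ (w3.2 lam hl)
        rw [Measure.restrict_apply' hA]
        exact measure_mono fun z hz => ⟨hz.2, hsub hz.1⟩)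
    rw [e1, e2]
    refine hper.trans ?_
    have e3 : 2 * r * (3 * (2 * (h + C * m)) / r ^ 2) = 12 * (h + C * m) / r := by
      field_simp
      ring
    rw [e3, hM, div_mul_eq_mul_div]
    apply div_le_div_of_nonneg_right _ hr.le
    nlinarith [mul_nonneg hC.le hh0])
  refine ⟨L, M, hM0, hL, fun ζ hζ => ?_, fun ζ hζ => ?_, fun j => ⟨δ j, hδ j, ?_⟩⟩
  · have : ‖L (fun z => (ζ - z)⁻¹) - (if ζ ∈ ball p r then 1 else 0)‖ ≤ M * 0 :=
      hLt (Sum.inl ⟨ζ, Or.inl hζ⟩)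
    rwa [if_pos hζ, mul_zero, norm_le_zero_iff, sub_eq_zero] at this
  · have h2 : ζ ∉ ball p r := fun h =>
      hζ (ball_subset_closedBall.trans (closedBall_subset_closedBall (by linarith)) h)
    have : ‖L (fun z => (ζ - z)⁻¹) - (if ζ ∈ ball p r then 1 else 0)‖ ≤ M * 0 :=
      hLt (Sum.inl ⟨ζ, Or.inr hζ⟩)
    rwa [if_neg h2, mul_zero, norm_le_zero_iff, sub_eq_zero] at this
  · intro ζ hζ ζ' hζ' hdist
    have : ‖L (kap F₀ F₁ ζ - kap F₀ F₁ ζ') - 0‖ ≤ M * (1 / 2) ^ j :=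
      hLt (Sum.inr ⟨(j, ζ, ζ'), hζ, hζ', hdist⟩)
    rwa [sub_zero, map_sub] at this

theorem core_one (W : Set ℂ) (hW : IsOpen W) (F : ℕ → ℂ → ℂ) (hF : Jet 1 W F) (p : ℂ) (r : ℝ)
    (hr : 0 < r) : Core 1 W (F 0) p r := by
  have h₀ : Continuous (F 0) := hF.1 0 (by norm_num)
  have h₁ : Continuous (F 1) := hF.1 1 le_rfl
  have hd : ∀ ζ ∈ W, HasDerivAt (F 0) (F 1 ζ) ζ := by
    intro ζ hζ
    rw [hF.2.2 1 le_rfl hζ, iteratedDeriv_one]
    exact (hF.2.1.differentiableAt (hW.mem_nhds hζ)).hasDerivAt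
  obtain ⟨L, M, hM, hL, hin, hout, hu⟩ := one_functional hW h₀ h₁ hd p r hr
  set A := closedBall p (3 * r) \ ball p r with hAdef
  set Q := closedBall p (4 * r) with hQdef
  have hA : MeasurableSet A := measurableSet_closedBall.diff measurableSet_ball
  have hQ : IsCompact Q := isCompact_closedBall _ _
  have hAQ : A ⊆ Q := sdiff_subset.trans (closedBall_subset_closedBall (by linarith))
  have hfin : IsFiniteMeasure (volume.restrict A) :=
    isFiniteMeasure_restrict.mpr ((measure_mono hAQ).trans_lt hQ.measure_lt_top).ne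
  obtain ⟨ho, hi⟩ := outer_inner p r hr (volume.restrict A) (ae_restrict_mem hA) L M hL hin hout
    (F 0) h₀
  set G : ℂ → ℂ := fun ζ => L (fun z => (F 0 ζ - F 0 z) / (ζ - z)) with hG
  have hGd : ∀ ζ ∈ W, HasDerivAt G (L (kap (F 0) (F 1) ζ)) ζ := fun ζ hζ =>
    (one_holo hW h₀ h₁ hd hA hQ hAQ L M hL hζ).2
  have hball : ∀ q ∈ closedBall p (3 * r), ball q r ⊆ Q := fun q hq =>
    ball_subset_closedBall.trans (closedBall_subset_closedBall' (by
      have : dist q p ≤ 3 * r := hq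
      linarith))
  refine ⟨G, fun ζ => F 0 ζ - G ζ, ?_, ?_, fun z _ => by ring, ?_⟩
  · rintro ζ (hζ | hζ)
    · exact (hGd ζ hζ).differentiableAt.differentiableWithinAt
    · exact (ho.differentiableAt
        (isClosed_closedBall.isOpen_compl.mem_nhds hζ)).differentiableWithinAt
  · rintro ζ (hζ | hζ)
    · exact ((hd ζ hζ).sub (hGd ζ hζ)).differentiableAt.differentiableWithinAt
    · exact (hi.differentiableAt (isOpen_ball.mem_nhds hζ)).differentiableWithinAt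
  · intro j hj q hq hq3
    interval_cases j
    · rw [iteratedDeriv_zero]
      obtain ⟨B, hB⟩ := hQ.exists_bound_of_continuousOn h₀.continuousOn
      obtain ⟨hint, hunif⟩ := l1_unif A Q hA (hQ.isBounded.subset hAQ) hQ
        (fun ζ z => (F 0 ζ - F 0 z) / (ζ - z)) (2 * B)
        (by
          intro ζ hζ z hz _
          rw [norm_div, div_eq_mul_inv]
          refine mul_le_mul_of_nonneg_right ?_ (by positivity)
          linarith [norm_sub_le (F 0 ζ) (F 0 z), hB ζ hζ, hB z (hAQ hz)])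
        (ContinuousOn.div (by fun_prop) (by fun_prop) fun x hx => sub_ne_zero.mpr hx)
      refine wk_lim hq fun ε hε => ?_
      obtain ⟨δ, hδ, hh⟩ := hunif (ε / (M + 1)) (by positivity)
      refine ⟨min (δ / 2) r, by positivity, fun ζ hζ ζ' hζ' => ?_⟩
      have a1 : ζ ∈ Q := hball q hq3 (ball_subset_ball (min_le_right _ _) hζ.2)
      have a2 : ζ' ∈ Q := hball q hq3 (ball_subset_ball (min_le_right _ _) hζ'.2)
      have a3 : dist ζ ζ' ≤ δ := by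
        have b1 : dist ζ q < δ / 2 := lt_of_lt_of_le hζ.2 (min_le_left _ _)
        have b2 : dist ζ' q < δ / 2 := lt_of_lt_of_le hζ'.2 (min_le_left _ _)
        linarith [dist_triangle_right ζ ζ' q]
      have a4 := hL _ ((hint ζ a1).sub (hint ζ' a2))
      rw [map_sub] at a4
      refine a4.trans ((mul_le_mul_of_nonneg_left (hh ζ a1 ζ' a2 a3) hM).trans ?_)
      rw [← mul_div_assoc, div_le_iff₀ (by positivity)]
      nlinarith
    · have hlim : ∃ y, Tendsto (fun ζ => L (kap (F 0) (F 1) ζ)) (𝓝[W] q) (𝓝 y) := by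
        refine wk_lim hq fun ε hε => ?_
        obtain ⟨j, hj⟩ := exists_pow_lt_of_lt_one (show 0 < ε / (M + 1) by positivity)
          (show (1 / 2 : ℝ) < 1 by norm_num)
        obtain ⟨δ, hδ, hh⟩ := hu j
        refine ⟨min (δ / 2) r, by positivity, fun ζ hζ ζ' hζ' => ?_⟩
        have a1 : ζ ∈ Q := hball q hq3 (ball_subset_ball (min_le_right _ _) hζ.2)
        have a2 : ζ' ∈ Q := hball q hq3 (ball_subset_ball (min_le_right _ _) hζ'.2)
        have a3 : dist ζ ζ' ≤ δ := by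
          have b1 : dist ζ q < δ / 2 := lt_of_lt_of_le hζ.2 (min_le_left _ _)
          have b2 : dist ζ' q < δ / 2 := lt_of_lt_of_le hζ'.2 (min_le_left _ _)
          linarith [dist_triangle_right ζ ζ' q]
        refine (hh ζ ⟨hζ.1, a1⟩ ζ' ⟨hζ'.1, a2⟩ a3).trans
          ((mul_le_mul_of_nonneg_left hj.le hM).trans ?_)
        rw [← mul_div_assoc, div_le_iff₀ (by positivity)]
        nlinarith
      obtain ⟨y, hy⟩ := hlim
      refine ⟨y, hy.congr' ?_⟩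
      filter_upwards [self_mem_nhdsWithin] with ζ hζ
      rw [iteratedDeriv_one, (hGd ζ hζ).deriv]

end Pool.Agent.MP_d32a63_an.H82
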