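import Pool.Agent.MP_d32a63_an.H82.Basic
import Pool.Agent.MP_d32a63_an.H82.Jensen
import Pool.Agent.MP_d32a63_an.H82.Kernel

open Set Filter Topology MeasureTheory Metric Complex

namespace Pool.Agent.MP_d32a63_an.H82

/-- The recursive kernels. -/
noncomputable def thinK (a : ℕ → ℂ) (b u : ℂ) : ℕ → ℂ
  | 0 => (a 0 - b) / u
  | j + 1 => (a (j + 1) - ((j : ℂ) + 1) * thinK a b u j) / u

theorem thin_hasDerivAt {W : Set ℂ} (hW : IsOpen W) {g : ℂ → ℂ} (hg : DifferentiableOn ℂ g W)
    (j : ℕ) {ζ : ℂ} (hζ : ζ ∈ W) :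
    HasDerivAt (iteratedDeriv j g) (iteratedDeriv (j + 1) g ζ) ζ := by
  have h1 : AnalyticAt ℂ (iteratedDeriv j g) ζ := by
    rw [iteratedDeriv_eq_iterate]
    exact ((hg.analyticOnNhd hW) ζ hζ).iterated_deriv j
  rw [iteratedDeriv_succ]
  exact h1.differentiableAt.hasDerivAt

theorem thin_leibniz {W : Set ℂ} (hW : IsOpen W) {f : ℂ → ℂ} (hf : DifferentiableOn ℂ f W)
    {z : ℂ} (hz : z ∈ W) (j : ℕ) : ∀ ζ ∈ W,
      (ζ - z) * iteratedDeriv (j + 1) (dslope f z) ζ + ((j : ℂ) + 1) *
        iteratedDeriv j (dslope f z) ζ = iteratedDeriv (j + 1) f ζ := by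
  have hg : DifferentiableOn ℂ (dslope f z) W :=
    (Complex.differentiableOn_dslope (hW.mem_nhds hz)).2 hf
  induction j with
  | zero =>
    intro ζ hζ
    have h1 := thin_hasDerivAt hW hg 0 hζ
    have h2 := thin_hasDerivAt hW hf 0 hζ
    simp only [iteratedDeriv_zero] at h1 h2
    have h3 := ((hasDerivAt_id ζ).sub_const z).mul h1
    have h5 : HasDerivAt (fun x => f x - f z) _ ζ := h3.congr_of_eventuallyEq
      (Eventually.of_forall fun x => by
        have := sub_smul_dslope f z x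
        simpa using this.symm)
    have h6 := h5.unique (h2.sub_const (f z))
    rw [← h6]
    simp
    ring
  | succ j ih =>
    intro ζ hζ
    have h1 := thin_hasDerivAt hW hg (j + 1) hζ
    have h1' := thin_hasDerivAt hW hg j hζ
    have h2 := thin_hasDerivAt hW hf (j + 1) hζ
    have h3 := (((hasDerivAt_id ζ).sub_const z).mul h1).add (h1'.const_mul ((j : ℂ) + 1))
    have h4 : iteratedDeriv (j + 1) f =ᶠ[𝓝 ζ] ((fun x => id x - z) *
        iteratedDeriv (j + 1) (dslope f z) +
          fun y => ((j : ℂ) + 1) * iteratedDeriv j (dslope f z) y) := by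
      filter_upwards [hW.mem_nhds hζ] with x hx
      rw [← ih x hx]
      simp
    have h5 := h3.congr_of_eventuallyEq h4
    have h6 := h5.unique h2
    rw [← h6]
    simp
    ring

theorem thin_eq_K {W : Set ℂ} (hW : IsOpen W) {f : ℂ → ℂ} (hf : DifferentiableOn ℂ f W)
    {z : ℂ} (hz : z ∈ W) {ζ : ℂ} (hζ : ζ ∈ W) (hne : ζ ≠ z) (j : ℕ) :
    iteratedDeriv j (dslope f z) ζ = thinK (fun i => iteratedDeriv i f ζ) (f z) (ζ - z) j := by
  have hu : ζ - z ≠ 0 := sub_ne_zero.2 hne
  induction j with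
  | zero =>
    simp only [iteratedDeriv_zero, thinK]
    rw [dslope_of_ne _ hne, slope_def_field]
  | succ j ih =>
    simp only [thinK]
    rw [← ih, ← thin_leibniz hW hf hz j ζ hζ]
    field_simp
    ring

theorem thinK_congr {a a' : ℕ → ℂ} (b u : ℂ) (j : ℕ) (h : ∀ i ≤ j, a i = a' i) :
    thinK a b u j = thinK a' b u j := by
  induction j with
  | zero => simp only [thinK, h 0 le_rfl]
  | succ j ih =>
    simp only [thinK, h (j + 1) le_rfl]
    rw [ih fun i hi => h i (Nat.le_succ_of_le hi)]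

theorem thinK_measurable (a : ℕ → ℂ) {f : ℂ → ℂ} (hf : Continuous f) (ζ : ℂ) (j : ℕ) :
    Measurable fun z => thinK a (f z) (ζ - z) j := by
  have hm := hf.measurable
  induction j with
  | zero =>
    simp only [thinK]
    exact (measurable_const.sub hm).div (measurable_const.sub measurable_id)
  | succ j ih =>
    simp only [thinK]
    exact (measurable_const.sub (measurable_const.mul ih)).div (measurable_const.sub measurable_id)

theorem thinK_continuousAt {F : ℕ → ℂ → ℂ} (b z q : ℂ) (hq : q ≠ z) (j : ℕ)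
    (h : ∀ i ≤ j, Continuous (F i)) :
    ContinuousAt (fun ζ => thinK (fun i => F i ζ) b (ζ - z) j) q := by
  have hu : q - z ≠ 0 := sub_ne_zero.2 hq
  induction j with
  | zero =>
    simp only [thinK]
    exact ((h 0 le_rfl).continuousAt.sub continuousAt_const).div
      (continuousAt_id.sub continuousAt_const) hu
  | succ j ih =>
    simp only [thinK]
    exact ((h (j + 1) le_rfl).continuousAt.sub (continuousAt_const.mul
      (ih fun i hi => h i (Nat.le_succ_of_le hi)))).div
      (continuousAt_id.sub continuousAt_const) hu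

theorem thinK_bound (B r : ℝ) (hB : 0 ≤ B) (j : ℕ) : ∃ C : ℝ, 0 ≤ C ∧
    ∀ (a : ℕ → ℂ) (b u : ℂ) (d : ℝ), 0 < d → d ≤ r → d / 4 ≤ ‖u‖ → (∀ i ≤ j, ‖a i‖ ≤ B) →
      ‖b‖ ≤ B → ‖thinK a b u j‖ ≤ C / d ^ (j + 1) := by
  induction j with
  | zero =>
    refine ⟨8 * B, by positivity, fun a b u d hd _ hu ha hb => ?_⟩
    simp only [thinK, norm_div, zero_add, pow_one]
    have h1 : ‖a 0 - b‖ ≤ 2 * B := by
      have := norm_sub_le (a 0) b
      have := ha 0 le_rfl
      linarith
    calc ‖a 0 - b‖ / ‖u‖ ≤ 2 * B / (d / 4) := by gcongr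
      _ = 8 * B / d := by field_simp; ring
  | succ j ih =>
    obtain ⟨C, hC, h⟩ := ih
    refine ⟨4 * (B * |r| ^ (j + 1) + (j + 1) * C), by positivity,
      fun a b u d hd hdr hu ha hb => ?_⟩
    have h0 := h a b u d hd hdr hu (fun i hi => ha i (Nat.le_succ_of_le hi)) hb
    simp only [thinK, norm_div]
    have hdr' : d ≤ |r| := hdr.trans (le_abs_self r)
    have h2 : B ≤ B * |r| ^ (j + 1) / d ^ (j + 1) := by
      rw [le_div_iff₀ (by positivity)]
      gcongr
    have h1 : ‖a (j + 1) - ((j : ℂ) + 1) * thinK a b u j‖ ≤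
        (B * |r| ^ (j + 1) + (j + 1) * C) / d ^ (j + 1) := by
      have h3 := norm_sub_le (a (j + 1)) (((j : ℂ) + 1) * thinK a b u j)
      have h4 := ha (j + 1) le_rfl
      have h5 : ‖((j : ℂ) + 1) * thinK a b u j‖ ≤ (j + 1) * (C / d ^ (j + 1)) := by
        rw [norm_mul]
        have : ‖(j : ℂ) + 1‖ = (j : ℝ) + 1 := by
          have : ((j : ℂ) + 1) = ((j + 1 : ℕ) : ℂ) := by push_cast; rfl
          rw [this, Complex.norm_natCast]; push_cast; rfl
        rw [this]
        gcongr
      rw [add_div, mul_div_assoc ((j : ℝ) + 1)]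
      linarith
    calc _ ≤ (B * |r| ^ (j + 1) + (j + 1) * C) / d ^ (j + 1) / (d / 4) := by gcongr
      _ = _ := by field_simp; ring

theorem thin_bound {n : ℕ} {W : Set ℂ} (hW : IsOpen W) {F : ℕ → ℂ → ℂ} (hF : Jet n W F) (p : ℂ)
    (r : ℝ) (j : ℕ) (hj : j ≤ n) : ∃ C : ℝ, ∀ (z : ℂ) (d : ℝ), 0 < d → d ≤ r →
      z ∈ closedBall p (3 * r) → ball z d ⊆ W → ∀ ζ ∈ W ∩ ball p (4 * r),
        ‖iteratedDeriv j (dslope (F 0) z) ζ‖ ≤ C / d ^ (n + 1) := by
  obtain ⟨B, hB0, hB⟩ : ∃ B : ℝ, 0 ≤ B ∧ ∀ i ≤ n, ∀ x ∈ closedBall p (5 * r), ‖F i x‖ ≤ B := by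
    have : ∀ i, i ≤ n → ∃ B : ℝ, ∀ x ∈ closedBall p (5 * r), ‖F i x‖ ≤ B := fun i hi =>
      (isCompact_closedBall p (5 * r)).exists_bound_of_continuousOn (hF.1 i hi).continuousOn
    choose! B hB using this
    refine ⟨∑ i ∈ Finset.range (n + 1), |B i|, Finset.sum_nonneg fun i _ => abs_nonneg _,
      fun i hi x hx => (hB i hi x hx).trans ((le_abs_self _).trans ?_)⟩
    exact Finset.single_le_sum (f := fun i => |B i|) (fun i _ => abs_nonneg _)
      (Finset.mem_range.2 (Nat.lt_succ_of_le hi))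
  obtain ⟨C, hC, h⟩ := thinK_bound B r hB0 j
  refine ⟨(C + j.factorial * (8 * B) * 2 ^ j) * |r| ^ (n - j), fun z d hd hdr hz hball ζ hζ => ?_⟩
  have hr : 0 < r := hd.trans_le hdr
  have hzW : z ∈ W := hball (mem_ball_self hd)
  have hz5 : z ∈ closedBall p (5 * r) := closedBall_subset_closedBall (by linarith) hz
  have key : ‖iteratedDeriv j (dslope (F 0) z) ζ‖ ≤
      (C + j.factorial * (8 * B) * 2 ^ j) / d ^ (j + 1) := by
    rcases le_or_gt (d / 4) ‖ζ - z‖ with hu | hu
    · have hne : ζ ≠ z := by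
        rintro rfl
        simp at hu
        linarith
      rw [thin_eq_K hW hF.2.1 hzW hζ.1 hne]
      refine (h _ _ _ d hd hdr hu (fun i hi => ?_) (hB 0 (Nat.zero_le n) z hz5)).trans ?_
      · rw [← hF.2.2 i (hi.trans hj) hζ.1]
        exact hB i (hi.trans hj) ζ (closedBall_subset_closedBall (by linarith)
          (ball_subset_closedBall hζ.2))
      · gcongr
        have : (0 : ℝ) ≤ j.factorial * (8 * B) * 2 ^ j := by positivity
        linarith
    · have hg : DifferentiableOn ℂ (dslope (F 0) z) W :=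
        (Complex.differentiableOn_dslope (hW.mem_nhds hzW)).2 hF.2.1
      have hsub : closedBall ζ (d / 2) ⊆ ball z d := by
        intro x hx
        rw [mem_closedBall, dist_eq_norm] at hx
        rw [mem_ball, dist_eq_norm]
        have := norm_add_le (x - ζ) (ζ - z)
        rw [sub_add_sub_cancel] at this
        linarith
      have hdc : DiffContOnCl ℂ (dslope (F 0) z) (ball ζ (d / 2)) := by
        refine DifferentiableOn.diffContOnCl ?_
        rw [closure_ball ζ (by linarith)]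
        exact hg.mono (hsub.trans hball)
      have hc := Complex.norm_iteratedDeriv_le_of_forall_mem_sphere_norm_le (C := 8 * B / d) j
        (by linarith : 0 < d / 2) hdc (fun x hx => by
          have hx' := hsub (sphere_subset_closedBall hx)
          rw [mem_sphere, dist_eq_norm] at hx
          have h1 : d / 4 ≤ ‖x - z‖ := by
            have := norm_sub_le (x - z) (ζ - z)
            rw [sub_sub_sub_cancel_right] at this
            linarith
          have hne : x ≠ z := by
            rintro rfl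
            simp at h1
            linarith
          rw [dslope_of_ne _ hne, slope_def_field, norm_div]
          have hx5 : x ∈ closedBall p (5 * r) := by
            rw [mem_closedBall] at hz ⊢
            rw [mem_ball] at hx'
            have := dist_triangle x z p
            linarith
          have h2 : ‖F 0 x - F 0 z‖ ≤ 2 * B := by
            have := norm_sub_le (F 0 x) (F 0 z)
            have := hB 0 (Nat.zero_le n) x hx5
            have := hB 0 (Nat.zero_le n) z hz5
            linarith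
          calc ‖F 0 x - F 0 z‖ / ‖x - z‖ ≤ 2 * B / (d / 4) := by gcongr
            _ = 8 * B / d := by field_simp; ring)
      refine hc.trans ?_
      have : (j.factorial : ℝ) * (8 * B / d) / (d / 2) ^ j =
          (j.factorial * (8 * B) * 2 ^ j) / d ^ (j + 1) := by
        rw [div_pow]
        field_simp
        ring
      rw [this]
      gcongr
      linarith
  refine key.trans ?_
  have hdr' : d ≤ |r| := hdr.trans (le_abs_self r)
  have he : d ^ (n + 1) = d ^ (j + 1) * d ^ (n - j) := by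
    rw [← pow_add]
    congr 1
    omega
  rw [div_le_div_iff₀ (by positivity) (by positivity), he]
  have h1 : d ^ (n - j) ≤ |r| ^ (n - j) := by gcongr
  have h2 : (0 : ℝ) ≤ C + j.factorial * (8 * B) * 2 ^ j := by positivity
  calc (C + j.factorial * (8 * B) * 2 ^ j) * (d ^ (j + 1) * d ^ (n - j))
      ≤ (C + j.factorial * (8 * B) * 2 ^ j) * (d ^ (j + 1) * |r| ^ (n - j)) := by gcongr
    _ = _ := by ring

/-- The truncated distance. -/
noncomputable def thinD (T : Set ℂ) (r : ℝ) (z : ℂ) : ℝ := min (infDist z T) r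

theorem thinD_continuous (T : Set ℂ) (r : ℝ) : Continuous (thinD T r) :=
  (continuous_infDist_pt T).min continuous_const

theorem thinD_nonneg (T : Set ℂ) {r : ℝ} (hr : 0 < r) (z : ℂ) : 0 ≤ thinD T r z :=
  le_min infDist_nonneg hr.le

theorem thinD_le (T : Set ℂ) (r : ℝ) (z : ℂ) : thinD T r z ≤ r := min_le_right _ _

theorem thinD_pos {T : Set ℂ} (hT : IsClosed T) (hne : T.Nonempty) {r : ℝ} (hr : 0 < r) {z : ℂ}
    (hz : z ∉ T) : 0 < thinD T r z :=
  lt_min ((hT.notMem_iff_infDist_pos hne).1 hz) hr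

/-- The weight. -/
noncomputable def thinW (n : ℕ) (T : Set ℂ) (r : ℝ) (z : ℂ) : NNReal :=
  Real.toNNReal (thinD T r z ^ (n + 1))

theorem thinW_measurable (n : ℕ) (T : Set ℂ) (r : ℝ) : Measurable (thinW n T r) :=
  (continuous_real_toNNReal.comp ((thinD_continuous T r).pow (n + 1))).measurable

theorem thinW_coe (n : ℕ) (T : Set ℂ) {r : ℝ} (hr : 0 < r) (z : ℂ) :
    (thinW n T r z : ℝ) = thinD T r z ^ (n + 1) :=
  Real.coe_toNNReal _ (pow_nonneg (thinD_nonneg T hr z) _)

/-- The weighted area measure on the annulus. -/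
noncomputable def thinMu (n : ℕ) (T : Set ℂ) (p : ℂ) (r : ℝ) : Measure ℂ :=
  (volume.restrict (closedBall p (3 * r) \ ball p r)).withDensity fun z => thinW n T r z

theorem thin_measA (p : ℂ) (r : ℝ) : MeasurableSet (closedBall p (3 * r) \ ball p r) :=
  measurableSet_closedBall.diff measurableSet_ball

theorem thin_volA (p : ℂ) (r : ℝ) : volume (closedBall p (3 * r) \ ball p r) < ⊤ :=
  (measure_mono sdiff_subset).trans_lt measure_closedBall_lt_top

theorem thin_integrable_iff (n : ℕ) (T : Set ℂ) (p : ℂ) {r : ℝ} (hr : 0 < r) (g : ℂ → ℝ) :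
    Integrable g (thinMu n T p r) ↔
      IntegrableOn (fun z => g z * thinD T r z ^ (n + 1)) (closedBall p (3 * r) \ ball p r) := by
  rw [thinMu, integrable_withDensity_iff_integrable_smul (thinW_measurable n T r), IntegrableOn]
  simp only [NNReal.smul_def, thinW_coe n T hr, smul_eq_mul, mul_comm]

theorem thin_integral (n : ℕ) (T : Set ℂ) (p : ℂ) {r : ℝ} (hr : 0 < r) (g : ℂ → ℝ) :
    ∫ z, g z ∂(thinMu n T p r) =
      ∫ z in closedBall p (3 * r) \ ball p r, g z * thinD T r z ^ (n + 1) := by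
  rw [thinMu, integral_withDensity_eq_integral_smul (thinW_measurable n T r)]
  simp only [NNReal.smul_def, thinW_coe n T hr, smul_eq_mul, mul_comm]

theorem thin_bdd_integrableOn (p : ℂ) (r : ℝ) {g : ℂ → ℝ} (hg : Measurable g) (C : ℝ)
    (h : ∀ z, |g z| ≤ C) : IntegrableOn g (closedBall p (3 * r) \ ball p r) :=
  Measure.integrableOn_of_bounded (thin_volA p r).ne hg.aestronglyMeasurable
    (Eventually.of_forall h)

theorem thin_weight_integrableOn (n : ℕ) (T : Set ℂ) (p : ℂ) {r : ℝ} (hr : 0 < r) :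
    IntegrableOn (fun z => thinD T r z ^ (n + 1)) (closedBall p (3 * r) \ ball p r) := by
  refine thin_bdd_integrableOn p r ((thinD_continuous T r).pow (n + 1)).measurable (r ^ (n + 1))
    fun z => ?_
  rw [abs_of_nonneg (pow_nonneg (thinD_nonneg T hr z) _)]
  exact pow_le_pow_left₀ (thinD_nonneg T hr z) (thinD_le T r z) _

theorem thin_finite (n : ℕ) (T : Set ℂ) (p : ℂ) {r : ℝ} (hr : 0 < r) :
    IsFiniteMeasure (thinMu n T p r) := by
  have h : Integrable (fun _ => (1 : ℝ)) (thinMu n T p r) := by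
    rw [thin_integrable_iff n T p hr]
    simpa using thin_weight_integrableOn n T p hr
  rcases integrable_const_iff.1 h with h | h
  · exact absurd h one_ne_zero
  · exact h

theorem thin_ae (n : ℕ) {T : Set ℂ} (h0 : volume T = 0) (p : ℂ) (r : ℝ) (q : ℂ) :
    ∀ᵐ z ∂(thinMu n T p r), z ∈ closedBall p (3 * r) \ ball p r ∧ z ∉ T ∧ z ≠ q := by
  refine (withDensity_absolutelyContinuous _ _).ae_le ?_
  have h1 : ∀ᵐ z ∂(volume : Measure ℂ), z ∉ T := measure_eq_zero_iff_ae_notMem.1 h0
  have h2 : ∀ᵐ z ∂(volume : Measure ℂ), z ≠ q := by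
    have : (volume : Measure ℂ) {q} = 0 := measure_singleton q
    filter_upwards [measure_eq_zero_iff_ae_notMem.1 this] with z hz using hz
  filter_upwards [ae_restrict_mem (thin_measA p r), ae_restrict_of_ae h1, ae_restrict_of_ae h2]
    with z a b c using ⟨a, b, c⟩

theorem thin_inv_integrable (n : ℕ) (T : Set ℂ) (p : ℂ) {r : ℝ} (hr : 0 < r) (C : ℝ) :
    Integrable (fun z => C / thinD T r z ^ (n + 1)) (thinMu n T p r) := by
  rw [thin_integrable_iff n T p hr]
  have hm := ((thinD_continuous T r).pow (n + 1)).measurable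
  refine thin_bdd_integrableOn p r ((measurable_const.div hm).mul hm) |C| fun z => ?_
  by_cases h : thinD T r z ^ (n + 1) = 0
  · simp [h]
  · rw [div_mul_cancel₀ _ h]

theorem thin_log_integrableOn (n : ℕ) {T : Set ℂ} (p : ℂ) {r : ℝ}
    (hlog : IntegrableOn (fun z => Real.log (infDist z T)) (closedBall p (3 * r))) :
    IntegrableOn (fun z => Real.log (thinD T r z ^ (n + 1)))
      (closedBall p (3 * r) \ ball p r) := by
  simp only [Real.log_pow]
  refine Integrable.const_mul ?_ _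
  have h1 : IntegrableOn (fun z => |Real.log (infDist z T)| + |Real.log r|)
      (closedBall p (3 * r) \ ball p r) :=
    (hlog.mono_set sdiff_subset).abs.add (integrableOn_const (thin_volA p r).ne)
  refine Integrable.mono' h1 ((Real.measurable_log.comp
    (thinD_continuous T r).measurable).aestronglyMeasurable) (Eventually.of_forall fun z => ?_)
  rw [Real.norm_eq_abs, thinD]
  rcases min_choice (infDist z T) r with h | h <;> rw [h]
  · linarith [abs_nonneg (Real.log r)]
  · linarith [abs_nonneg (Real.log (infDist z T))]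

theorem thin_functional (n : ℕ) (p : ℂ) (r : ℝ) (hr : 0 < r) (T : Set ℂ) (hT : IsClosed T)
    (hne : T.Nonempty) (h0 : volume T = 0)
    (hlog : IntegrableOn (fun z => Real.log (infDist z T)) (closedBall p (3 * r))) :
    ∃ (L : (ℂ → ℂ) →ₗ[ℂ] ℂ) (M : ℝ),
      (∀ g, Integrable g (thinMu n T p r) → ‖L g‖ ≤ M * ∫ z, ‖g z‖ ∂(thinMu n T p r)) ∧
      (∀ ζ ∈ ball p r, L (fun z => (ζ - z)⁻¹) = 1) ∧
      (∀ ζ ∉ closedBall p (3 * r), L (fun z => (ζ - z)⁻¹) = 0) := by
  classical
  have := thin_finite n T p hr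
  have hμ : ∀ᵐ z ∂(thinMu n T p r), z ∈ closedBall p (3 * r) \ ball p r := by
    filter_upwards [thin_ae n h0 p r 0] with z hz using hz.1
  set E : ℝ := Real.exp ((∫ z in closedBall p (3 * r) \ ball p r,
    |Real.log (thinD T r z ^ (n + 1))|) / (Real.pi * r ^ 2)) with hE
  have hE0 : 0 ≤ E := (Real.exp_pos _).le
  have hπ : 0 < Real.pi * r ^ 2 := by positivity
  obtain ⟨L, hL, hy⟩ := hb (T := {ζ : ℂ // ζ ∈ ball p r ∨ ζ ∉ closedBall p (3 * r)})
    (thinMu n T p r) (fun t z => (t.1 - z)⁻¹) (fun t => pole_integrable p r hr _ hμ t.1 t.2)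
    (fun t => if t.1 ∈ ball p r then 1 else 0) (fun _ => 0) (fun _ => le_rfl)
    (2 * r * (E / (Real.pi * r ^ 2))) (by positivity) (fun s c => by
      simp only [mul_zero, Finset.sum_const_zero, add_zero]
      have hint : Integrable (fun z => ‖∑ t ∈ s, c t * (t.1 - z)⁻¹‖) (thinMu n T p r) :=
        (integrable_finsetSum s fun t _ =>
          (pole_integrable p r hr _ hμ t.1 t.2).const_mul (c t)).norm
      rw [thin_integrable_iff n T p hr] at hint
      rw [thin_integral n T p hr, mul_assoc]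
      refine period p r hr s c (fun t => t.1) (fun t _ => t.2) _ fun z₀ hz₀ => ?_
      obtain ⟨hsub, hd⟩ := poles_diffContOnCl p r hr s c (fun t => t.1) (fun t _ => t.2) z₀ hz₀
      have hpos : ∀ᵐ z ∂(volume.restrict (ball z₀ r)), 0 < thinD T r z ^ (n + 1) := by
        filter_upwards [ae_restrict_of_ae (measure_eq_zero_iff_ae_notMem.1 h0)] with z hz
        exact pow_pos (thinD_pos hT hne hr hz) _
      have hl := thin_log_integrableOn n p hlog
      have h1 := weighted_point _ z₀ r (fun z => thinD T r z ^ (n + 1)) hr hd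
        ((thin_weight_integrableOn n T p hr).mono_set hsub) hpos (hl.mono_set hsub)
      refine h1.trans ?_
      have h2 : ∫ z in ball z₀ r, |Real.log (thinD T r z ^ (n + 1))| ≤
          ∫ z in closedBall p (3 * r) \ ball p r, |Real.log (thinD T r z ^ (n + 1))| :=
        setIntegral_mono_set hl.abs (Eventually.of_forall fun z => abs_nonneg _)
          hsub.eventuallyLE
      have h3 : ∫ z in ball z₀ r, ‖∑ t ∈ s, c t * (t.1 - z)⁻¹‖ * thinD T r z ^ (n + 1) ≤
          ∫ z in closedBall p (3 * r) \ ball p r,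
            ‖∑ t ∈ s, c t * (t.1 - z)⁻¹‖ * thinD T r z ^ (n + 1) :=
        setIntegral_mono_set hint (Eventually.of_forall fun z =>
          mul_nonneg (norm_nonneg _) (pow_nonneg (thinD_nonneg T hr z) _)) hsub.eventuallyLE
      have h4 : 0 ≤ ∫ z in ball z₀ r, ‖∑ t ∈ s, c t * (t.1 - z)⁻¹‖ * thinD T r z ^ (n + 1) :=
        integral_nonneg fun z => mul_nonneg (norm_nonneg _) (pow_nonneg (thinD_nonneg T hr z) _)
      rw [div_mul_eq_mul_div, mul_div_assoc, hE]
      gcongr)
  refine ⟨L, _, hL, fun ζ hζ => ?_, fun ζ hζ => ?_⟩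
  · have := hy ⟨ζ, Or.inl hζ⟩
    simp only [mul_zero, norm_le_zero_iff, sub_eq_zero, if_pos hζ] at this
    exact this
  · have := hy ⟨ζ, Or.inr hζ⟩
    have hζ' : ζ ∉ ball p r := fun h => hζ
      (closedBall_subset_closedBall (by linarith) (ball_subset_closedBall h))
    simp only [mul_zero, norm_le_zero_iff, sub_eq_zero, if_neg hζ'] at this
    exact this

theorem core_thin (n : ℕ) (W : Set ℂ) (hW : IsOpen W) (F : ℕ → ℂ → ℂ) (hF : Jet n W F) (p : ℂ)
    (r : ℝ) (hr : 0 < r) (T : Set ℂ) (hT : IsClosed T) (hne : T.Nonempty) (h0 : volume T = 0)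
    (hlog : IntegrableOn (fun z => Real.log (infDist z T)) (closedBall p (3 * r)))
    (hWT : ball p (5 * r) \ T ⊆ W) : Core n W (F 0) p r := by
  obtain ⟨L, M, hL, hin, hout⟩ := thin_functional n p r hr T hT hne h0 hlog
  have := thin_finite n T p hr
  set μ := thinMu n T p r with hμdef
  have hμ : ∀ᵐ z ∂μ, z ∈ closedBall p (3 * r) \ ball p r := by
    filter_upwards [thin_ae n h0 p r 0] with z hz using hz.1
  have hF0 : Continuous (F 0) := hF.1 0 (Nat.zero_le n)
  obtain ⟨hGout, hHin⟩ := outer_inner p r hr μ hμ L M hL hin hout (F 0) hF0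
  set G : ℂ → ℂ := fun ζ => L (fun z => (F 0 ζ - F 0 z) / (ζ - z)) with hG
  set k : ℕ → ℂ → ℂ → ℂ := fun j ζ z => iteratedDeriv j (dslope (F 0) z) ζ with hk
  have hU : IsOpen (W ∩ ball p (4 * r)) := hW.inter isOpen_ball
  have hgood : ∀ z ∈ closedBall p (3 * r), z ∉ T →
      0 < thinD T r z ∧ ball z (thinD T r z) ⊆ W ∧ z ∈ W := by
    intro z hz hzT
    have hd := thinD_pos hT hne hr hzT
    have hb : ball z (thinD T r z) ⊆ W := by
      intro x hx
      refine hWT ⟨?_, fun hxT => ?_⟩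
      · rw [mem_ball] at hx ⊢
        rw [mem_closedBall] at hz
        have := dist_triangle x z p
        have := thinD_le T r z
        linarith
      · have h1 : infDist z T ≤ dist z x := infDist_le_dist_of_mem hxT
        have h2 : thinD T r z ≤ infDist z T := min_le_left _ _
        rw [mem_ball, dist_comm] at hx
        linarith
    exact ⟨hd, hb, hb (mem_ball_self hd)⟩
  have hae : ∀ j, ∀ ζ ∈ W, k j ζ =ᵐ[μ]
      fun z => thinK (fun i => iteratedDeriv i (F 0) ζ) (F 0 z) (ζ - z) j := by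
    intro j ζ hζ
    filter_upwards [thin_ae n h0 p r ζ] with z hz
    exact thin_eq_K hW hF.2.1 (hgood z hz.1.1 hz.2.1).2.2 hζ hz.2.2.symm j
  have hmeas : ∀ j, ∀ ζ ∈ W, AEStronglyMeasurable (k j ζ) μ := fun j ζ hζ =>
    (thinK_measurable _ hF0 ζ j).aestronglyMeasurable.congr (hae j ζ hζ).symm
  have hbd : ∀ j ≤ n, ∃ B : ℂ → ℝ, Integrable B μ ∧
      ∀ᵐ z ∂μ, ∀ ζ ∈ W ∩ ball p (4 * r), ‖k j ζ z‖ ≤ B z := by
    intro j hj
    obtain ⟨C, hC⟩ := thin_bound hW hF p r j hj
    refine ⟨_, thin_inv_integrable n T p hr C, ?_⟩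
    filter_upwards [thin_ae n h0 p r 0] with z hz
    obtain ⟨h1, h2, -⟩ := hgood z hz.1.1 hz.2.1
    exact hC z _ h1 (thinD_le T r z) hz.1.1 h2
  have hder : ∀ j ≤ n, ∀ ζ₀ ∈ W ∩ ball p (4 * r),
      HasDerivAt (fun ζ => L (k j ζ)) (L (k (j + 1) ζ₀)) ζ₀ := by
    intro j hj ζ₀ hζ₀
    obtain ⟨B, hB, hBk⟩ := hbd j hj
    obtain ⟨η, hη, hsub⟩ := Metric.isOpen_iff.1 hU ζ₀ hζ₀
    refine (holo_family μ L M hL (k j) (k (j + 1) ζ₀) ζ₀ η hη B hB
      (fun ζ hζ => hmeas j ζ (hsub hζ).1) (hmeas (j + 1) ζ₀ hζ₀.1) ?_).2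
    filter_upwards [thin_ae n h0 p r 0, hBk] with z hz hzB
    have hg : DifferentiableOn ℂ (dslope (F 0) z) W :=
      (Complex.differentiableOn_dslope (hW.mem_nhds (hgood z hz.1.1 hz.2.1).2.2)).2 hF.2.1
    refine ⟨fun ζ hζ => ?_, fun ζ hζ => hzB ζ (hsub hζ), ?_⟩
    · exact (thin_hasDerivAt hW hg j (hsub hζ).1).differentiableAt.differentiableWithinAt
    · exact (thin_hasDerivAt hW hg j hζ₀.1).deriv
  have hG0 : G = fun ζ => L (k 0 ζ) := by
    funext ζ
    refine L_congr μ L M hL ?_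
    filter_upwards [thin_ae n h0 p r ζ] with z hz
    simp only [hk, iteratedDeriv_zero]
    rw [dslope_of_ne _ hz.2.2.symm, slope_def_field]
  have hGj : ∀ j ≤ n, ∀ ζ ∈ W ∩ ball p (4 * r), iteratedDeriv j G ζ = L (k j ζ) := by
    intro j
    induction j with
    | zero =>
      intro _ ζ _
      rw [iteratedDeriv_zero, hG0]
    | succ j ih =>
      intro hj ζ hζ
      have hj' : j ≤ n := Nat.le_of_succ_le hj
      rw [iteratedDeriv_succ, ← (hder j hj' ζ hζ).deriv]
      refine Filter.EventuallyEq.deriv_eq ?_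
      filter_upwards [hU.mem_nhds hζ] with x hx using ih hj' x hx
  have hGW : ∀ ζ ∈ W ∪ (closedBall p (3 * r))ᶜ, DifferentiableAt ℂ G ζ := by
    intro ζ hζ
    by_cases h3 : ζ ∈ closedBall p (3 * r)
    · have hζW : ζ ∈ W := hζ.resolve_right fun h => h h3
      rw [hG0]
      exact (hder 0 (Nat.zero_le n) ζ ⟨hζW, closedBall_subset_ball (by linarith) h3⟩).differentiableAt
    · exact hGout.differentiableAt (isClosed_closedBall.isOpen_compl.mem_nhds h3)
  refine ⟨G, fun ζ => F 0 ζ - G ζ, fun ζ hζ => (hGW ζ hζ).differentiableWithinAt,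
    fun ζ hζ => ?_, fun z _ => by ring, fun j hj q hq hq3 => ?_⟩
  · rcases hζ with hζ | hζ
    · exact ((hF.2.1.differentiableAt (hW.mem_nhds hζ)).sub
        (hGW ζ (Or.inl hζ))).differentiableWithinAt
    · exact (hHin.differentiableAt (isOpen_ball.mem_nhds hζ)).differentiableWithinAt
  · obtain ⟨B, hB, hBk⟩ := hbd j hj
    have : (𝓝[W] q).NeBot := mem_closure_iff_nhdsWithin_neBot.1 hq
    set K : ℂ → ℂ := fun z => thinK (fun i => F i q) (F 0 z) (q - z) j with hK
    have hKm : AEStronglyMeasurable K μ := (thinK_measurable _ hF0 q j).aestronglyMeasurable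
    have hev : ∀ᶠ ζ in 𝓝[W] q, ζ ∈ W ∩ ball p (4 * r) :=
      inter_mem_nhdsWithin W (isOpen_ball.mem_nhds (closedBall_subset_ball (by linarith) hq3))
    have hlim : ∀ᵐ z ∂μ, Tendsto (fun ζ => k j ζ z) (𝓝[W] q) (𝓝 (K z)) := by
      filter_upwards [thin_ae n h0 p r q] with z hz
      have h1 := (thinK_continuousAt (F := F) (F 0 z) z q hz.2.2.symm j
        (fun i hi => hF.1 i (hi.trans hj))).tendsto.mono_left (nhdsWithin_le_nhds (s := W))
      refine h1.congr' ?_
      have h2 : ∀ᶠ ζ in 𝓝[W] q, ζ ≠ z :=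
        nhdsWithin_le_nhds (isOpen_ne.mem_nhds hz.2.2.symm)
      filter_upwards [h2, self_mem_nhdsWithin] with ζ hζ hζW
      simp only [hk]
      rw [thin_eq_K hW hF.2.1 (hgood z hz.1.1 hz.2.1).2.2 hζW hζ j]
      exact thinK_congr _ _ j fun i hi => hF.2.2 i (hi.trans hj) hζW
    have hKB : ∀ᵐ z ∂μ, ‖K z‖ ≤ B z := by
      filter_upwards [hlim, hBk] with z h1 h2
      refine le_of_tendsto h1.norm ?_
      filter_upwards [hev] with ζ hζ using h2 ζ hζ
    have hKi : Integrable K μ := hB.mono' hKm hKB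
    have hki : ∀ ζ ∈ W ∩ ball p (4 * r), Integrable (k j ζ) μ := fun ζ hζ =>
      hB.mono' (hmeas j ζ hζ.1) (by filter_upwards [hBk] with z h using h ζ hζ)
    have hdom : Tendsto (fun ζ => ∫ z, ‖k j ζ z - K z‖ ∂μ) (𝓝[W] q) (𝓝 (∫ _, (0 : ℝ) ∂μ)) := by
      refine tendsto_integral_filter_of_dominated_convergence (fun z => B z + B z) ?_ ?_
        (hB.add hB) ?_
      · filter_upwards [hev] with ζ hζ using ((hmeas j ζ hζ.1).sub hKm).norm
      · filter_upwards [hev] with ζ hζ
        filter_upwards [hBk, hKB] with z h1 h2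
        rw [norm_norm]
        exact (norm_sub_le _ _).trans (add_le_add (h1 ζ hζ) h2)
      · filter_upwards [hlim] with z h1
        exact tendsto_iff_norm_sub_tendsto_zero.1 h1
    refine ⟨L K, ?_⟩
    rw [tendsto_iff_norm_sub_tendsto_zero]
    have h5 := hdom.const_mul M
    simp only [integral_zero, mul_zero] at h5
    refine squeeze_zero' (Eventually.of_forall fun _ => norm_nonneg _) ?_ h5
    filter_upwards [hev] with ζ hζ
    rw [hGj j hj ζ hζ, ← map_sub]
    exact hL _ ((hki ζ hζ).sub hKi)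

end Pool.Agent.MP_d32a63_an.H82
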