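import Mathlib

open Set Filter Topology MeasureTheory Metric

namespace Pool.Agent.MP_d32a63_an.H82

/-- `f` belongs to the class `A^n(S)`: holomorphic on `W = Sᶜ`, and each of the complex
derivatives of order `0, …, n` extends continuously to `W ∪ ∂S`. -/
def MemA (n : ℕ) (S : Set ℂ) (f : ℂ → ℂ) : Prop :=
  DifferentiableOn ℂ f Sᶜ ∧
    ∀ j ≤ n, ∃ F : ℂ → ℂ, ContinuousOn F (Sᶜ ∪ frontier S) ∧ EqOn F (iteratedDeriv j f) Sᶜ

/-- `A^n(S)` is trivial: every member is the restriction of an entire function. -/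
def TrivialA (n : ℕ) (S : Set ℂ) : Prop :=
  ∀ f : ℂ → ℂ, MemA n S f → ∃ g : ℂ → ℂ, Differentiable ℂ g ∧ EqOn f g Sᶜ

/-- Admissible decomposition: closed sets with union `S`, and every point of `S` is interior,
relative to `S`, to one of them. -/
def Admissible (S S₁ S₂ : Set ℂ) : Prop :=
  IsClosed S₁ ∧ IsClosed S₂ ∧ S = S₁ ∪ S₂ ∧ ∀ p ∈ S, S₁ ∈ 𝓝[S] p ∨ S₂ ∈ 𝓝[S] p

/-- The areas of the `2^{-k}`-neighbourhoods of `T` inside each disc have a finite sum. -/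
def LogThin (T : Set ℂ) : Prop :=
  ∀ R : ℝ, ∑' k : ℕ, volume (thickening ((1 / 2 : ℝ) ^ k) T ∩ ball (0 : ℂ) R) ≠ ⊤

end Pool.Agent.MP_d32a63_an.H82
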