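import Pool.Agent.MP_d32a63_an.H82.L2

open Set Filter Topology MeasureTheory Metric Complex

namespace Pool.Agent.MP_d32a63_an.H82

/-- a smooth function that equals `1/z` outside the unit disc -/
theorem good_bump : ∃ Θ : ℂ → ℂ, ContDiff ℝ 2 Θ ∧ ∀ z, 1 ≤ ‖z‖ → Θ z = z⁻¹ := by
  refine ⟨fun z => (Real.smoothTransition (2 * ‖z‖ ^ 2 - 1) : ℝ) * z⁻¹,
    contDiff_iff_contDiffAt.2 fun z => ?_, fun z hz => ?_⟩
  · by_cases hz : z = 0
    · subst hz
      refine (contDiffAt_const (c := (0 : ℂ))).congr_of_eventuallyEq ?_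
      filter_upwards [ball_mem_nhds (0 : ℂ) (show (0 : ℝ) < 1 / 2 by norm_num)] with w hw
      rw [Real.smoothTransition.zero_of_nonpos, ofReal_zero, zero_mul]
      have := mem_ball_zero_iff.1 hw
      nlinarith [norm_nonneg w]
    · refine ContDiffAt.mul (ContDiff.contDiffAt ?_) (contDiffAt_inv ℝ hz)
      exact ofRealCLM.contDiff.comp (Real.smoothTransition.contDiff.comp
        ((contDiff_const.mul (contDiff_norm_sq ℝ)).sub contDiff_const))
  · simp only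
    rw [Real.smoothTransition.one_of_one_le (by nlinarith), ofReal_one, one_mul]

theorem good_out {Θ : ℂ → ℂ} (h : ∀ z, 1 ≤ ‖z‖ → Θ z = z⁻¹) {z : ℂ} (hz : 1 < ‖z‖) (v : ℂ) :
    fderiv ℝ Θ z v = -(v / z ^ 2) := by
  have h0 : z ≠ 0 := by rintro rfl; norm_num at hz
  have e : Θ =ᶠ[𝓝 z] fun w => w⁻¹ := by
    filter_upwards [(isOpen_lt continuous_const continuous_norm).mem_nhds hz] with w hw
    exact h w (le_of_lt hw)
  rw [e.fderiv_eq, ((hasDerivAt_inv h0).hasFDerivAt.restrictScalars ℝ).fderiv]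
  simp [div_eq_mul_inv]

theorem good_bdd {β : ℂ → ℂ} (hβ : Continuous β) (h : ∀ z, 1 < ‖z‖ → ‖β z‖ ≤ 2) :
    ∃ M : ℝ, 0 < M ∧ ∀ z, ‖β z‖ ≤ M := by
  obtain ⟨M, hM⟩ := (isCompact_closedBall (0 : ℂ) 1).exists_bound_of_continuousOn hβ.continuousOn
  refine ⟨max M 2, lt_max_of_lt_right two_pos, fun z => ?_⟩
  rcases le_or_gt ‖z‖ 1 with hz | hz
  · exact (hM z (mem_closedBall_zero_iff.2 hz)).trans (le_max_left _ _)
  · exact (h z hz).trans (le_max_right _ _)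

theorem good_scale {Θ : ℂ → ℂ} (h : Differentiable ℝ Θ) (ζ : ℂ) (ρ : ℝ) (z : ℂ) :
    HasFDerivAt (fun w => Θ ((w - ζ) / ρ) / ρ)
      (((ρ : ℂ) ^ 2)⁻¹ • fderiv ℝ Θ ((z - ζ) / ρ)) z := by
  have h1 : HasFDerivAt (fun w : ℂ => (w - ζ) / ρ) (ρ⁻¹ • ContinuousLinearMap.id ℝ ℂ) z := by
    have := ((hasFDerivAt_id (𝕜 := ℝ) z).sub_const ζ).const_smul ρ⁻¹
    refine this.congr_of_eventuallyEq (Eventually.of_forall fun w => ?_)
    simp [div_eq_inv_mul]
  have h2 := ((h _).hasFDerivAt.comp z h1).const_mul (ρ : ℂ)⁻¹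
  refine (h2.congr_of_eventuallyEq (Eventually.of_forall fun w => ?_)).congr_fderiv ?_
  · simp [div_eq_inv_mul]
  · ext v
    simp only [smul_apply, ContinuousLinearMap.comp_apply,
      ContinuousLinearMap.id_apply, map_smul]
    simp only [smul_eq_mul, real_smul]
    push_cast
    ring

theorem good_norm_gt {ζ z : ℂ} {ρ : ℝ} (hρ : 0 < ρ) (h : ρ < ‖z - ζ‖) : 1 < ‖(z - ζ) / ρ‖ := by
  rwa [norm_div, norm_real, Real.norm_of_nonneg hρ.le, one_lt_div hρ]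

theorem good_term {β : ℂ → ℂ} {M : ℝ} (hM : ∀ z, ‖β z‖ ≤ M) (a w : ℂ) {ρ : ℝ} (hρ : 0 < ρ) :
    ‖a * (((ρ : ℂ) ^ 2)⁻¹ * β w)‖ ≤ ‖a‖ * (M / ρ ^ 2) := by
  rw [norm_mul, norm_mul, norm_inv, norm_pow, norm_real, Real.norm_of_nonneg hρ.le,
    div_eq_inv_mul]
  have := hM w
  gcongr

theorem good_int {β : ℂ → ℂ} {M : ℝ} (hM : ∀ z, ‖β z‖ ≤ M) (h0 : ∀ z, 1 < ‖z‖ → β z = 0)
    {ι : Type} (s : Finset ι) (a ζ : ι → ℂ) (ρ : ι → ℝ) (hρ : ∀ j ∈ s, 0 < ρ j) {P : ℝ}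
    (hP : ∀ z, ‖∑ j ∈ s, a j * (((ρ j : ℂ) ^ 2)⁻¹ * β ((z - ζ j) / ρ j))‖ ≤ P) :
    ∃ h : ℂ → ℝ, Integrable h ∧
      (∀ z, ‖∑ j ∈ s, a j * (((ρ j : ℂ) ^ 2)⁻¹ * β ((z - ζ j) / ρ j))‖ ^ 2 ≤ h z) ∧
      ∫ z, h z = P * (M * Real.pi) * ∑ j ∈ s, ‖a j‖ := by
  have hi : ∀ j ∈ s, Integrable ((closedBall (ζ j) (ρ j)).indicator
      fun _ => P * (‖a j‖ * (M / ρ j ^ 2))) := fun j _ =>
    (integrableOn_const measure_closedBall_lt_top.ne).integrable_indicator measurableSet_closedBall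
  refine ⟨fun z => ∑ j ∈ s, (closedBall (ζ j) (ρ j)).indicator
    (fun _ => P * (‖a j‖ * (M / ρ j ^ 2))) z, integrable_finsetSum _ hi, fun z => ?_, ?_⟩
  · have hP0 : 0 ≤ P := (norm_nonneg _).trans (hP z)
    rw [sq]
    refine (mul_le_mul (hP z) (norm_sum_le _ _) (norm_nonneg _) hP0).trans ?_
    rw [Finset.mul_sum]
    refine Finset.sum_le_sum fun j hj => ?_
    by_cases hz : z ∈ closedBall (ζ j) (ρ j)
    · rw [indicator_of_mem hz]
      exact mul_le_mul_of_nonneg_left (good_term hM _ _ (hρ j hj)) hP0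
    · rw [indicator_of_notMem hz, h0 _ (good_norm_gt (hρ j hj) (by
        rwa [mem_closedBall_iff_norm, not_le] at hz))]
      simp
  · rw [integral_finsetSum _ hi, Finset.mul_sum]
    refine Finset.sum_congr rfl fun j hj => ?_
    have := hρ j hj
    rw [integral_indicator_const _ measurableSet_closedBall, Measure.real, Complex.volume_closedBall,
      ENNReal.toReal_mul, ENNReal.toReal_pow, ENNReal.toReal_ofReal this.le, smul_eq_mul]
    simp only [ENNReal.coe_toReal, NNReal.coe_real_pi]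
    field_simp

/-- Good part of the Calderon-Zygmund decomposition for the kernel `1/(ζ-z)^2`. -/
theorem good_part : ∃ C : ℝ, 0 < C ∧ ∀ {ι : Type} (s : Finset ι) (a ζ : ι → ℂ) (ρ : ι → ℝ)
    (lam : ℝ), 0 < lam → (∀ j ∈ s, 0 < ρ j) →
    (s : Set ι).PairwiseDisjoint (fun j => closedBall (ζ j) (ρ j)) →
    (∀ j ∈ s, ‖a j‖ ≤ 25 * lam * ρ j ^ 2) →
    volume {z : ℂ | (∀ j ∈ s, ρ j < ‖z - ζ j‖) ∧ 2 * lam < ‖∑ j ∈ s, a j / (ζ j - z) ^ 2‖}
      ≤ ENNReal.ofReal (C * (∑ j ∈ s, ‖a j‖) / lam) := by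
  obtain ⟨Θ, hΘ, hout⟩ := good_bump
  have hΘd : Differentiable ℝ Θ := hΘ.differentiable two_ne_zero
  have hc : ∀ v, Continuous fun z => fderiv ℝ Θ z v := fun v =>
    (hΘ.continuous_fderiv two_ne_zero).clm_apply continuous_const
  set α : ℂ → ℂ := fun z => fderiv ℝ Θ z 1 - I * fderiv ℝ Θ z I with hα
  set β : ℂ → ℂ := fun z => fderiv ℝ Θ z 1 + I * fderiv ℝ Θ z I with hβ
  have hα1 : ∀ z, 1 < ‖z‖ → α z = -(2 / z ^ 2) := fun z hz => by
    simp only [hα, good_out hout hz]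
    linear_combination (z ^ 2)⁻¹ * I_mul_I
  have hβ1 : ∀ z, 1 < ‖z‖ → β z = 0 := fun z hz => by
    simp only [hβ, good_out hout hz]
    linear_combination (-(z ^ 2)⁻¹) * I_mul_I
  obtain ⟨M1, hM1, hαM⟩ := good_bdd (β := α) ((hc 1).sub (continuous_const.mul (hc I)))
    fun z hz => by
      rw [hα1 z hz, norm_neg, norm_div, norm_pow, Complex.norm_two]
      exact div_le_self two_pos.le (one_le_pow₀ hz.le)
  obtain ⟨M, hM, hβM⟩ := good_bdd (β := β) ((hc 1).add (continuous_const.mul (hc I)))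
    fun z hz => by rw [hβ1 z hz, norm_zero]; exact two_pos.le
  refine ⟨2 * (25 * M + 1) * (M * Real.pi), by positivity, ?_⟩
  intro ι s a ζ ρ lam hlam hρ hdis ha
  set A := ∑ j ∈ s, ‖a j‖ with hA
  have hA0 : 0 ≤ A := Finset.sum_nonneg fun _ _ => norm_nonneg _
  have hS0 : 0 ≤ ∑ j ∈ s, ρ j := Finset.sum_nonneg fun j hj => (hρ j hj).le
  set R := 1 + ∑ j ∈ s, ρ j + A * (M + M1) / lam with hR
  have hq : 0 ≤ A * (M + M1) / lam := by positivity
  have hR1 : 1 ≤ R := by linarith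
  have hR0 : 0 < R := by linarith
  have hRρ : ∀ j ∈ s, ρ j ≤ R := fun j hj => by
    have := Finset.single_le_sum (fun j hj => (hρ j hj).le) hj
    linarith
  have hbig : ∀ {γ : ℂ → ℂ} {N : ℝ}, (∀ z, ‖γ z‖ ≤ N) → N ≤ M + M1 → ∀ z,
      ‖∑ j ∈ s, a j * (((R : ℂ) ^ 2)⁻¹ * γ ((z - ζ j) / R))‖ ≤ lam := fun {γ N} h1 h2 z => by
    refine (norm_sum_le _ _).trans
      ((Finset.sum_le_sum fun j _ => good_term h1 _ _ hR0).trans ?_)
    rw [← Finset.sum_mul, ← mul_div_assoc, div_le_iff₀ (by positivity)]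
    have h3 : A * (M + M1) / lam ≤ R ^ 2 := by nlinarith
    rw [div_le_iff₀ hlam] at h3
    nlinarith [mul_le_mul_of_nonneg_left h2 hA0]
  set u : ℂ → ℂ := fun z => ∑ j ∈ s, a j * (Θ ((z - ζ j) / ρ j) / ρ j - Θ ((z - ζ j) / R) / R)
    with hu
  have hu2 : ContDiff ℝ 2 u := by
    refine ContDiff.sum fun j _ => contDiff_const.mul (ContDiff.sub ?_ ?_) <;>
    exact (hΘ.comp ((contDiff_id.sub contDiff_const).div_const _)).div_const _
  have hus : HasCompactSupport u := by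
    refine HasCompactSupport.intro (isCompact_closedBall 0 (R + ∑ j ∈ s, ‖ζ j‖)) fun z hz => ?_
    refine Finset.sum_eq_zero fun j hj => ?_
    have h1 : R < ‖z - ζ j‖ := by
      have := Finset.single_le_sum (f := fun j => ‖ζ j‖) (fun j _ => norm_nonneg _) hj
      rw [mem_closedBall_zero_iff, not_le] at hz
      linarith [norm_sub_norm_le z (ζ j)]
    have h2 : (ρ j : ℂ) ≠ 0 := by exact_mod_cast (hρ j hj).ne'
    have h3 : (R : ℂ) ≠ 0 := by exact_mod_cast hR0.ne'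
    rw [hout _ (good_norm_gt hR0 h1).le,
      hout _ (good_norm_gt (hρ j hj) ((hRρ j hj).trans_lt h1)).le]
    field_simp
    simp
  have hfd : ∀ z v, fderiv ℝ u z v = ∑ j ∈ s, a j *
      (((ρ j : ℂ) ^ 2)⁻¹ * fderiv ℝ Θ ((z - ζ j) / ρ j) v -
        ((R : ℂ) ^ 2)⁻¹ * fderiv ℝ Θ ((z - ζ j) / R) v) := fun z v => by
    rw [(HasFDerivAt.fun_sum fun j _ => ((good_scale hΘd (ζ j) (ρ j) z).fun_sub
      (good_scale hΘd (ζ j) R z)).const_mul (a j)).fderiv]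
    simp
  have hud : ∀ z, fderiv ℝ u z 1 - I * fderiv ℝ u z I =
      ∑ j ∈ s, a j * (((ρ j : ℂ) ^ 2)⁻¹ * α ((z - ζ j) / ρ j)) -
        ∑ j ∈ s, a j * (((R : ℂ) ^ 2)⁻¹ * α ((z - ζ j) / R)) := fun z => by
    rw [hfd, hfd, Finset.mul_sum, ← Finset.sum_sub_distrib, ← Finset.sum_sub_distrib]
    exact Finset.sum_congr rfl fun j _ => by simp only [hα]; ring
  have hub : ∀ z, fderiv ℝ u z 1 + I * fderiv ℝ u z I =
      ∑ j ∈ s, a j * (((ρ j : ℂ) ^ 2)⁻¹ * β ((z - ζ j) / ρ j)) -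
        ∑ j ∈ s, a j * (((R : ℂ) ^ 2)⁻¹ * β ((z - ζ j) / R)) := fun z => by
    rw [hfd, hfd, Finset.mul_sum, ← Finset.sum_add_distrib, ← Finset.sum_sub_distrib]
    exact Finset.sum_congr rfl fun j _ => by simp only [hβ]; ring
  obtain ⟨h1, i1, b1, e1⟩ := good_int hβM hβ1 s a ζ ρ hρ (P := 25 * lam * M) fun z => by
    by_cases hz : ∃ j ∈ s, z ∈ closedBall (ζ j) (ρ j)
    · obtain ⟨j, hj, hz⟩ := hz
      rw [Finset.sum_eq_single_of_mem j hj fun i hi hij => ?_]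
      · refine (good_term hβM _ _ (hρ j hj)).trans ?_
        have := hρ j hj
        calc _ ≤ 25 * lam * ρ j ^ 2 * (M / ρ j ^ 2) := by gcongr; exact ha j hj
          _ = _ := by field_simp
      · have := Set.disjoint_right.1 (hdis hi hj hij) hz
        rw [hβ1 _ (good_norm_gt (hρ i hi) (by rwa [mem_closedBall_iff_norm, not_le] at this))]
        simp
    · rw [Finset.sum_eq_zero fun j hj => ?_, norm_zero]
      · positivity
      · have : z ∉ closedBall (ζ j) (ρ j) := fun h => hz ⟨j, hj, h⟩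
        rw [hβ1 _ (good_norm_gt (hρ j hj) (by rwa [mem_closedBall_iff_norm, not_le] at this))]
        simp
  obtain ⟨h2, i2, b2, e2⟩ := good_int hβM hβ1 s a ζ (fun _ => R) (fun _ _ => hR0) (P := lam)
    (hbig hβM (by linarith))
  have hint : ∫ z, ‖fderiv ℝ u z 1 - I * fderiv ℝ u z I‖ ^ 2 ≤
      2 * (25 * M + 1) * (M * Real.pi) * A * lam := by
    rw [l2_identity u hu2 hus]
    refine (integral_mono_of_nonneg (g := fun z => 2 * h1 z + 2 * h2 z)
      (Eventually.of_forall fun z => by positivity) ((i1.const_mul 2).add (i2.const_mul 2))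
      (Eventually.of_forall fun z => ?_)).trans (le_of_eq ?_)
    · have k1 := b1 z
      have k2 := b2 z
      simp only [hub]
      generalize (∑ j ∈ s, a j * (((ρ j : ℂ) ^ 2)⁻¹ * β ((z - ζ j) / ρ j))) = x at *
      generalize (∑ j ∈ s, a j * (((R : ℂ) ^ 2)⁻¹ * β ((z - ζ j) / R))) = y at *
      have k3 : ‖x - y‖ ^ 2 ≤ (‖x‖ + ‖y‖) ^ 2 := by gcongr; exact norm_sub_le x y
      nlinarith [sq_nonneg (‖x‖ - ‖y‖)]
    · rw [integral_add (i1.const_mul 2) (i2.const_mul 2), integral_const_mul, integral_const_mul,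
        e1, e2]
      ring
  have hc' : ∀ v, Continuous fun z => fderiv ℝ u z v := fun v =>
    (hu2.continuous_fderiv two_ne_zero).clm_apply continuous_const
  have hI : Integrable fun z => ‖fderiv ℝ u z 1 - I * fderiv ℝ u z I‖ ^ 2 := by
    refine Continuous.integrable_of_hasCompactSupport
      (((hc' 1).sub (continuous_const.mul (hc' I))).norm.pow 2) ?_
    exact (hus.fderiv ℝ).comp_left (g := fun L : ℂ →L[ℝ] ℂ => ‖L 1 - I * L I‖ ^ 2) (by simp)
  have hch := mul_meas_ge_le_integral_of_nonneg (Eventually.of_forall fun z => by positivity) hI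
    (lam ^ 2)
  have hfin : volume {z | lam ^ 2 ≤ ‖fderiv ℝ u z 1 - I * fderiv ℝ u z I‖ ^ 2} ≠ ⊤ := by
    have := hI.measure_norm_ge_lt_top (ε := lam ^ 2) (by positivity)
    simpa using this.ne
  refine (measure_mono (t := {z | lam ^ 2 ≤ ‖fderiv ℝ u z 1 - I * fderiv ℝ u z I‖ ^ 2})
    fun z hz => ?_).trans ?_
  · have k1 : ∑ j ∈ s, a j * (((ρ j : ℂ) ^ 2)⁻¹ * α ((z - ζ j) / ρ j)) =
        -2 * ∑ j ∈ s, a j / (ζ j - z) ^ 2 := by
      rw [Finset.mul_sum]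
      refine Finset.sum_congr rfl fun j hj => ?_
      have h2 : (ρ j : ℂ) ≠ 0 := by exact_mod_cast (hρ j hj).ne'
      rw [hα1 _ (good_norm_gt (hρ j hj) (hz.1 j hj)), sub_sq_comm (ζ j) z]
      field_simp
    have k2 := hbig hαM (by linarith) z
    have k3 := hz.2
    change lam ^ 2 ≤ _
    rw [hud, k1]
    refine pow_le_pow_left₀ hlam.le (le_trans ?_ (norm_sub_norm_le _ _)) 2
    rw [norm_mul, norm_neg, Complex.norm_two]
    linarith
  · rw [← ofReal_measureReal hfin]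
    refine ENNReal.ofReal_le_ofReal ?_
    rw [le_div_iff₀ hlam]
    refine le_of_mul_le_mul_right ?_ hlam
    nlinarith [hch.trans hint]

end Pool.Agent.MP_d32a63_an.H82
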