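import Mathlib

open Set Filter Topology MeasureTheory Metric Complex

namespace Pool.Agent.MP_d32a63_an.H82

/-- The integrable functions as a submodule. -/
def hbSub {α : Type} [MeasurableSpace α] (μ : Measure α) : Submodule ℂ (α → ℂ) where
  carrier := {g | Integrable g μ}
  add_mem' := fun ha hb => Integrable.add ha hb
  zero_mem' := integrable_zero _ _ _
  smul_mem' := fun c _ hg => Integrable.smul c hg

/-- The seminorm used in the extension. -/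
noncomputable def hbSemi {α T : Type} [MeasurableSpace α] (μ : Measure α) (w : T → ℝ)
    (hw : ∀ t, 0 ≤ w t) (M : ℝ) (hM : 0 ≤ M) : Seminorm ℂ (hbSub μ × (T →₀ ℂ)) :=
  Seminorm.of (𝕜 := ℂ) (fun x : hbSub μ × (T →₀ ℂ) => M * ((∫ z, ‖x.1.1 z‖ ∂μ) + x.2.sum fun t a => ‖a‖ * w t))
    (by
      classical
      intro x y
      rw [← mul_add]
      refine mul_le_mul_of_nonneg_left ?_ hM
      have h1 : ∫ z, ‖(x + y).1.1 z‖ ∂μ ≤ (∫ z, ‖x.1.1 z‖ ∂μ) + ∫ z, ‖y.1.1 z‖ ∂μ := by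
        rw [← integral_add x.1.2.norm y.1.2.norm]
        exact integral_mono (x + y).1.2.norm (x.1.2.norm.add y.1.2.norm)
          fun z => norm_add_le _ _
      have h2 : ((x + y).2.sum fun t a => ‖a‖ * w t) ≤
          (x.2.sum fun t a => ‖a‖ * w t) + y.2.sum fun t a => ‖a‖ * w t := by
        rw [Finsupp.sum_of_support_subset (x + y).2 (s := x.2.support ∪ y.2.support)
            Finsupp.support_add _ (by simp),
          Finsupp.sum_of_support_subset x.2 (s := x.2.support ∪ y.2.support)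
            Finset.subset_union_left _ (by simp),
          Finsupp.sum_of_support_subset y.2 (s := x.2.support ∪ y.2.support)
            Finset.subset_union_right _ (by simp), ← Finset.sum_add_distrib]
        refine Finset.sum_le_sum fun t _ => ?_
        rw [← add_mul]
        exact mul_le_mul_of_nonneg_right (norm_add_le _ _) (hw t)
      linarith)
    (by
      intro a x
      have h1 : ∫ z, ‖(a • x).1.1 z‖ ∂μ = ‖a‖ * ∫ z, ‖x.1.1 z‖ ∂μ := by
        rw [← integral_const_mul]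
        congr 1
        funext z
        exact norm_smul a (x.1.1 z)
      have h2 : ((a • x).2.sum fun t b => ‖b‖ * w t) = ‖a‖ * x.2.sum fun t b => ‖b‖ * w t := by
        rw [Finsupp.sum_of_support_subset (a • x).2 (s := x.2.support)
            Finsupp.support_smul _ (by simp), Finsupp.sum, Finset.mul_sum]
        refine Finset.sum_congr rfl fun t _ => ?_
        rw [← mul_assoc, ← norm_smul]
        rfl
      show M * _ = ‖a‖ * (M * _)
      rw [h1, h2]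
      ring)

/-- Hahn-Banach with soft constraints. -/
theorem hb {α T : Type} [MeasurableSpace α] (μ : Measure α) (κ : T → α → ℂ)
    (hκ : ∀ t, Integrable (κ t) μ) (y : T → ℂ) (w : T → ℝ) (hw : ∀ t, 0 ≤ w t) (M : ℝ)
    (hM : 0 ≤ M)
    (h : ∀ (s : Finset T) (c : T → ℂ), ‖∑ t ∈ s, c t * y t‖ ≤
      M * ((∫ z, ‖∑ t ∈ s, c t * κ t z‖ ∂μ) + ∑ t ∈ s, ‖c t‖ * w t)) :
    ∃ L : (α → ℂ) →ₗ[ℂ] ℂ, (∀ g, Integrable g μ → ‖L g‖ ≤ M * ∫ z, ‖g z‖ ∂μ) ∧
      ∀ t, ‖L (κ t) - y t‖ ≤ M * w t := by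
  let K : (T →₀ ℂ) →ₗ[ℂ] hbSub μ := Finsupp.linearCombination ℂ (fun t => (⟨κ t, hκ t⟩ : hbSub μ))
  let S : Submodule ℂ (hbSub μ × (T →₀ ℂ)) := LinearMap.range (K.prod LinearMap.id)
  let f : Module.Dual ℂ S :=
    (Finsupp.linearCombination ℂ y) ∘ₗ (LinearMap.snd ℂ _ _) ∘ₗ S.subtype
  obtain ⟨Φ, hΦ, hb⟩ := Module.Dual.exists_extension_of_le_seminorm S f
    (p := hbSemi μ w hw M hM) (by
      rintro ⟨_, c, rfl⟩
      have e : ∀ z, (K c).1 z = ∑ t ∈ c.support, c t * κ t z := by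
        intro z
        simp [K, Finsupp.linearCombination_apply, Finsupp.sum]
      show ‖Finsupp.linearCombination ℂ y c‖ ≤
        M * ((∫ z, ‖(K c).1 z‖ ∂μ) + c.sum fun t a => ‖a‖ * w t)
      simp only [e]
      exact h c.support c)
  obtain ⟨L, hL⟩ := (Φ ∘ₗ LinearMap.inl ℂ (hbSub μ) (T →₀ ℂ)).exists_extend
  have hL' : ∀ g : hbSub μ, L g.1 = Φ (g, 0) := fun g => LinearMap.congr_fun hL g
  refine ⟨L, fun g hg => ?_, fun t => ?_⟩
  · have := hb (⟨g, hg⟩, 0)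
    rw [hL' ⟨g, hg⟩]
    refine this.trans (le_of_eq ?_)
    show M * ((∫ z, ‖g z‖ ∂μ) + (0 : T →₀ ℂ).sum fun t a => ‖a‖ * w t) = _
    simp
  · have e1 := hΦ ⟨_, Finsupp.single t 1, rfl⟩
    have e2 : Φ (⟨κ t, hκ t⟩, Finsupp.single t 1) = y t := by
      simpa [f, K] using e1
    have e3 : Φ (⟨κ t, hκ t⟩, Finsupp.single t 1) =
        Φ (⟨κ t, hκ t⟩, 0) + Φ (0, Finsupp.single t 1) := by
      rw [← map_add]; simp
    have e4 := hb (0, Finsupp.single t 1)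
    have e5 : hbSemi μ w hw M hM (0, Finsupp.single t 1) = M * w t := by
      show M * ((∫ z, ‖(0 : α → ℂ) z‖ ∂μ) +
        (Finsupp.single t (1 : ℂ)).sum fun t a => ‖a‖ * w t) = _
      rw [Finsupp.sum_single_index (by simp)]
      simp
    rw [hL' ⟨κ t, hκ t⟩, ← e2, e3, sub_add_cancel_left, norm_neg]
    exact e4.trans e5.le

theorem hb_taylor {g : ℂ → ℂ} {c : ℂ} {η B : ℝ} (hη : 0 < η)
    (hg : DifferentiableOn ℂ g (ball c η)) (hB : ∀ ζ ∈ ball c η, ‖g ζ‖ ≤ B) :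
    ‖deriv g c‖ ≤ 2 * B / η ∧ ∀ ζ ∈ ball c η,
      ‖g ζ - g c - (ζ - c) * deriv g c‖ ≤ 4 * B / η ^ 2 * ‖ζ - c‖ ^ 2 := by
  have m1 : MapsTo g (ball c η) (closedBall (g c) (2 * B)) := fun ζ hζ => by
    rw [mem_closedBall, dist_eq_norm]
    linarith [norm_sub_le (g ζ) (g c), hB ζ hζ, hB c (mem_ball_self hη)]
  have d1 : ∀ ζ ∈ ball c η, ‖dslope g c ζ‖ ≤ 2 * B / η := fun ζ hζ =>
    norm_dslope_le_div_of_mapsTo_ball hg m1 hζ
  have hd : DifferentiableOn ℂ (dslope g c) (ball c η) :=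
    (Complex.differentiableOn_dslope (ball_mem_nhds c hη)).mpr hg
  have m2 : MapsTo (dslope g c) (ball c η) (closedBall (dslope g c c) (2 * (2 * B / η))) :=
    fun ζ hζ => by
      rw [mem_closedBall, dist_eq_norm]
      linarith [norm_sub_le (dslope g c ζ) (dslope g c c), d1 ζ hζ, d1 c (mem_ball_self hη)]
  refine ⟨by simpa using d1 c (mem_ball_self hη), fun ζ hζ => ?_⟩
  have d2 := dist_le_div_mul_dist_of_mapsTo_ball hd m2 hζ
  rw [dist_eq_norm, dist_eq_norm, dslope_same] at d2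
  have e : g ζ - g c - (ζ - c) * deriv g c = (ζ - c) * (dslope g c ζ - deriv g c) := by
    have := sub_smul_dslope g c ζ
    rw [smul_eq_mul] at this
    rw [mul_sub, this]
  rw [e, norm_mul]
  calc ‖ζ - c‖ * ‖dslope g c ζ - deriv g c‖ ≤ ‖ζ - c‖ * (2 * (2 * B / η) / η * ‖ζ - c‖) :=
        mul_le_mul_of_nonneg_left d2 (norm_nonneg _)
    _ = 4 * B / η ^ 2 * ‖ζ - c‖ ^ 2 := by field_simp; ring

/-- A functional bounded on `L¹` maps holomorphic families to holomorphic functions. -/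
theorem holo_family {α : Type} [MeasurableSpace α] (μ : Measure α) (L : (α → ℂ) →ₗ[ℂ] ℂ)
    (M : ℝ) (hL : ∀ g, Integrable g μ → ‖L g‖ ≤ M * ∫ z, ‖g z‖ ∂μ)
    (k : ℂ → α → ℂ) (k' : α → ℂ) (ζ₀ : ℂ) (η : ℝ) (hη : 0 < η) (B : α → ℝ)
    (hB : Integrable B μ) (hm : ∀ ζ ∈ ball ζ₀ η, AEStronglyMeasurable (k ζ) μ)
    (hm' : AEStronglyMeasurable k' μ)
    (hk : ∀ᵐ z ∂μ, DifferentiableOn ℂ (fun ζ => k ζ z) (ball ζ₀ η) ∧
      (∀ ζ ∈ ball ζ₀ η, ‖k ζ z‖ ≤ B z) ∧ deriv (fun ζ => k ζ z) ζ₀ = k' z) :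
    Integrable k' μ ∧ HasDerivAt (fun ζ => L (k ζ)) (L k') ζ₀ := by
  have hki : ∀ ζ ∈ ball ζ₀ η, Integrable (k ζ) μ := fun ζ hζ =>
    hB.mono' (hm ζ hζ) (hk.mono fun z hz => hz.2.1 ζ hζ)
  have hk' : Integrable k' μ := by
    refine ((hB.const_mul 2).div_const η).mono' hm' (hk.mono fun z hz => ?_)
    rw [← hz.2.2]
    exact (hb_taylor hη hz.1 hz.2.1).1
  refine ⟨hk', ?_⟩
  rw [hasDerivAt_iff_isLittleO]
  have hb : ∀ ζ ∈ ball ζ₀ η, ‖L (k ζ) - L (k ζ₀) - (ζ - ζ₀) • L k'‖ ≤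
      (|M| * (4 * (∫ z, B z ∂μ) / η ^ 2)) * ‖(ζ - ζ₀) ^ 2‖ := by
    intro ζ hζ
    have hi : Integrable (k ζ - k ζ₀ - (ζ - ζ₀) • k') μ :=
      ((hki ζ hζ).sub (hki ζ₀ (mem_ball_self hη))).sub (hk'.smul (ζ - ζ₀))
    have h1 := hL _ hi
    rw [map_sub, map_sub, map_smul] at h1
    have h2 : ∫ z, ‖(k ζ - k ζ₀ - (ζ - ζ₀) • k') z‖ ∂μ ≤
        ∫ z, 4 * B z / η ^ 2 * ‖ζ - ζ₀‖ ^ 2 ∂μ := by
      refine integral_mono_ae hi.norm (((hB.const_mul 4).div_const _).mul_const _)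
        (hk.mono fun z hz => ?_)
      have := (hb_taylor hη hz.1 hz.2.1).2 ζ hζ
      rw [hz.2.2] at this
      exact this
    rw [integral_mul_const, integral_div, integral_const_mul] at h2
    have h3 : 0 ≤ ∫ z, ‖(k ζ - k ζ₀ - (ζ - ζ₀) • k') z‖ ∂μ :=
      integral_nonneg fun z => norm_nonneg _
    rw [norm_pow, mul_assoc]
    exact h1.trans ((mul_le_mul_of_nonneg_right (le_abs_self M) h3).trans
      (mul_le_mul_of_nonneg_left h2 (abs_nonneg M)))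
  have hO : (fun ζ => L (k ζ) - L (k ζ₀) - (ζ - ζ₀) • L k') =O[𝓝 ζ₀]
      fun ζ => (ζ - ζ₀) ^ 2 :=
    Asymptotics.IsBigO.of_bound _ (mem_of_superset (ball_mem_nhds ζ₀ hη) hb)
  exact hO.trans_isLittleO (by
    have := Asymptotics.isLittleO_pow_sub_sub ζ₀ (m := 2) (by norm_num)
    refine Asymptotics.IsLittleO.of_norm_left ?_
    simpa using this)

/-- Functions equal almost everywhere have the same value. -/
theorem L_congr {α : Type} [MeasurableSpace α] (μ : Measure α) (L : (α → ℂ) →ₗ[ℂ] ℂ)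
    (M : ℝ) (hL : ∀ g, Integrable g μ → ‖L g‖ ≤ M * ∫ z, ‖g z‖ ∂μ)
    {g h : α → ℂ} (hgh : g =ᵐ[μ] h) : L g = L h := by
  have h0 : g - h =ᵐ[μ] 0 := hgh.mono fun z hz => by simp [hz]
  have h1 := hL (g - h) ((integrable_zero _ _ _).congr h0.symm)
  have h2 : ∫ z, ‖(g - h) z‖ ∂μ = 0 :=
    integral_eq_zero_of_ae (h0.mono fun z hz => by simp only [hz]; simp)
  rw [h2, mul_zero, map_sub, norm_le_zero_iff, sub_eq_zero] at h1
  exact h1

end Pool.Agent.MP_d32a63_an.H82
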