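import Mathlib

open Set Filter Topology MeasureTheory Metric Complex

namespace Pool.Agent.MP_d32a63_an.H82

/-- the area form `(a, b) ↦ ⟪a, i b⟫` -/
noncomputable def l2_form : ℂ →L[ℝ] ℂ →L[ℝ] ℝ :=
  (innerSL ℝ).bilinearComp (ContinuousLinearMap.id ℝ ℂ) (ContinuousLinearMap.mul ℝ ℂ I)

lemma l2_form_apply (a b : ℂ) : l2_form a b = inner ℝ a (I * b) := rfl

lemma l2_form_anti (a b : ℂ) : l2_form b a = -l2_form a b := by
  simp only [l2_form_apply, Complex.inner]
  simp
  ring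

lemma l2_int {f g : ℂ → ℂ} (hf : Continuous f) (hg : Continuous g) (hc : HasCompactSupport f) :
    Integrable fun z => l2_form (f z) (g z) := by
  refine Continuous.integrable_of_hasCompactSupport (by fun_prop) (hc.mono fun z hz h => hz ?_)
  simp [h]

lemma l2_parts {u : ℂ → ℂ} (hu : ContDiff ℝ 2 u) (hc : HasCompactSupport u) (v w : ℂ) :
    ∫ z, l2_form (fderiv ℝ u z v) (fderiv ℝ u z w) =
      -∫ z, l2_form (u z) (fderiv ℝ (fderiv ℝ u) z v w) := by
  have h1 : ContDiff ℝ 1 (fderiv ℝ u) := hu.fderiv_right (m := 1) (by norm_num)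
  have h2 : Continuous (fderiv ℝ (fderiv ℝ u)) := h1.continuous_fderiv one_ne_zero
  have h3 := h1.continuous
  have hd := h1.differentiable one_ne_zero
  rw [integral_bilinear_hasFDerivAt_right_eq_neg_left_of_integrable (B := l2_form) (f := u)
    (f' := fderiv ℝ u) (g := fun z => fderiv ℝ u z w) (v := v)
    (g' := fun z => (fderiv ℝ (fderiv ℝ u) z).flip w)
    (l2_int (by fun_prop) (by fun_prop) (hc.fderiv_apply ℝ v))
    (l2_int hu.continuous (by simp only [ContinuousLinearMap.flip_apply]; fun_prop) hc)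
    (l2_int hu.continuous (by fun_prop) hc)
    (fun x _ => (hu.differentiable two_ne_zero x).hasFDerivAt)
    (fun x _ => by simpa using (hd x).hasFDerivAt.clm_apply (hasFDerivAt_const w x)) |>.trans rfl
      |> fun e => (show ∫ z, l2_form (u z) (fderiv ℝ (fderiv ℝ u) z v w) = _ from e), neg_neg]

/-- The `L²` norms of the two Wirtinger derivatives agree. -/
theorem l2_identity (u : ℂ → ℂ) (hu : ContDiff ℝ 2 u) (hc : HasCompactSupport u) :
    ∫ z, ‖fderiv ℝ u z 1 - I * fderiv ℝ u z I‖ ^ 2 =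
      ∫ z, ‖fderiv ℝ u z 1 + I * fderiv ℝ u z I‖ ^ 2 := by
  have h3 : Continuous (fderiv ℝ u) := hu.continuous_fderiv two_ne_zero
  have h0 : ∫ z, l2_form (fderiv ℝ u z 1) (fderiv ℝ u z I) = 0 := by
    have e1 := l2_parts hu hc 1 I
    have e2 := l2_parts hu hc I 1
    have e3 : ∀ z, fderiv ℝ (fderiv ℝ u) z I 1 = fderiv ℝ (fderiv ℝ u) z 1 I := fun z =>
      hu.contDiffAt.isSymmSndFDerivAt (by simp) I 1
    simp only [e3, l2_form_anti (fderiv ℝ u _ 1) (fderiv ℝ u _ I), integral_neg] at e2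
    linarith
  have hi : Integrable fun z => ‖fderiv ℝ u z 1 - I * fderiv ℝ u z I‖ ^ 2 := by
    refine Continuous.integrable_of_hasCompactSupport (by fun_prop)
      ((hc.fderiv (𝕜 := ℝ)).mono fun z hz h => hz ?_)
    simp [h]
  have e : ∀ z, ‖fderiv ℝ u z 1 + I * fderiv ℝ u z I‖ ^ 2 =
      ‖fderiv ℝ u z 1 - I * fderiv ℝ u z I‖ ^ 2 +
        4 * l2_form (fderiv ℝ u z 1) (fderiv ℝ u z I) := fun z => by
    rw [norm_add_sq_real, norm_sub_sq_real, l2_form_apply]
    ring
  simp only [e]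
  rw [integral_add hi ((l2_int (by fun_prop) (by fun_prop) (hc.fderiv_apply ℝ 1)).const_mul 4),
    integral_const_mul, h0, mul_zero, add_zero]

end Pool.Agent.MP_d32a63_an.H82
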